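import Pool.Agent.N111.GJ.QF

/-!
Open subsets of the affine line.
-/

set_option autoImplicit false
set_option linter.overlappingInstances false
set_option linter.unusedSectionVars false

open IntermediateField Polynomial

namespace Pool.Agent.N111.GJ

variable {K L : Type} [Field K] [Field L] [Algebra K L] {q : ℕ}

/-- The coordinates, at the point `f`, of the complement of the zeros of the polynomials `a j` in the
affine line: `f` and the inverses of the values of the polynomials. -/
noncomputable def cv (f : L) (a : Fin q → K[X]) : Fin (q + 1) → L :=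
  Fin.cons f fun j => (aeval f (a j))⁻¹

/-- clearing denominators -/
theorem cv_rel (a : Fin q → K[X]) (P : MvPolynomial (Fin (q + 1)) K) :
    ∃ (m : ℕ) (Q : K[X]), ∀ (E : Type) [Field E] [Algebra K E] (τ : E),
      (∀ j, aeval τ (a j) ≠ 0) →
      MvPolynomial.aeval (cv τ a) P * (aeval τ (∏ j, a j)) ^ m = aeval τ Q := by
  classical
  induction P using MvPolynomial.induction_on with
  | C c =>
    refine ⟨0, Polynomial.C c, fun E _ _ τ _ => ?_⟩
    rw [MvPolynomial.aeval_C, pow_zero, mul_one, Polynomial.aeval_C]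
  | add p p' hp hp' =>
    obtain ⟨m, Q, h⟩ := hp
    obtain ⟨m', Q', h'⟩ := hp'
    refine ⟨m + m', Q * (∏ j, a j) ^ m' + Q' * (∏ j, a j) ^ m, fun E _ _ τ hτ => ?_⟩
    rw [map_add, map_add, map_mul, map_mul, map_pow, map_pow, ← h E τ hτ, ← h' E τ hτ]
    ring
  | mul_X p i hp =>
    obtain ⟨m, Q, h⟩ := hp
    rcases Fin.eq_zero_or_eq_succ i with rfl | ⟨j, rfl⟩
    · refine ⟨m, Q * X, fun E _ _ τ hτ => ?_⟩
      rw [map_mul, MvPolynomial.aeval_X, map_mul, aeval_X, ← h E τ hτ]
      have h1 : cv τ a 0 = τ := rfl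
      rw [h1]
      ring
    · refine ⟨m + 1, Q * ∏ i ∈ Finset.univ.erase j, a i, fun E _ _ τ hτ => ?_⟩
      rw [map_mul, MvPolynomial.aeval_X, map_mul, ← h E τ hτ]
      have h1 : cv τ a j.succ = (aeval τ (a j))⁻¹ := rfl
      have h2 : aeval τ (∏ j, a j) = aeval τ (a j) *
          aeval τ (∏ i ∈ Finset.univ.erase j, a i) := by
        rw [← map_mul, Finset.mul_prod_erase _ _ (Finset.mem_univ j)]
      rw [h1, pow_succ]
      nth_rewrite 2 [h2]
      have := hτ j
      field_simp

theorem aeval_ne {f : L} (hf : Transcendental K f) {p : K[X]} (hp : p ≠ 0) : aeval f p ≠ 0 :=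
  fun h => hf ⟨p, hp, h⟩

/-- the points of the open subset of the line -/
theorem cv_pt {f : L} (hf : Transcendental K f) {a : Fin q → K[X]} (ha : ∀ j, a j ≠ 0)
    {E : Type} [Field E] [Algebra K E] {τ : E} (hτ : ∀ j, aeval τ (a j) ≠ 0)
    {P : MvPolynomial (Fin (q + 1)) K} (hP : MvPolynomial.aeval (cv f a) P = 0) :
    MvPolynomial.aeval (cv τ a) P = 0 := by
  obtain ⟨m, Q, h⟩ := cv_rel a P
  have h1 := h L f fun j => aeval_ne hf (ha j)
  rw [hP, zero_mul] at h1
  have h2 : Q = 0 := by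
    by_contra h2
    exact aeval_ne hf h2 h1.symm
  have h3 := h E τ hτ
  rw [h2, map_zero] at h3
  refine (mul_eq_zero.1 h3).resolve_right (pow_ne_zero _ ?_)
  rw [map_prod]
  exact Finset.prod_ne_zero_iff.2 fun j _ => hτ j

/-- the affine line without some points is normal -/
theorem cv_normal {f : L} (hf : Transcendental K f) (htop : K⟮f⟯ = ⊤) {a : Fin q → K[X]}
    (ha : ∀ j, a j ≠ 0) {z : L} (hz : IsIntegral (Algebra.adjoin K (Set.range (cv f a))) z) :
    z ∈ Algebra.adjoin K (Set.range (cv f a)) := by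
  classical
  obtain ⟨A, hA⟩ : ∃ A, A = Algebra.adjoin K (Set.range (cv f a)) := ⟨_, rfl⟩
  rw [← hA] at hz ⊢
  obtain ⟨g, hg⟩ : ∃ g, g = ∏ j, a j := ⟨_, rfl⟩
  have hg0 : g ≠ 0 := by
    rw [hg]
    exact Finset.prod_ne_zero_iff.2 fun j _ => ha j
  have hγ : aeval f g ≠ 0 := aeval_ne hf hg0
  have hfA : f ∈ A := by
    rw [hA]
    exact Algebra.subset_adjoin ⟨0, rfl⟩
  have hpA : ∀ p : K[X], aeval f p ∈ A := by
    intro p
    have h1 : Algebra.adjoin K {f} ≤ A := Algebra.adjoin_le (Set.singleton_subset_iff.2 hfA)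
    refine h1 ?_
    rw [Algebra.adjoin_singleton_eq_range_aeval]
    exact ⟨p, rfl⟩
  have hγA : (aeval f g)⁻¹ ∈ A := by
    rw [hg, map_prod, ← Finset.prod_inv_distrib]
    refine prod_mem fun j _ => ?_
    rw [hA]
    exact Algebra.subset_adjoin ⟨j.succ, rfl⟩
  have hden : ∀ b ∈ A, ∃ (m : ℕ) (Q : K[X]), b * (aeval f g) ^ m = aeval f Q := by
    intro b hb
    rw [hA, Algebra.adjoin_range_eq_range_aeval] at hb
    obtain ⟨P, rfl⟩ := hb
    obtain ⟨m, Q, h⟩ := cv_rel a P
    rw [hg]
    exact ⟨m, Q, h L f fun j => aeval_ne hf (ha j)⟩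
  obtain ⟨d, c, hc⟩ := Pool.Agent.Y735.LB.exists_monic hz
  choose m P hP using fun i => hden (c i) (c i).2
  obtain ⟨M, hM⟩ : ∃ M, M = ∑ i ∈ Finset.range d, m i := ⟨_, rfl⟩
  have hmM : ∀ i ∈ Finset.range d, m i ≤ M * (d - i) := by
    intro i hi
    have h1 : m i ≤ M := by
      rw [hM]
      exact Finset.single_le_sum (fun _ _ => Nat.zero_le _) hi
    have h2 : 1 ≤ d - i := by
      have := Finset.mem_range.1 hi
      omega
    calc m i ≤ M * 1 := by omega
      _ ≤ M * (d - i) := Nat.mul_le_mul_left _ h2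
  let _ : Algebra K[X] L := (aeval f : K[X] →ₐ[K] L).toRingHom.toAlgebra
  have halg : ∀ p : K[X], algebraMap K[X] L p = aeval f p := fun p => rfl
  have hfaith : FaithfulSMul K[X] L := (faithfulSMul_iff_algebraMap_injective _ _).2 (by
    intro p p' h
    by_contra hne
    refine aeval_ne hf (sub_ne_zero.2 hne) ?_
    rw [map_sub, ← halg, ← halg, h, sub_self])
  have hfrac : IsFractionRing K[X] L := IsFractionRing.of_field _ _ fun z => by
    have h1 : z ∈ K⟮f⟯ := by rw [htop]; exact IntermediateField.mem_top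
    rw [IntermediateField.mem_adjoin_simple_iff] at h1
    exact h1
  have hint : IsIntegral K[X] ((aeval f g) ^ M * z) := by
    refine Pool.Agent.Y735.LB.isIntegral_of_monic (N := d)
      (fun i => P i * g ^ (M * (d - i) - m i)) ?_
    have h1 : ((aeval f g) ^ M * z) ^ d + ∑ i ∈ Finset.range d,
        algebraMap K[X] L (P i * g ^ (M * (d - i) - m i)) * ((aeval f g) ^ M * z) ^ i =
        (aeval f g) ^ (M * d) * (z ^ d + ∑ i ∈ Finset.range d, algebraMap A L (c i) * z ^ i) := by
      rw [mul_add, Finset.mul_sum, mul_pow, ← pow_mul]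
      congr 1
      refine Finset.sum_congr rfl fun i hi => ?_
      rw [halg, map_mul, map_pow, ← hP i]
      have h2 : (aeval f g) ^ m i * (aeval f g) ^ (M * (d - i) - m i) =
          (aeval f g) ^ (M * (d - i)) := by
        rw [← pow_add]
        congr 1
        have := hmM i hi
        omega
      have h3 : (aeval f g) ^ (M * (d - i)) * (aeval f g) ^ (M * i) =
          (aeval f g) ^ (M * d) := by
        rw [← pow_add, ← mul_add]
        congr 2
        have := Finset.mem_range.1 hi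
        omega
      have h4 : algebraMap A L (c i) = (c i : L) := rfl
      rw [h4, mul_pow, ← pow_mul]
      calc (c i : L) * (aeval f g) ^ m i * (aeval f g) ^ (M * (d - i) - m i) *
            ((aeval f g) ^ (M * i) * z ^ i)
          = ((aeval f g) ^ m i * (aeval f g) ^ (M * (d - i) - m i)) * (aeval f g) ^ (M * i) *
            ((c i : L) * z ^ i) := by ring
        _ = _ := by rw [h2, h3]
    rw [h1, hc, mul_zero]
  obtain ⟨Q, hQ⟩ := IsIntegrallyClosed.isIntegral_iff.1 hint
  rw [halg] at hQ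
  have h1 : z = ((aeval f g)⁻¹) ^ M * aeval f Q := by
    rw [hQ, ← mul_assoc, ← mul_pow, inv_mul_cancel₀ hγ, one_pow, one_mul]
  rw [h1]
  exact mul_mem (pow_mem hγA _) (hpA Q)

end Pool.Agent.N111.GJ
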