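import Pool.Agent.N111.GI.Pts
import Pool.Agent.N111.GI.Str
import Pool.Agent.Y735.LE.TopF

/-!
Finite correspondences from normal affine varieties to the complements of generic hypersurfaces.
-/

set_option autoImplicit false
set_option linter.overlappingInstances false

open FF

namespace Pool.Agent.N111.GJ

open Pool.Agent.TH145.MG (DimLE)

/-- A generic affine pair over `K`, generic over its subfield `k`. It defines the variety `U`, the
complement of the hypersurfaces `F b = 0`, `b ∉ C`, in the intersection of a closed subset `V` of
a projective space, defined over the algebraic closure of `k` in `K`, of dimension at most `m`, and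
of the hypersurfaces `F c = 0`, `c ∈ C`. Here `F a` is a form of degree `d a`, and the ratios of the
coefficients of `F a` to one of them are, for all `a` together, algebraically independent over `k`.
At least one of the hypersurfaces `F b = 0`, `b ∉ C`, is not empty, so `U` is affine. -/
structure GenericPair (k K : Type) [Field k] [Field K] [Algebra k K] where
  /-- the dimension of the projective space -/
  n : ℕ
  /-- a bound for the dimension of the closed subset -/
  m : ℕ
  /-- the equations of the closed subset -/
  V : Set (MvPolynomial (Fin (n + 1)) (algebraicClosure k K))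
  V_form : ∀ f ∈ V, ∃ e, f.IsHomogeneous e
  V_dim : DimLE (algebraicClosure k K) V m
  /-- the indices of the hypersurfaces -/
  A : Type
  [fin : Fintype A]
  /-- the indices of the hypersurfaces that give equations -/
  C : Finset A
  /-- the degrees -/
  d : A → ℕ
  /-- the generic forms -/
  F : A → MvPolynomial (Fin (n + 1)) K
  F_form : ∀ a, (F a).IsHomogeneous (d a)
  I₀ : A → Fin (n + 1) →₀ ℕ
  coeff_ne : ∀ a, (F a).coeff (I₀ a) ≠ 0
  generic : AlgebraicIndependent k
    fun p : (a : A) × {I : Fin (n + 1) →₀ ℕ // I.degree = d a ∧ I ≠ I₀ a} =>
      (F p.1).coeff p.2.1 / (F p.1).coeff (I₀ p.1)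
  affine : ∃ b, b ∉ C ∧ 0 < d b

attribute [instance] GenericPair.fin

namespace GenericPair

variable {k K : Type} [Field k] [Field K] [Algebra k K] (X : GenericPair k K)

/-- the sum of the degrees and of the number of the equations -/
def size : ℕ := ∑ a, X.d a + X.C.card

/-- The point of projective space with homogeneous coordinates `x` in an extension of `K` lies on
`U`. -/
structure Point {E : Type} [Field E] [Algebra K E] (x : Fin (X.n + 1) → E) : Prop where
  ne : x ≠ 0
  mem_V : ∀ f ∈ X.V, MvPolynomial.aeval x (f.map (algebraMap (algebraicClosure k K) K)) = 0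
  mem_C : ∀ c ∈ X.C, MvPolynomial.aeval x (X.F c) = 0
  notMem : ∀ b, b ∉ X.C → MvPolynomial.aeval x (X.F b) ≠ 0

/-- The value at the point `x` of the function `x ^ I / F b` on `U`, where `|I| = d b`. -/
noncomputable def mon {E : Type} [Field E] [Algebra K E] (x : Fin (X.n + 1) → E) (b : X.A)
    (I : Fin (X.n + 1) →₀ ℕ) : E := (∏ i, x i ^ I i) / MvPolynomial.aeval x (X.F b)

end GenericPair

/-- A finite correspondence `M ← W → U`, where `M` is the affine variety over `K` with function field
`L` and coordinates `u`: the function field `L'` of `W` is a finite extension of `L`, `W → U` is given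
by a point `x` of `U` with coordinates in `L'`, and `W → M` is finite: the values at `x` of the
functions `x ^ I / F b`, which are the affine coordinates on `U`, are integral over the ring of
functions on `M`. So `W` is, for each value of `M`, a multi-valued map with `[L' : L]` values. -/
structure Corr (k K : Type) [Field k] [Field K] [Algebra k K] {L : Type} [Field L] [Algebra K L]
    {N : ℕ} (u : Fin N → L) where
  /-- the target -/
  X : GenericPair k K
  /-- the function field of `W` -/
  L' : Type
  [field : Field L']
  [algK : Algebra K L']
  [algL : Algebra L L']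
  [tower : IsScalarTower K L L']
  [fd : FiniteDimensional L L']
  /-- the point -/
  x : Fin (X.n + 1) → L'
  pt : X.Point x
  integral : ∀ (b : X.A) (I : Fin (X.n + 1) →₀ ℕ), b ∉ X.C → I.degree = X.d b →
    IsIntegral (Algebra.adjoin K (Set.range u)) (X.mon x b I)

attribute [instance] Corr.field Corr.algK Corr.algL Corr.tower Corr.fd

namespace Corr

variable {k K : Type} [Field k] [Field K] [Algebra k K] {L : Type} [Field L] [Algebra K L]
    {N : ℕ} {u : Fin N → L} (W : Corr k K u)

/-- the degree of `W → M` -/
noncomputable def deg : ℕ := Module.finrank L W.L'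

/-- the coordinate functions of `U` on `W` -/
def mons : Set W.L' := {y | ∃ (b : W.X.A) (I : Fin (W.X.n + 1) →₀ ℕ), b ∉ W.X.C ∧
  I.degree = W.X.d b ∧ y = W.X.mon W.x b I}

/-- The ring of functions on `W`, the closure of the graph of the multi-valued map in the product
of `M` and `U`. -/
def ring : Subalgebra K W.L' :=
  Algebra.adjoin K (Set.range (fun j => algebraMap L W.L' (u j)) ∪ W.mons)

/-- The point `φ` of `W`, with values in a field `E`, lies over the point of `M` with the coordinates
`z`. -/
def Over {E : Type} [Field E] [Algebra K E] (φ : W.ring →ₐ[K] E) (z : Fin N → E) : Prop :=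
  ∀ (j : Fin N) (y : W.ring), (y : W.L') = algebraMap L W.L' (u j) → φ y = z j

/-- The values of the coordinate functions of `U` at the point `φ` of `W`. -/
def values {E : Type} [Field E] [Algebra K E] (φ : W.ring →ₐ[K] E) : Set E :=
  {v | ∃ y : W.ring, (y : W.L') ∈ W.mons ∧ v = φ y}

end Corr

/-- `z` is the generic point of a closed subvariety `Z`, of dimension `w`, with function field `E`, of
the affine variety `M` with coordinates `u`. -/
structure IsSub (K : Type) [Field K] {L : Type} [Field L] [Algebra K L] {N : ℕ} (u : Fin N → L)
    {E : Type} [Field E] [Algebra K E] (z : Fin N → E) (w : ℕ) : Prop where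
  rel : ∀ P : MvPolynomial (Fin N) K, MvPolynomial.aeval u P = 0 → MvPolynomial.aeval z P = 0
  gen : IntermediateField.adjoin K (Set.range z) = ⊤
  dim : Algebra.trdeg K E = w

section

variable {k K : Type} [Field k] [Field K] [Algebra k K] {L : Type} [Field L] [Algebra K L]
    {N : ℕ} {u : Fin N → L}

/-- The correspondence is constant on `Z`: all points of `W` over the generic point of `Z` have
values in `K`. -/
def Corr.ConstantOn (W : Corr k K u) {E : Type} [Field E] [Algebra K E] (z : Fin N → E) : Prop :=
  ∀ φ : W.ring →ₐ[K] AlgebraicClosure E, W.Over φ (fun j => algebraMap E _ (z j)) →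
    ∀ v ∈ W.values φ, v ∈ Set.range (algebraMap K (AlgebraicClosure E))

/-- The correspondence is generically finite on `Z`: there is a point of `W` over the generic point
of `Z` such that the functions on `Z` are algebraic over the field generated by its values. -/
def Corr.GenericallyFiniteOn (W : Corr k K u) {E : Type} [Field E] [Algebra K E] (z : Fin N → E) :
    Prop :=
  ∃ φ : W.ring →ₐ[K] AlgebraicClosure E, W.Over φ (fun j => algebraMap E _ (z j)) ∧
    ∀ j, IsAlgebraic (IntermediateField.adjoin K (W.values φ)) (algebraMap E (AlgebraicClosure E) (z j))

/-- The fibres of `W → M` over the points of `M` with coordinates in `K` have at most `r` points. -/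
def Corr.FibresLE (W : Corr k K u) (r : ℕ) : Prop :=
  ∀ s : Fin N → K, {φ : W.ring →ₐ[K] K | W.Over φ s}.encard ≤ r

/-- `W → U` is quasi-finite: only finitely many points of `W` over `K` have given values. -/
def Corr.QuasiFinite (W : Corr k K u) : Prop :=
  ∀ c : W.ring → K, {φ : W.ring →ₐ[K] K | ∀ y : W.ring, (y : W.L') ∈ W.mons → φ y = c y}.Finite

end

/-- The points of degree at most `e` of the affine variety with coordinates `u` that are integral over
the ring `R`: points with coordinates that are integral over `R`, in some extension of degree at
most `e` of the field of fractions of `R`. -/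
def IntPts {K L : Type} [Field K] [Field L] [Algebra K L] {N : ℕ} (u : Fin N → L) (e : ℕ)
    (R : Subring K) : Set (Fin N → K) :=
  {s | (∀ P : MvPolynomial (Fin N) K, MvPolynomial.aeval u P = 0 → MvPolynomial.eval s P = 0) ∧
    (∀ j, IsIntegral R (s j)) ∧ ∃ F : IntermediateField (Subfield.closure (R : Set K)) K,
      FiniteDimensional (Subfield.closure (R : Set K)) F ∧
      Module.finrank (Subfield.closure (R : Set K)) F ≤ e ∧ ∀ j, s j ∈ F}

end Pool.Agent.N111.GJ
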