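import Pool.Agent.N111.GJ.Gt

/-!
Integral points are not dense in the subvarieties on which a correspondence is not constant.
-/

set_option autoImplicit false
set_option linter.overlappingInstances false
set_option linter.unusedSectionVars false
set_option maxHeartbeats 1000000

open FF IntermediateField LinearAlgebra.Projectivization

namespace Pool.Agent.N111.GJ

open Pool.Agent.TH466.QG (Sp exists_den)
open Pool.Agent.N111.GI (spread_pts sp_val kT)

section

variable {k K : Type} [Field k] [Field K] [IsAlgClosed K] [CharZero K] [Algebra k K] {L : Type}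
    [Field L] [Algebra K L] {N : ℕ} {u : Fin N → L}

omit [IsAlgClosed K] [CharZero K] in
/-- integrality of values -/
theorem integral_value {R : Subring K} {s : Fin N → K} (hs : ∀ j, IsIntegral R (s j)) {a : K}
    {d : ℕ} {q : ℕ → MvPolynomial (Fin N) K}
    (hq : ∀ i ∈ Finset.range d, ∀ c ∈ (q i).coeffs, c ∈ R)
    (h : a ^ d + ∑ i ∈ Finset.range d, MvPolynomial.eval s (q i) * a ^ i = 0) :
    IsIntegral R a := by
  classical
  have h1 : ∀ i ∈ Finset.range d, MvPolynomial.eval s (q i) ∈ integralClosure R K := by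
    intro i hi
    rw [MvPolynomial.eval_eq]
    refine sum_mem fun I hI => mul_mem ?_ (prod_mem fun j _ => pow_mem (hs j) _)
    have h2 := hq i hi _ (MvPolynomial.coeff_mem_coeffs _ (MvPolynomial.mem_support_iff.1 hI))
    exact (integralClosure R K).algebraMap_mem (⟨_, h2⟩ : R)
  have h2 : IsIntegral (integralClosure R K) a := by
    refine Pool.Agent.Y735.LB.isIntegral_of_monic (N := d)
      (fun i => if hi : i ∈ Finset.range d then ⟨_, h1 i hi⟩ else 0) ?_
    rw [← h]
    congr 1
    refine Finset.sum_congr rfl fun i hi => ?_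
    rw [dif_pos hi]
    rfl
  exact isIntegral_trans a h2

/-- the field generated by the coordinates of a point of bounded degree -/
theorem field_of_pt {T : Finset K} {R : Subring K}
    (hR : R ≤ Subring.closure ((algebraicClosure k K : Set K) ∪ (T : Set K))) {T₂ : Finset K}
    (hT : T ⊆ T₂) {s : Fin N → K} {e : ℕ}
    (hs : ∃ F : IntermediateField (Subfield.closure (R : Set K)) K,
      FiniteDimensional (Subfield.closure (R : Set K)) F ∧
      Module.finrank (Subfield.closure (R : Set K)) F ≤ e ∧ ∀ j, s j ∈ F) :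
    FiniteDimensional (kT k T₂) (adjoin (kT k T₂) (Set.range s)) ∧
      Module.finrank (kT k T₂) (adjoin (kT k T₂) (Set.range s)) ≤ e := by
  classical
  obtain ⟨F, hF1, hF2, hsF⟩ := hs
  have hRf : Subfield.closure (R : Set K) ≤ (kT k T₂).toSubfield := by
    rw [Subfield.closure_le]
    refine Set.Subset.trans hR ?_
    have h1 : Subring.closure ((algebraicClosure k K : Set K) ∪ (T : Set K)) ≤
        (kT k T₂).toSubfield.toSubring := by
      rw [Subring.closure_le]
      rintro x (hx | hx)
      · exact (kT k T₂).algebraMap_mem ⟨x, hx⟩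
      · exact IntermediateField.subset_adjoin _ _ (hT hx)
    exact h1
  let _ : Algebra (Subfield.closure (R : Set K)) (kT k T₂) := RingHom.toAlgebra
    { toFun := fun s => ⟨(s : K), hRf s.2⟩
      map_one' := rfl
      map_mul' := fun a b => rfl
      map_zero' := rfl
      map_add' := fun a b => rfl }
  have hst : IsScalarTower (Subfield.closure (R : Set K)) (kT k T₂) K :=
    IsScalarTower.of_algebraMap_eq fun _ => rfl
  have hcz : CharZero (Subfield.closure (R : Set K)) :=
    charZero_of_injective_algebraMap (algebraMap ℚ (Subfield.closure (R : Set K))).injective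
  obtain ⟨h13, h14⟩ := Pool.Agent.Y735.R.finrank_adjoin_le
    (F := kT k T₂) (Set.range s) F (by
      rintro _ ⟨j, rfl⟩
      exact hsF j)
  exact ⟨h13, h14.trans hF2⟩

/-- a simple extension of a finite extension -/
theorem field_step {F₀ : IntermediateField (algebraicClosure k K) K}
    {K₁ : IntermediateField F₀ K} [FiniteDimensional F₀ K₁] {e r : ℕ}
    (he : Module.finrank F₀ K₁ ≤ e) {t : K} (ht : IsIntegral K₁ t)
    (hr : (minpoly K₁ t).natDegree ≤ r) {n : ℕ} {c : Fin (n + 1) → K}
    (hc : ∀ i, c i ∈ K₁⟮t⟯) :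
    ∃ F : IntermediateField F₀ K, FiniteDimensional F₀ F ∧ Module.finrank F₀ F ≤ r * e ∧
      ∀ j, c j ∈ F := by
  have hfd : FiniteDimensional K₁ K₁⟮t⟯ := IntermediateField.adjoin.finiteDimensional ht
  refine ⟨(K₁⟮t⟯).restrictScalars F₀, ?_, ?_, hc⟩
  · exact FiniteDimensional.trans F₀ K₁ K₁⟮t⟯
  · change Module.finrank F₀ K₁⟮t⟯ ≤ _
    rw [← Module.finrank_mul_finrank F₀ K₁ K₁⟮t⟯, mul_comm]
    refine Nat.mul_le_mul ?_ he
    rw [IntermediateField.adjoin.finrank ht]
    exact hr

/-- the integral points of bounded degree -/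
def GenericPair.pts (X : GenericPair k K) (r : ℕ) (T : Finset K) :
    Set (ℙ K (Fin (X.n + 1) → K)) :=
  {p | ∃ x : Fin (X.n + 1) → K, (∀ f ∈ X.V, MvPolynomial.aeval x f = 0) ∧
    (∀ a ∈ X.C, MvPolynomial.eval x (X.F a) = 0) ∧
    (∀ a, a ∉ X.C → MvPolynomial.eval x (X.F a) ≠ 0 ∧ ∀ j, IsIntegral
      (Subring.closure ((algebraicClosure k K : Set K) ∪ (T : Set K)))
      (x j ^ X.d a / MvPolynomial.eval x (X.F a))) ∧
    (∃ L : IntermediateField (IntermediateField.adjoin (algebraicClosure k K) (T : Set K)) K,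
      FiniteDimensional (IntermediateField.adjoin (algebraicClosure k K) (T : Set K)) L ∧
      Module.finrank (IntermediateField.adjoin (algebraicClosure k K) (T : Set K)) L ≤ r ∧
      ∀ j, x j ∈ L) ∧
    ∃ hx : x ≠ 0, p = Projectivization.mk K x hx}

theorem GenericPair.pts_finite (X : GenericPair k K) {r : ℕ} (hd : 2 * X.m + 2 * r ≤ X.size)
    (T : Finset K) : (X.pts r T).Finite :=
  Pool.Agent.Y735.LB.fin_proj_log (r := r) X.C hd X.V X.V_form X.V_dim X.F X.F_form X.I₀
    X.coeff_ne X.generic T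

/-- **Integral points are not dense in a subvariety on which a correspondence is not constant.** -/
theorem nondense {W : Corr k K u} {r : ℕ} (hr : W.FibresLE r) {E : Type} [Field E] [Algebra K E] {z : Fin N → E}
    (hgen : adjoin K (Set.range z) = ⊤) {φ : W.ring →ₐ[K] AlgebraicClosure E}
    (hφ : W.Over φ fun j => algebraMap E _ (z j)) {v : AlgebraicClosure E} (hv : v ∈ W.values φ)
    (hne : v ∉ Set.range (algebraMap K (AlgebraicClosure E))) {e : ℕ}
    (hd : 2 * W.X.m + 2 * (r * e) ≤ W.X.size) (T : Finset K) {R : Subring K}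
    (hR : R ≤ Subring.closure ((algebraicClosure k K : Set K) ∪ (T : Set K))) :
    ∃ G : MvPolynomial (Fin N) K, MvPolynomial.aeval z G ≠ 0 ∧
      ∀ s ∈ IntPts z e R, MvPolynomial.eval s G = 0 := by
  classical
  obtain ⟨E', x, j0, hE', hfd, hrk, hx0, hpt, -, -, -, hmon⟩ := exists_field hr hgen hφ
  obtain ⟨y, ⟨b, I, hb, hI, hyv⟩, rfl⟩ := hv
  have hyY : y = W.Y b I := Subtype.ext (by rw [W.Y_val hb hI, hyv])
  rw [hyY, hmon b I hb hI] at hne
  obtain ⟨v, hv⟩ : ∃ v : E', v = W.X.mon x b I := ⟨_, rfl⟩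
  rw [← hv] at hne
  have hvi : IsIntegral E v := Algebra.IsIntegral.isIntegral v
  obtain ⟨p, hp⟩ : ∃ p, p = minpoly E v := ⟨_, rfl⟩
  obtain ⟨H₁, hH₁, hG₁⟩ := exists_den hgen (S := (↑p.coeffs : Set E)) (Finset.finite_toSet _)
  choose! G hG using hG₁
  -- integrality of the coordinate functions
  have hint : ∀ (b' : W.X.A) (j : Fin (W.X.n + 1)), ∃ (d : ℕ) (q : ℕ → MvPolynomial (Fin N) K),
      b' ∉ W.X.C → (W.X.mon x b' (Finsupp.single j (W.X.d b'))) ^ d + ∑ i ∈ Finset.range d,
        algebraMap E E' (MvPolynomial.aeval z (q i)) *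
          (W.X.mon x b' (Finsupp.single j (W.X.d b'))) ^ i = 0 := by
    intro b' j
    by_cases hb' : b' ∈ W.X.C
    · exact ⟨0, fun _ => 0, fun h => absurd hb' h⟩
    have hI' : (Finsupp.single j (W.X.d b')).degree = W.X.d b' := Finsupp.degree_single _ _
    obtain ⟨p', hp', hpz, hp0⟩ := spec_int (B := W.ring) W.base_mem
      (fun j => hφ j _ rfl) (θ := W.Y b' (Finsupp.single j (W.X.d b')))
      (W.mons_int (W.Y_mem hb' hI'))
    have hq : ∀ i, ∃ q : MvPolynomial (Fin N) K, MvPolynomial.aeval z q = p'.coeff i := by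
      intro i
      have h1 := hpz i
      rw [Algebra.adjoin_range_eq_range_aeval] at h1
      exact h1
    choose q hq using hq
    refine ⟨p'.natDegree, q, fun _ => ?_⟩
    apply (algebraMap E' (AlgebraicClosure E)).injective
    rw [map_zero, ← hp0, Polynomial.aeval_eq_sum_range, Finset.sum_range_succ,
      hp'.coeff_natDegree, one_smul, add_comm (∑ i ∈ _, _), map_add, map_pow, map_sum,
      hmon b' _ hb' hI']
    congr 1
    refine Finset.sum_congr rfl fun i _ => ?_
    rw [map_mul, map_pow, hq, ← IsScalarTower.algebraMap_apply, Algebra.smul_def]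
    rfl
  choose dI q hq using hint
  obtain ⟨T₁, hT₁⟩ : ∃ T₁ : Set K, T₁ = ⋃ b', ⋃ j, ⋃ i ∈ Finset.range (dI b' j),
      (↑(q b' j i).coeffs : Set K) := ⟨_, rfl⟩
  have hT₁f : T₁.Finite := by
    rw [hT₁]
    exact Set.finite_iUnion fun b' => Set.finite_iUnion fun j =>
      (Finset.finite_toSet _).biUnion fun i _ => Finset.finite_toSet _
  obtain ⟨H, hH, T₀, hsp⟩ := spread_pts (K := K) (L := E) (M := E') hgen
    (Θ := {(algebraMap E E' (MvPolynomial.aeval z H₁))⁻¹} ∪
      Set.range fun b' => (MvPolynomial.aeval x (W.X.F b'))⁻¹)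
    ((Set.finite_singleton _).union (Set.finite_range _)) (J := Unit) (Kj := fun _ => E')
    (fun _ => AlgHom.id E E') (Θ' := fun _ => Set.range x) (fun _ => Set.finite_range _)
  obtain ⟨T₂, hT₂⟩ : ∃ T₂ : Finset K, T₂ = T ∪ (T₀ ∪ hT₁f.toFinset) := ⟨_, rfl⟩
  obtain ⟨PP, hPP⟩ : ∃ PP, PP = W.X.pts (r * e) T₂ := ⟨_, rfl⟩
  have hfin := W.X.pts_finite hd T₂
  rw [← hPP] at hfin
  -- the possible values
  have hDf : ((fun p : ℙ K (Fin (W.X.n + 1) → K) =>
      W.X.mon (fun i => p.rep i / p.rep j0) b I) '' PP).Finite := hfin.image _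
  obtain ⟨D, hD⟩ : ∃ D : Finset K, D = hDf.toFinset := ⟨_, rfl⟩
  obtain ⟨G', hG'd⟩ : ∃ G' : ℕ → MvPolynomial (Fin N) K,
    G' = fun i => if p.coeff i = 0 then 0 else G (p.coeff i) := ⟨_, rfl⟩
  have hG' : ∀ i, p.coeff i * MvPolynomial.aeval z H₁ = MvPolynomial.aeval z (G' i) := by
    intro i
    rw [hG'd]
    change _ = MvPolynomial.aeval z (if p.coeff i = 0 then 0 else G (p.coeff i))
    split_ifs with h0
    · rw [h0, zero_mul, map_zero]
    · exact hG _ (Polynomial.coeff_mem_coeffs h0)
  refine ⟨H * H₁ * ∏ a ∈ D, ∑ i ∈ Finset.range (p.natDegree + 1),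
    MvPolynomial.C (a ^ i) * G' i, ?_, fun s hs => ?_⟩
  · rw [map_mul, map_mul, map_prod]
    refine mul_ne_zero (mul_ne_zero hH hH₁) (Finset.prod_ne_zero_iff.2 fun a _ h0 => ?_)
    rw [map_sum] at h0
    have h1 : ∑ i ∈ Finset.range (p.natDegree + 1), MvPolynomial.aeval z
        (MvPolynomial.C (a ^ i) * G' i) =
        MvPolynomial.aeval z H₁ * Polynomial.eval (algebraMap K E a) p := by
      rw [Polynomial.eval_eq_sum_range, Finset.mul_sum]
      refine Finset.sum_congr rfl fun i _ => ?_
      rw [map_mul, MvPolynomial.aeval_C, ← hG' i, map_pow]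
      ring
    rw [h1] at h0
    have h2 : Polynomial.IsRoot (minpoly E v) (algebraMap K E a) := by
      rw [← hp]
      exact (mul_eq_zero.1 h0).resolve_left hH₁
    have h3 := minpoly.root hvi h2
    apply hne
    refine ⟨a, ?_⟩
    rw [← h3]
    rfl
  · obtain ⟨hsrel, hsint, hsF⟩ := hs
    rw [map_mul, map_mul, map_prod]
    by_cases hsH : MvPolynomial.eval s H = 0
    · rw [hsH, zero_mul, zero_mul]
    by_cases hsH₁ : MvPolynomial.eval s H₁ = 0
    · rw [hsH₁, mul_zero, zero_mul]
    obtain ⟨S, hSx, hSΘ, hSK⟩ := hsp s hsrel hsH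
    have hTT₂ : T ⊆ T₂ := by
      rw [hT₂]
      exact Finset.subset_union_left
    obtain ⟨hK1, hK2⟩ := field_of_pt hR hTT₂ hsF
    obtain ⟨t, ht, htd, hc⟩ := hSK (adjoin (kT k T₂) (Set.range s))
      (fun c hc => by
        have h1 : c ∈ T₂ := by
          rw [hT₂]
          exact Finset.mem_union_right _ (Finset.mem_union_left _ hc)
        exact ⟨⟨c, (adjoin (kT k T₂) (Set.range s)).algebraMap_mem
          ⟨c, subset_adjoin _ _ (Finset.mem_coe.2 h1)⟩⟩, rfl⟩)
      (fun i => ⟨⟨s i, subset_adjoin _ _ ⟨i, rfl⟩⟩, rfl⟩) ()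
    choose c hcK hSc using fun i => hc (x i) ⟨i, rfl⟩
    change ∀ i, S.T (x i) (c i) at hSc
    obtain ⟨F, hF1, hF2, hcF⟩ := field_step hK2 ht (htd.trans hrk) hcK
    have hc1 : c j0 = 1 := by
      have h1 := hSc j0
      rw [hx0] at h1
      exact S.ext h1 S.one
    have hval : ∀ P : MvPolynomial (Fin (W.X.n + 1)) K,
        S.T (MvPolynomial.aeval x P) (MvPolynomial.eval c P) := by
      intro P
      have h1 := sp_val S hSc P
      rwa [MvPolynomial.aeval_eq_eval] at h1
    have hvalz : ∀ P : MvPolynomial (Fin N) K,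
        S.T (algebraMap E E' (MvPolynomial.aeval z P)) (MvPolynomial.eval s P) := by
      intro P
      have h1 := sp_val S hSx P
      rw [MvPolynomial.aeval_eq_eval] at h1
      have h2 : MvPolynomial.aeval (fun i => algebraMap E E' (z i)) P =
          algebraMap E E' (MvPolynomial.aeval z P) :=
        MvPolynomial.aeval_algebraMap_apply E' z P
      rw [h2] at h1
      exact h1
    have hFne : ∀ b', b' ∉ W.X.C → MvPolynomial.eval c (W.X.F b') ≠ 0 := fun b' hb' =>
      S.ne_zero (hval _) (hSΘ _ (Or.inr ⟨b', rfl⟩)) (hpt.notMem b' hb')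
    have hFinv : ∀ b', b' ∉ W.X.C → S.T (MvPolynomial.aeval x (W.X.F b'))⁻¹
        (MvPolynomial.eval c (W.X.F b'))⁻¹ := fun b' hb' =>
      S.inv (hval _) (hSΘ _ (Or.inr ⟨b', rfl⟩)) (hpt.notMem b' hb')
    have hmonv : ∀ b' I', b' ∉ W.X.C → S.T (W.X.mon x b' I') (W.X.mon c b' I') := by
      intro b' I' hb'
      unfold GenericPair.mon
      rw [div_eq_mul_inv, div_eq_mul_inv]
      refine S.mul (S.prod _ fun i _ => S.pow (hSc i) _) ?_
      rw [MvPolynomial.aeval_eq_eval]
      exact hFinv b' hb'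
    have hc0 : c ≠ 0 := by
      intro h
      rw [h] at hc1
      exact zero_ne_one hc1
    -- the point belongs to the finite set
    have hmem : Projectivization.mk K c hc0 ∈ PP := by
      rw [hPP]
      refine ⟨c, fun f hf => ?_, fun a ha => ?_, fun a ha => ⟨hFne a ha, fun j => ?_⟩,
        ⟨F, hF1, hF2, hcF⟩, hc0, rfl⟩
      · have h1 := S.eq_zero (hval _) (hpt.mem_V f hf)
        rwa [MvPolynomial.eval_map, ← MvPolynomial.aeval_def] at h1
      · exact S.eq_zero (hval _) (hpt.mem_C a ha)
      · have h1 := S.add (S.pow (hmonv a (Finsupp.single j (W.X.d a)) ha) (dI a j))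
          (S.sum (Finset.range (dI a j)) (fun i _ => S.mul (hvalz (q a j i))
            (S.pow (hmonv a (Finsupp.single j (W.X.d a)) ha) i)))
        have h2 := S.eq_zero h1 (hq a j ha)
        have h3 : W.X.mon c a (Finsupp.single j (W.X.d a)) =
            c j ^ W.X.d a / MvPolynomial.eval c (W.X.F a) := by
          unfold GenericPair.mon
          rw [prod_single, MvPolynomial.aeval_eq_eval]
        rw [← h3]
        refine integral_value (s := s) (fun j => ?_) (fun i hi e he => ?_) h2
        · refine Pool.Agent.Y735.LB.integral_asc (RingHom.id K) (fun r hr => ?_) (hsint j)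
          exact Subring.closure_mono (Set.union_subset_union_right _
            (Finset.coe_subset.2 hTT₂)) (hR hr)
        · refine Subring.subset_closure (Or.inr ?_)
          rw [hT₂]
          refine Finset.mem_coe.2 (Finset.mem_union_right _ (Finset.mem_union_right _
            (hT₁f.mem_toFinset.2 ?_)))
          rw [hT₁]
          exact Set.mem_iUnion.2 ⟨a, Set.mem_iUnion.2 ⟨j, Set.mem_biUnion hi he⟩⟩
    have hrep : (fun i => (Projectivization.mk K c hc0).rep i /
        (Projectivization.mk K c hc0).rep j0) = c := by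
      obtain ⟨a, ha⟩ := Projectivization.exists_smul_eq_mk_rep K c hc0
      funext i
      rw [← ha]
      simp only [Pi.smul_apply, Units.smul_def, smul_eq_mul]
      rw [mul_div_mul_left _ _ a.ne_zero, hc1, div_one]
    have hDm : W.X.mon c b I ∈ D := by
      rw [hD, Set.Finite.mem_toFinset]
      refine ⟨_, hmem, ?_⟩
      change W.X.mon (fun i => (Projectivization.mk K c hc0).rep i /
        (Projectivization.mk K c hc0).rep j0) b I = _
      rw [hrep]
    rw [Finset.prod_eq_zero hDm, mul_zero]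
    rw [map_sum]
    have hSv : S.T v (W.X.mon c b I) := by
      rw [hv]
      exact hmonv b I hb
    have hSp : ∀ i, S.T (algebraMap E E' (p.coeff i))
        (MvPolynomial.eval s (G' i) * (MvPolynomial.eval s H₁)⁻¹) := by
      intro i
      have h1 : algebraMap E E' (p.coeff i) = algebraMap E E' (MvPolynomial.aeval z (G' i)) *
          (algebraMap E E' (MvPolynomial.aeval z H₁))⁻¹ := by
        rw [← hG' i, map_mul]
        have h2 : algebraMap E E' (MvPolynomial.aeval z H₁) ≠ 0 := by
          rw [Ne, map_eq_zero]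
          exact hH₁
        field_simp
      rw [h1]
      refine S.mul (hvalz _) (S.inv (hvalz _) (hSΘ _ (Or.inl rfl)) ?_)
      rw [Ne, map_eq_zero]
      exact hH₁
    have h1 : ∑ i ∈ Finset.range (p.natDegree + 1), algebraMap E E' (p.coeff i) * v ^ i = 0 := by
      have h2 := minpoly.aeval E v
      rw [← hp, Polynomial.aeval_eq_sum_range] at h2
      rw [← h2]
      exact Finset.sum_congr rfl fun i _ => (Algebra.smul_def _ _).symm
    have h2 := S.eq_zero (S.sum (Finset.range (p.natDegree + 1))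
      (fun i _ => S.mul (hSp i) (S.pow hSv i))) h1
    have h3 : ∑ i ∈ Finset.range (p.natDegree + 1), MvPolynomial.eval s
        (MvPolynomial.C ((W.X.mon c b I) ^ i) * G' i) = (MvPolynomial.eval s H₁) *
        ∑ i ∈ Finset.range (p.natDegree + 1),
          MvPolynomial.eval s (G' i) * (MvPolynomial.eval s H₁)⁻¹ * (W.X.mon c b I) ^ i := by
      rw [Finset.mul_sum]
      refine Finset.sum_congr rfl fun i _ => ?_
      rw [map_mul, MvPolynomial.eval_C]
      field_simp
    rw [h3, h2, mul_zero]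

end

end Pool.Agent.N111.GJ
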