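import Pool.Agent.N111.GJ.Qc
import Pool.Agent.W602.GT.NG

/-!
Correspondences from open subsets of the affine line, given by lines that meet the boundary in few
points.
-/

set_option autoImplicit false
set_option linter.overlappingInstances false
set_option linter.unusedSectionVars false
set_option maxHeartbeats 1000000

open IntermediateField Polynomial

namespace Pool.Agent.N111.GJ

open Pool.Agent.Y735 (rho eval_rho rho_deg)
open Pool.Agent.Y735.LB (rho_top int_inv mono_int exists_monic isIntegral_of_monic)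

theorem mem_range_of_alg {K E : Type} [Field K] [IsAlgClosed K] [Field E] [Algebra K E] {w : E}
    (h : IsAlgebraic K w) : ∃ c, algebraMap K E c = w := by
  have h1 : Algebra.IsAlgebraic K K⟮w⟯ :=
    IntermediateField.isAlgebraic_adjoin_simple h.isIntegral
  have hbij : Function.Bijective (algebraMap K K⟮w⟯) :=
    IsAlgClosed.algebraMap_bijective_of_isIntegral
  obtain ⟨c, hc⟩ := hbij.2 (AdjoinSimple.gen K w)
  refine ⟨c, ?_⟩
  have h2 := congrArg (algebraMap K⟮w⟯ E) hc
  rw [← IsScalarTower.algebraMap_apply] at h2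
  exact h2

theorem aeval_rho {K E : Type} [Field K] [Field E] [Algebra K E] {n : ℕ} (x y : Fin (n + 1) → K)
    (v : E) (P : MvPolynomial (Fin (n + 1)) K) : aeval v (rho x y P) =
      MvPolynomial.aeval (fun i => algebraMap K E (x i) * v + algebraMap K E (y i)) P := by
  have h1 : (aeval v : K[X] →ₐ[K] E).comp (rho x y) =
      MvPolynomial.aeval (fun i => algebraMap K E (x i) * v + algebraMap K E (y i)) := by
    apply MvPolynomial.algHom_ext
    intro i
    rw [AlgHom.comp_apply, Pool.Agent.Y735.rho_X, MvPolynomial.aeval_X, map_add, map_mul,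
      aeval_C, aeval_X, aeval_C]
  exact DFunLike.congr_fun h1 P

section

variable {k K : Type} [Field k] [Field K] [IsAlgClosed K] [CharZero K] [Algebra k K]

theorem exists_gen {F : Type} [Field F] [Algebra K F] (U : F) :
    ∃ (L : IntermediateField K F) (σ : L), (σ : F) = U ∧ K⟮σ⟯ = ⊤ := by
  refine ⟨K⟮U⟯, AdjoinSimple.gen K U, rfl, ?_⟩
  apply IntermediateField.lift_injective K⟮U⟯
  rw [IntermediateField.lift_top, IntermediateField.lift_adjoin]
  simp

/-- **Correspondences given by lines.** -/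
theorem line_corr {F : Type} [Field F] [Algebra K F] {v : F} (hv : Transcendental K v)
    (hvtop : K⟮v⟯ = ⊤) (X : GenericPair k K) (hV : X.V = ∅) {x y : Fin (X.n + 1) → K}
    (hli : LinearIndependent K ![x, y])
    (hC : ∀ c ∈ X.C, ∀ t : K, MvPolynomial.eval (t • x + y) (X.F c) = 0)
    (hb : ∀ b, b ∉ X.C → MvPolynomial.eval x (X.F b) ≠ 0) {t : Finset K}
    (ht : ∀ b, b ∉ X.C → ∀ β, MvPolynomial.eval (β • x + y) (X.F b) = 0 → β ∈ t) {r : ℕ}
    {f g : K[X]} (hf : f.natDegree ≤ r) (hg : g.natDegree ≤ r)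
    (hfg : ∃ β, g.eval β = 0 ∧ f.eval β ≠ 0) (hg0 : g ≠ 0) {q : ℕ} {a : Fin q → K[X]}
    (ha : ∀ j, a j ≠ 0)
    (hu : ∀ β ∈ t, ∃ κ : K, κ ≠ 0 ∧ (C (f.eval β) - C (g.eval β) * Polynomial.X = C κ ∨
      ∃ j, C (f.eval β) - C (g.eval β) * Polynomial.X = C κ * a j)) :
    ∃ (L : IntermediateField K F) (σ : L), Transcendental K σ ∧ K⟮σ⟯ = ⊤ ∧
      ∃ W : Corr k K (cv σ a), W.X = X ∧ W.deg ≤ r ∧ W.QuasiFinite := by
  classical
  have hgv : aeval v g ≠ 0 := aeval_ne hv hg0
  obtain ⟨U, hU⟩ : ∃ U : F, U = aeval v f / aeval v g := ⟨_, rfl⟩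
  have hUe : aeval v f - U * aeval v g = 0 := by
    rw [hU, div_mul_cancel₀ _ hgv, sub_self]
  obtain ⟨β₀, hβ₀g, hβ₀f⟩ := hfg
  have hUt : Transcendental K U := by
    intro halg
    obtain ⟨κ, hκ⟩ := mem_range_of_alg halg
    have h1 : f - C κ * g = 0 := by
      by_contra h0
      refine aeval_ne hv h0 ?_
      rw [map_sub, map_mul, aeval_C, hκ]
      exact hUe
    have h2 := congrArg (Polynomial.eval β₀) h1
    rw [eval_sub, eval_mul, hβ₀g, mul_zero, sub_zero, eval_zero] at h2
    exact hβ₀f h2
  obtain ⟨L, σ, hσU, htop⟩ := exists_gen (K := K) U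
  have hσ : Transcendental K σ := by
    intro h
    apply hUt
    have h1 : IsAlgebraic K (algebraMap L F σ) := h.algebraMap (A := F)
    rw [← hσU]
    exact h1
  -- the degree
  obtain ⟨h, hh⟩ : ∃ h : L[X], h = f.map (algebraMap K L) - C σ * g.map (algebraMap K L) :=
    ⟨_, rfl⟩
  have hhv : aeval v h = 0 := by
    rw [hh, map_sub, map_mul, aeval_map_algebraMap, aeval_map_algebraMap, aeval_C]
    change aeval v f - (σ : F) * aeval v g = 0
    rw [hσU]
    exact hUe
  have hh0 : h ≠ 0 := by
    intro h0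
    have h1 := congrArg (Polynomial.eval (algebraMap K L β₀)) h0
    rw [hh, eval_sub, eval_mul, eval_C, eval_map_algebraMap, eval_map_algebraMap,
      aeval_algebraMap_apply, aeval_algebraMap_apply, coe_aeval_eq_eval, hβ₀g, map_zero, mul_zero,
      sub_zero, eval_zero, map_eq_zero] at h1
    exact hβ₀f h1
  have hhd : h.natDegree ≤ r := by
    rw [hh]
    refine (natDegree_sub_le _ _).trans (max_le (natDegree_map_le.trans hf) ?_)
    exact (natDegree_C_mul_le _ _).trans (natDegree_map_le.trans hg)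
  have hvi : IsIntegral L v := (show IsAlgebraic L v from ⟨h, hh0, hhv⟩).isIntegral
  have hLtop : L⟮v⟯ = ⊤ := by
    rw [eq_top_iff]
    intro z _
    have h1 : z ∈ K⟮v⟯ := by rw [hvtop]; exact IntermediateField.mem_top
    have h2 : K⟮v⟯ ≤ (L⟮v⟯).restrictScalars K := by
      rw [adjoin_simple_le_iff]
      exact mem_adjoin_simple_self L v
    exact h2 h1
  have hfd : FiniteDimensional L F := by
    have h1 : FiniteDimensional L L⟮v⟯ := IntermediateField.adjoin.finiteDimensional hvi
    rw [hLtop] at h1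
    exact Module.Finite.equiv (IntermediateField.topEquiv (F := L) (E := F)).toLinearEquiv
  have hrk : Module.finrank L F ≤ r := by
    rw [← IntermediateField.finrank_top', ← hLtop, IntermediateField.adjoin.finrank hvi]
    exact (natDegree_le_natDegree (minpoly.degree_le_of_ne_zero L v hh0 hhv)).trans hhd
  -- the ring
  obtain ⟨A, hA⟩ : ∃ A, A = Algebra.adjoin K (Set.range (cv σ a)) := ⟨_, rfl⟩
  let R : Subring F := (A.map L.val).toSubring
  have hRA : ∀ z : A, ((z : L) : F) ∈ R := fun z => ⟨z, z.2, rfl⟩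
  have hKR : ∀ κ : K, algebraMap K F κ ∈ R := fun κ => (A.map L.val).algebraMap_mem κ
  have hUR : U ∈ R := ⟨σ, by rw [hA]; exact Algebra.subset_adjoin ⟨0, rfl⟩, hσU⟩
  have haU : ∀ j, aeval U (a j) ≠ 0 := fun j => aeval_ne hUt (ha j)
  have haR : ∀ j, (aeval U (a j))⁻¹ ∈ R := by
    intro j
    refine ⟨(aeval σ (a j))⁻¹, by rw [hA]; exact Algebra.subset_adjoin ⟨j.succ, rfl⟩, ?_⟩
    change ((((aeval σ (a j))⁻¹ : L)) : F) = _
    rw [IntermediateField.coe_inv]
    congr 1
    have h1 : aeval (algebraMap L F σ) (a j) = algebraMap L F (aeval σ (a j)) :=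
      aeval_algebraMap_apply F σ (a j)
    rw [← hσU]
    exact h1.symm
  have hint_of : ∀ {w : F}, IsIntegral R w → IsIntegral A w := by
    intro w hw
    obtain ⟨N, c, hc⟩ := exists_monic hw
    have h1 : ∀ i, ∃ b : A, ((b : L) : F) = c i := by
      intro i
      obtain ⟨b, hb, hb'⟩ := (c i).2
      exact ⟨⟨b, hb⟩, hb'⟩
    choose b hb using h1
    refine isIntegral_of_monic (N := N) b ?_
    rw [← hc]
    congr 1
    refine Finset.sum_congr rfl fun i _ => ?_
    congr 1
    exact hb i
  -- the inverses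
  have hinv : ∀ β ∈ t, v - algebraMap K F β ≠ 0 ∧
      IsIntegral R (v - algebraMap K F β)⁻¹ := by
    intro β hβ
    have hval : (f.map (algebraMap K F) -
        C U * g.map (algebraMap K F)).eval (algebraMap K F β) =
        aeval U (C (f.eval β) - C (g.eval β) * Polynomial.X) := by
      rw [eval_sub, eval_mul, eval_C, eval_map_algebraMap, eval_map_algebraMap,
        aeval_algebraMap_apply, aeval_algebraMap_apply, coe_aeval_eq_eval, map_sub, map_mul,
        aeval_C, aeval_C, aeval_X]
      ring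
    refine int_inv (h := f.map (algebraMap K F) -
      C U * g.map (algebraMap K F)) (fun i => ?_) (hKR β) ?_ ?_ ?_
    · rw [coeff_sub, coeff_C_mul, coeff_map, coeff_map]
      exact sub_mem (hKR _) (mul_mem hUR (hKR _))
    · rw [eval_sub, eval_mul, eval_C, eval_map_algebraMap, eval_map_algebraMap]
      exact hUe
    · rw [hval]
      obtain ⟨κ, hκ, h1 | ⟨j, h1⟩⟩ := hu β hβ
      · rw [h1, aeval_C]
        exact (_root_.map_ne_zero _).2 hκ
      · rw [h1, map_mul, aeval_C]
        exact mul_ne_zero ((_root_.map_ne_zero _).2 hκ) (haU j)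
    · rw [hval]
      obtain ⟨κ, hκ, h1 | ⟨j, h1⟩⟩ := hu β hβ
      · rw [h1, aeval_C, ← map_inv₀]
        exact hKR _
      · rw [h1, map_mul, aeval_C, mul_inv, ← map_inv₀]
        exact mul_mem (hKR _) (haR j)
  -- the point
  obtain ⟨xv, hxv⟩ : ∃ xv : Fin (X.n + 1) → F, xv = fun i =>
    algebraMap K F (x i) * v + algebraMap K F (y i) := ⟨_, rfl⟩
  have hxvP : ∀ P : MvPolynomial (Fin (X.n + 1)) K, MvPolynomial.aeval xv P =
      aeval v (rho x y P) := by
    intro P
    rw [hxv]
    exact (aeval_rho x y v P).symm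
  have hrho : ∀ b, b ∉ X.C → rho x y (X.F b) ≠ 0 := by
    intro b hb' h0
    apply hb b hb'
    rw [← rho_top x y (X.F_form b), h0, coeff_zero]
  have hxne : x ≠ 0 := hli.ne_zero 0
  have hlin : ∀ c c' : K, algebraMap K F c * v + algebraMap K F c' = 0 →
      c = 0 ∧ c' = 0 := by
    intro c c' h0
    have h1 : C c * Polynomial.X + C c' = (0 : K[X]) := by
      by_contra h1
      refine aeval_ne hv h1 ?_
      rw [map_add, map_mul, aeval_C, aeval_X, aeval_C]
      exact h0
    have h2 := congrArg (fun p => coeff p 1) h1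
    have h3 := congrArg (fun p => coeff p 0) h1
    simp at h2 h3
    exact ⟨h2, h3⟩
  have hpt : X.Point xv := by
    refine ⟨fun h0 => hxne ?_, fun f hf => ?_, fun c hc => ?_, fun b hb' => ?_⟩
    · funext i
      have h1 := congrFun h0 i
      rw [hxv] at h1
      exact (hlin _ _ h1).1
    · rw [hV] at hf
      exact absurd hf (Set.notMem_empty f)
    · rw [hxvP]
      have h1 : rho x y (X.F c) = 0 := by
        apply Polynomial.funext
        intro s
        rw [eval_rho, hC c hc s, eval_zero]
      rw [h1, map_zero]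
    · rw [hxvP]
      exact aeval_ne hv (hrho b hb')
  -- integrality
  have hmon : ∀ (b : X.A) (I : Fin (X.n + 1) →₀ ℕ), b ∉ X.C → I.degree = X.d b →
      IsIntegral R (X.mon xv b I) := by
    intro b I hb' hI
    unfold GenericPair.mon
    refine mono_int (fun j => ?_) I hI
    obtain ⟨P, hP⟩ : ∃ P, P = rho x y (X.F b) := ⟨_, rfl⟩
    have h1 : P.coeff (X.d b) = MvPolynomial.eval x (X.F b) := by
      rw [hP]
      exact rho_top x y (X.F_form b)
    have h2 : P.natDegree = X.d b := by
      refine le_antisymm (by rw [hP]; exact rho_deg x y (X.F_form b))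
        (Polynomial.le_natDegree_of_ne_zero ?_)
      rw [h1]
      exact hb b hb'
    have h3 : P.leadingCoeff = MvPolynomial.eval x (X.F b) := by
      rw [← Polynomial.coeff_natDegree, h2, h1]
    have hspl : P.Splits := IsAlgClosed.splits P
    have h4 := hspl.eq_prod_roots
    have h5 : Multiset.card P.roots = X.d b := by
      rw [← h2]
      exact hspl.natDegree_eq_card_roots.symm
    have hroot : ∀ β ∈ P.roots, β ∈ t := by
      intro β hβ
      refine ht b hb' β ?_
      have h6 := (Polynomial.mem_roots'.1 hβ).2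
      rw [Polynomial.IsRoot, hP, eval_rho] at h6
      exact h6
    have h6 : MvPolynomial.aeval xv (X.F b) =
        algebraMap K F (MvPolynomial.eval x (X.F b)) *
          (P.roots.map fun β => v - algebraMap K F β).prod := by
      rw [hxvP, ← hP]
      conv_lhs => rw [h4]
      rw [map_mul, aeval_C, map_multiset_prod, Multiset.map_map, h3]
      congr 2
      refine Multiset.map_congr rfl fun β _ => ?_
      simp
    have h9 : xv j ^ X.d b / MvPolynomial.aeval xv (X.F b) =
        (algebraMap K F (MvPolynomial.eval x (X.F b))⁻¹) *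
        (P.roots.map fun β => xv j * (v - algebraMap K F β)⁻¹).prod := by
      rw [h6, Multiset.prod_map_mul, Multiset.map_const', Multiset.prod_replicate, h5,
        Multiset.prod_map_inv, div_eq_mul_inv, mul_inv, map_inv₀]
      ring
    rw [h9]
    have hint : ∀ z ∈ R, IsIntegral R z := fun z hz =>
      isIntegral_algebraMap (R := R) (A := F) (x := ⟨z, hz⟩)
    refine IsIntegral.mul (hint _ (hKR _)) (IsIntegral.multiset_prod fun z hz => ?_)
    rw [Multiset.mem_map] at hz
    obtain ⟨β, hβ, rfl⟩ := hz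
    obtain ⟨h10, h11⟩ := hinv β (hroot β hβ)
    have h12 : xv j * (v - algebraMap K F β)⁻¹ = algebraMap K F (x j) +
        (algebraMap K F (β * x j + y j)) * (v - algebraMap K F β)⁻¹ := by
      rw [hxv]
      field_simp
      rw [map_add, map_mul]
      ring
    rw [h12]
    exact (hint _ (hKR _)).add ((hint _ (hKR _)).mul h11)
  let W : Corr k K (cv σ a) :=
    { X := X
      L' := F
      x := xv
      pt := hpt
      integral := fun b I hb' hI => by
        rw [← hA]
        exact hint_of (hmon b I hb' hI) }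
  refine ⟨L, σ, hσ, htop, W, rfl, hrk, qf_of_ne hσ ha ?_⟩
  -- the correspondence is not constant
  by_contra hcon
  push Not at hcon
  obtain ⟨b, hb', hd⟩ := X.affine
  obtain ⟨j, hj'⟩ := Function.ne_iff.1 hxne
  have hj : x j ≠ 0 := hj'
  have hFb : MvPolynomial.aeval xv (X.F b) ≠ 0 := hpt.notMem b hb'
  have hmem : ∀ i, ∃ c : K, algebraMap K F c =
      xv i ^ X.d b / MvPolynomial.aeval xv (X.F b) := by
    intro i
    have h1 := hcon (W.Y b (Finsupp.single i (X.d b))) (W.Y_mem hb' (Finsupp.degree_single _ _))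
    rw [W.Y_val hb' (Finsupp.degree_single _ _)] at h1
    obtain ⟨c, hc⟩ := h1
    refine ⟨c, ?_⟩
    rw [hc]
    change (∏ l, xv l ^ (Finsupp.single i (X.d b) : Fin (X.n + 1) →₀ ℕ) l) /
      MvPolynomial.aeval xv (X.F b) = _
    rw [prod_single]
  have hxj : xv j ≠ 0 := by
    intro h0
    rw [hxv] at h0
    exact hj (hlin _ _ h0).1
  have hκ : ∀ i, ∃ κ : K, xv i = algebraMap K F κ * xv j := by
    intro i
    have h1 : IsAlgebraic K (xv i / xv j) := by
      refine IsAlgebraic.of_pow hd ?_
      obtain ⟨c, hc⟩ := hmem i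
      obtain ⟨c', hc'⟩ := hmem j
      have h2 : (xv i / xv j) ^ X.d b = algebraMap K F (c / c') := by
        rw [map_div₀, hc, hc', div_div_div_cancel_right₀ hFb, div_pow]
      rw [h2]
      exact isAlgebraic_algebraMap _
    obtain ⟨κ, hκ⟩ := mem_range_of_alg h1
    exact ⟨κ, by rw [hκ, div_mul_cancel₀ _ hxj]⟩
  have h1 : x j • y - y j • x = 0 := by
    funext i
    obtain ⟨κ, hκi⟩ := hκ i
    rw [hxv] at hκi
    have h2 := hlin (x i - κ * x j) (y i - κ * y j) (by
      rw [map_sub, map_sub, map_mul, map_mul]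
      linear_combination hκi)
    have h3 : x i = κ * x j := sub_eq_zero.1 h2.1
    have h4 : y i = κ * y j := sub_eq_zero.1 h2.2
    simp only [Pi.sub_apply, Pi.smul_apply, smul_eq_mul, Pi.zero_apply]
    rw [h3, h4]
    ring
  rw [LinearIndependent.pair_iff] at hli
  have h2 := hli (-(y j)) (x j) (by
    rw [neg_smul, ← h1]
    abel)
  exact hj h2.2

end

end Pool.Agent.N111.GJ
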