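import Pool.Agent.N111.GJ.Spec

/-!
The fibres of correspondences.
-/

set_option autoImplicit false
set_option linter.overlappingInstances false
set_option linter.unusedSectionVars false
set_option maxHeartbeats 1000000

open IntermediateField

namespace Pool.Agent.N111.GJ

open Pool.Agent.TH466.QG (Sp)
open Pool.Agent.N111.GI (sp_pts)

theorem ess_of_adjoin {K E : Type} [Field K] [Field E] [Algebra K E] {ι : Type} [Finite ι]
    {z : ι → E} (h : adjoin K (Set.range z) = ⊤) : Algebra.EssFiniteType K E := by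
  rw [← IntermediateField.fg_top_iff]
  refine ⟨(Set.finite_range z).toFinset, ?_⟩
  rw [Set.Finite.coe_toFinset]
  exact h

/-- specializations of finitely generated fields -/
theorem exists_sp {K M : Type} [Field K] [CharZero K] [IsAlgClosed K] [Field M] [Algebra K M]
    [Algebra.EssFiniteType K M] {Θ : Set M} (hΘ : Θ.Finite) :
    ∃ S : Sp K M K, ∀ ϑ ∈ Θ, ∃ t, S.T ϑ t := by
  classical
  obtain ⟨s, hs⟩ := exists_isTranscendenceBasis K M
  obtain ⟨x, hx⟩ : ∃ x : s → M, x = (↑) := ⟨_, rfl⟩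
  rw [← hx] at hs
  let L₀ : IntermediateField K M := adjoin K (Set.range x)
  have halgL : Algebra.IsAlgebraic L₀ M := hs.isAlgebraic_field
  have hessL : Algebra.EssFiniteType L₀ M := Algebra.EssFiniteType.of_comp K L₀ M
  have hfdL : FiniteDimensional L₀ M := Algebra.finite_of_essFiniteType_of_isAlgebraic
  let x' : s → L₀ := fun i => ⟨x i, subset_adjoin _ _ ⟨i, rfl⟩⟩
  have hx'top : adjoin K (Set.range x') = ⊤ := by
    apply IntermediateField.map_injective L₀.val
    rw [← AlgHom.fieldRange_eq_map, IntermediateField.fieldRange_val,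
      IntermediateField.adjoin_map, ← Set.range_comp]
    rfl
  obtain ⟨H, hH, hsp⟩ := sp_pts (K := K) (L := L₀) (M := M) hx'top hΘ
  have hH0 : H ≠ 0 := by
    intro h
    rw [h, map_zero] at hH
    exact hH rfl
  have hrel : ∀ G : MvPolynomial s K, MvPolynomial.aeval x' G = 0 → G = 0 := by
    intro G hG
    have h1 : MvPolynomial.aeval x G = 0 := by
      have h2 : MvPolynomial.aeval x G = algebraMap L₀ M (MvPolynomial.aeval x' G) :=
        MvPolynomial.aeval_algebraMap_apply M x' G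
      rw [h2, hG, map_zero]
    exact (algebraicIndependent_iff.1 hs.1) G h1
  obtain ⟨t₀, ht₀⟩ : ∃ t₀ : s → K, MvPolynomial.eval t₀ H ≠ 0 := by
    by_contra hcon
    push Not at hcon
    exact hH0 (MvPolynomial.funext fun t => by rw [hcon t, map_zero])
  obtain ⟨S, -, hS⟩ := hsp t₀ (fun G hG => by rw [hrel G hG, map_zero]) ht₀
  exact ⟨S, hS⟩

section

variable {k K : Type} [Field k] [Field K] [Algebra k K] {L : Type} [Field L] [Algebra K L]
    {N : ℕ} {u : Fin N → L} {W : Corr k K u}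

/-- **The degree of the field of the values**, for a correspondence with small fibres. -/
theorem fib_deg [IsAlgClosed K] [CharZero K] {r : ℕ} (hr : W.FibresLE r) {E Ω : Type} [Field E]
    [Field Ω] [IsAlgClosed Ω] [Algebra K E] [Algebra K Ω] [Algebra E Ω] [IsScalarTower K E Ω]
    {z : Fin N → E} (hgen : adjoin K (Set.range z) = ⊤) {φ : W.ring →ₐ[K] Ω}
    (hφ : W.Over φ fun j => algebraMap E Ω (z j)) :
    FiniteDimensional E (adjoin E (W.values φ)) ∧
      Module.finrank E (adjoin E (W.values φ)) ≤ r := by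
  classical
  have hcE : CharZero E := charZero_of_injective_algebraMap (algebraMap K E).injective
  have hess : Algebra.EssFiniteType K E := ess_of_adjoin hgen
  obtain ⟨q, y, hy⟩ := W.enum'
  have hym : ∀ i, (y i : W.L') ∈ W.mons := by
    intro i
    have h1 : y i ∈ Set.range y := ⟨i, rfl⟩
    rw [hy] at h1
    exact h1
  have hym' : ∀ y' : W.ring, (y' : W.L') ∈ W.mons → ∃ i, y i = y' := by
    intro y' h'
    have h1 : y' ∈ {y : W.ring | (y : W.L') ∈ W.mons} := h'
    rw [← hy] at h1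
    exact h1
  have hvals : W.values φ = Set.range fun i => φ (y i) := by
    ext v
    constructor
    · rintro ⟨y', hy', rfl⟩
      obtain ⟨i, rfl⟩ := hym' y' hy'
      exact ⟨i, rfl⟩
    · rintro ⟨i, rfl⟩
      exact ⟨y i, hym i, rfl⟩
  have hfd : FiniteDimensional E (adjoin E (W.values φ)) := by
    rw [hvals]
    have hfin : Finite (Set.range fun i => φ (y i)) := (Set.finite_range _)
    refine IntermediateField.finiteDimensional_adjoin ?_
    rintro _ ⟨i, rfl⟩
    obtain ⟨p, hp, -, h0⟩ := spec_int (B := W.ring) W.base_mem (fun j => hφ j _ rfl)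
      (θ := y i) (W.mons_int (hym i))
    exact ⟨p, hp, h0⟩
  refine ⟨hfd, ?_⟩
  obtain ⟨F', hF'⟩ : ∃ F', F' = adjoin E (W.values φ) := ⟨_, rfl⟩
  rw [← hF'] at hfd ⊢
  have hmem : ∀ b, φ b ∈ F' := by
    intro b
    induction b using W.induct with
    | hu j =>
      rw [hφ j _ rfl]
      exact F'.algebraMap_mem _
    | hy y' hy' =>
      rw [hF']
      exact subset_adjoin _ _ ⟨y', hy', rfl⟩
    | hc c =>
      rw [AlgHom.commutes, IsScalarTower.algebraMap_apply K E Ω]
      exact F'.algebraMap_mem _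
    | hadd a b ha hb =>
      rw [map_add]
      exact add_mem ha hb
    | hmul a b ha hb =>
      rw [map_mul]
      exact mul_mem ha hb
  let φ' : W.ring →ₐ[K] F' := φ.codRestrict (F'.restrictScalars K).toSubalgebra hmem
  have hφ' : ∀ b, ((φ' b : F') : Ω) = φ b := fun b => rfl
  -- the conjugates
  have hιf : Finite (F' →ₐ[E] Ω) := inferInstance
  have hcard : Nat.card (F' →ₐ[E] Ω) = Module.finrank E F' := by
    rw [← AlgHom.card E F' Ω, Nat.card_eq_fintype_card]
  let M' : IntermediateField E Ω := ⨆ ψ : F' →ₐ[E] Ω, ψ.fieldRange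
  have hfr : ∀ ψ : F' →ₐ[E] Ω, FiniteDimensional E ψ.fieldRange := fun ψ =>
    LinearMap.finiteDimensional_range ψ.toLinearMap
  have hM : FiniteDimensional E M' := IntermediateField.finiteDimensional_iSup_of_finite
  have hessM : Algebra.EssFiniteType K M' := Algebra.EssFiniteType.comp K E M'
  let ψM : (F' →ₐ[E] Ω) → F' →ₐ[E] M' := fun ψ => ψ.codRestrict M'.toSubalgebra (fun t =>
    (le_iSup (fun ψ : F' →ₐ[E] Ω => ψ.fieldRange) ψ) ⟨t, rfl⟩)
  have hψM : ∀ ψ t, ((ψM ψ t : M') : Ω) = ψ t := fun ψ t => rfl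
  let φM : (F' →ₐ[E] Ω) → W.ring →ₐ[K] M' := fun ψ => ((ψM ψ).restrictScalars K).comp φ'
  have hφMu : ∀ ψ j, φM ψ ⟨_, W.base_mem j⟩ = algebraMap E M' (z j) := by
    intro ψ j
    have h1 : φ' ⟨_, W.base_mem j⟩ = algebraMap E F' (z j) := Subtype.ext (hφ j _ rfl)
    change ψM ψ (φ' ⟨_, W.base_mem j⟩) = _
    rw [h1, AlgHom.commutes]
  obtain ⟨S, hS⟩ := exists_sp (K := K) (M := M')
    (Θ := (Set.range fun j => algebraMap E M' (z j)) ∪
      ((Set.range fun p : (F' →ₐ[E] Ω) × Fin q => φM p.1 (y p.2)) ∪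
        Set.range fun p : ((F' →ₐ[E] Ω) × (F' →ₐ[E] Ω)) × Fin q =>
          (φM p.1.1 (y p.2) - φM p.1.2 (y p.2))⁻¹))
    ((Set.finite_range _).union ((Set.finite_range _).union (Set.finite_range _)))
  choose s hs using fun j => hS (algebraMap E M' (z j)) (Or.inl ⟨j, rfl⟩)
  have hT : ∀ ψ b, ∃ t, S.T (φM ψ b) t := by
    intro ψ b
    induction b using W.induct with
    | hu j =>
      rw [hφMu]
      exact ⟨_, hs j⟩
    | hy y' hy' =>
      obtain ⟨i, rfl⟩ := hym' y' hy'
      exact hS _ (Or.inr (Or.inl ⟨(ψ, i), rfl⟩))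
    | hc c =>
      rw [AlgHom.commutes]
      exact ⟨_, S.const c⟩
    | hadd a b ha hb =>
      obtain ⟨s, hs⟩ := ha
      obtain ⟨t, ht⟩ := hb
      rw [map_add]
      exact ⟨_, S.add hs ht⟩
    | hmul a b ha hb =>
      obtain ⟨s, hs⟩ := ha
      obtain ⟨t, ht⟩ := hb
      rw [map_mul]
      exact ⟨_, S.mul hs ht⟩
  choose χ hχ using fun ψ => hom_of_sp S (φM ψ) (hT ψ)
  have hover : ∀ ψ, W.Over (χ ψ) s := by
    intro ψ j b hb
    have h1 : b = ⟨_, W.base_mem j⟩ := Subtype.ext hb
    have h2 := hχ ψ b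
    rw [h1, hφMu] at h2
    rw [h1]
    exact S.ext h2 (hs j)
  have hinj : Function.Injective χ := by
    intro ψ ψ' h
    by_contra hne
    have h1 : ∃ i, ψ (φ' (y i)) ≠ ψ' (φ' (y i)) := by
      by_contra hcon
      push Not at hcon
      apply hne
      refine IntermediateField.algHom_ext_of_eq_adjoin E hF' fun t ht => ?_
      have ht' := ht
      rw [hvals] at ht'
      obtain ⟨i, rfl⟩ := ht'
      exact hcon i
    obtain ⟨i, hi⟩ := h1
    have h2 : φM ψ (y i) - φM ψ' (y i) ≠ 0 := by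
      intro h0
      apply hi
      have h3 := congrArg (fun t : M' => (t : Ω)) (sub_eq_zero.1 h0)
      exact h3
    have h3 := S.sub (hχ ψ (y i)) (hχ ψ' (y i))
    rw [h, sub_self] at h3
    exact S.ne_zero h3 (hS _ (Or.inr (Or.inr ⟨((ψ, ψ'), i), rfl⟩))) h2 rfl
  have h1 : (Set.range χ).encard ≤ r := by
    refine (Set.encard_le_encard ?_).trans (hr s)
    rintro _ ⟨ψ, rfl⟩
    exact hover ψ
  have h2 : (Set.range χ).encard = Nat.card (F' →ₐ[E] Ω) := by
    rw [← Set.image_univ, hinj.encard_image, Set.encard_univ, ENat.card_eq_coe_natCard]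
  rw [h2, hcard] at h1
  exact_mod_cast h1

/-- the equation of an integral element over a normal ring -/
theorem norm_eq (hnorm : ∀ z : L, IsIntegral (Algebra.adjoin K (Set.range u)) z →
      z ∈ Algebra.adjoin K (Set.range u)) {θ : W.ring}
    (hθ : IsIntegral (Algebra.adjoin K (Set.range u)) (θ : W.L')) :
    ∃ (d : ℕ) (P : ℕ → MvPolynomial (Fin N) K), d ≤ W.deg ∧
      θ ^ d + ∑ i ∈ Finset.range d, MvPolynomial.aeval W.uR (P i) * θ ^ i = 0 := by
  classical
  have hθL : IsIntegral L (θ : W.L') := Algebra.IsIntegral.isIntegral _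
  have hco : ∀ i, ∃ P : MvPolynomial (Fin N) K,
      MvPolynomial.aeval u P = (minpoly L (θ : W.L')).coeff i := by
    intro i
    have h1 : (minpoly L (θ : W.L')).coeff i ∈ Algebra.adjoin K (Set.range u) := by
      obtain ⟨p, hp, hp0⟩ := hθ
      refine hnorm _ ?_
      have hdvd : minpoly L (θ : W.L') ∣
          p.map (algebraMap (Algebra.adjoin K (Set.range u)) L) := by
        refine minpoly.dvd L _ ?_
        rw [Polynomial.aeval_map_algebraMap]
        exact hp0
      exact Polynomial.isIntegral_coeff_of_dvd p (minpoly L (θ : W.L')) hp (minpoly.monic hθL)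
        hdvd i
    rw [Algebra.adjoin_range_eq_range_aeval] at h1
    exact h1
  choose P hP using hco
  refine ⟨(minpoly L (θ : W.L')).natDegree, P, minpoly.natDegree_le _, ?_⟩
  apply Subtype.ext
  have h2 := minpoly.aeval L (θ : W.L')
  rw [Polynomial.aeval_eq_sum_range, Finset.sum_range_succ,
    (minpoly.monic hθL).coeff_natDegree, one_smul, add_comm] at h2
  refine Eq.trans ?_ h2
  rw [AddMemClass.coe_add, SubmonoidClass.coe_pow, AddSubmonoidClass.coe_finsetSum]
  congr 1
  refine Finset.sum_congr rfl fun i _ => ?_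
  rw [MulMemClass.coe_mul, SubmonoidClass.coe_pow, W.ring_aeval, hP, Algebra.smul_def]

/-- **Fibres over normal varieties.** -/
theorem fib_normal [Infinite K] (hnorm : ∀ z : L, IsIntegral (Algebra.adjoin K (Set.range u)) z →
      z ∈ Algebra.adjoin K (Set.range u)) : W.FibresLE W.deg := by
  classical
  intro s
  by_contra hcon
  rw [not_le] at hcon
  have h0 : ((W.deg + 1 : ℕ) : ℕ∞) ≤ {φ : W.ring →ₐ[K] K | W.Over φ s}.encard := by
    have := Order.add_one_le_of_lt hcon
    exact_mod_cast this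
  obtain ⟨T', hT's, hT'c⟩ := Set.exists_subset_encard_eq h0
  have hT'f : T'.Finite := by
    rw [← Set.encard_lt_top_iff, hT'c]
    exact ENat.natCast_lt_top _
  obtain ⟨T, rfl⟩ := hT'f.exists_finset_coe
  have hTc : T.card = W.deg + 1 := by
    rw [Set.encard_coe_eq_coe_finsetCard] at hT'c
    exact_mod_cast hT'c
  obtain ⟨q, y, hy⟩ := W.enum'
  have hym : ∀ i, (y i : W.L') ∈ W.mons := by
    intro i
    have h1 : y i ∈ Set.range y := ⟨i, rfl⟩
    rw [hy] at h1
    exact h1
  have hym' : ∀ y' : W.ring, (y' : W.L') ∈ W.mons → ∃ i, y i = y' := by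
    intro y' h'
    have h1 : y' ∈ {y : W.ring | (y : W.L') ∈ W.mons} := h'
    rw [← hy] at h1
    exact h1
  -- a separating element
  obtain ⟨p, hp⟩ : ∃ p : (W.ring →ₐ[K] K) × (W.ring →ₐ[K] K) → Polynomial K, p = fun c =>
    ∑ i : Fin q, Polynomial.monomial (i : ℕ) (c.1 (y i) - c.2 (y i)) := ⟨_, rfl⟩
  have hpe : ∀ c τ, (p c).eval τ = ∑ i : Fin q, (c.1 (y i) - c.2 (y i)) * τ ^ (i : ℕ) := by
    intro c τ
    rw [hp, Polynomial.eval_finsetSum]
    exact Finset.sum_congr rfl fun i _ => Polynomial.eval_monomial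
  have hpc : ∀ c (i : Fin q), (p c).coeff i = c.1 (y i) - c.2 (y i) := by
    intro c i
    rw [hp]
    simp only [Polynomial.finsetSum_coeff, Polynomial.coeff_monomial]
    rw [Finset.sum_eq_single i]
    · rw [if_pos rfl]
    · intro j _ hj
      rw [if_neg]
      intro h
      exact hj (Fin.ext h)
    · intro h
      exact absurd (Finset.mem_univ i) h
  have hbad : (⋃ c ∈ T ×ˢ T, (↑(p c).roots.toFinset : Set K)).Finite :=
    (Finset.finite_toSet _).biUnion fun c _ => Finset.finite_toSet _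
  obtain ⟨τ, hτ⟩ := hbad.infinite_compl.nonempty
  obtain ⟨θ, hθ⟩ : ∃ θ : W.ring, θ = ∑ i : Fin q, algebraMap K W.ring (τ ^ (i : ℕ)) * y i :=
    ⟨_, rfl⟩
  have hθφ : ∀ φ : W.ring →ₐ[K] K, φ θ = ∑ i : Fin q, τ ^ (i : ℕ) * φ (y i) := by
    intro φ
    rw [hθ, map_sum]
    exact Finset.sum_congr rfl fun i _ => by rw [map_mul, AlgHom.commutes]; rfl
  have hinj : Set.InjOn (fun φ : W.ring →ₐ[K] K => φ θ) T := by
    intro φ hφ ψ hψ h
    change φ θ = ψ θ at h
    by_contra hne
    have h1 : p (φ, ψ) ≠ 0 := by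
      intro h1
      apply hne
      refine W.hom_ext (fun j => ?_) fun y' hy' => ?_
      · rw [hT's hφ j _ rfl, hT's hψ j _ rfl]
      · obtain ⟨i, rfl⟩ := hym' y' hy'
        have h2 := hpc (φ, ψ) i
        rw [h1, Polynomial.coeff_zero] at h2
        exact sub_eq_zero.1 h2.symm
    apply hτ
    refine Set.mem_biUnion (x := (φ, ψ)) (Finset.mem_coe.2 (Finset.mem_product.2 ⟨hφ, hψ⟩)) ?_
    rw [Finset.mem_coe, Multiset.mem_toFinset, Polynomial.mem_roots h1]
    change (p (φ, ψ)).eval τ = 0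
    rw [hpe]
    have h2 : φ θ - ψ θ = 0 := sub_eq_zero.2 h
    rw [hθφ, hθφ, ← Finset.sum_sub_distrib] at h2
    refine Eq.trans ?_ h2
    exact Finset.sum_congr rfl fun i _ => by ring
  have hθi : IsIntegral (Algebra.adjoin K (Set.range u)) (θ : W.L') := by
    rw [hθ, AddSubmonoidClass.coe_finsetSum]
    refine IsIntegral.sum _ fun j _ => ?_
    change IsIntegral _ ((algebraMap K W.L' (τ ^ (j : ℕ))) * (y j : W.L'))
    refine IsIntegral.mul ?_ (W.mons_int (hym j))
    rw [IsScalarTower.algebraMap_apply K (Algebra.adjoin K (Set.range u)) W.L']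
    exact isIntegral_algebraMap
  obtain ⟨d, P, hd, hP⟩ := norm_eq hnorm hθi
  obtain ⟨Q, hQ⟩ : ∃ Q : Polynomial K, Q = Polynomial.X ^ d + ∑ i ∈ Finset.range d,
    Polynomial.C (MvPolynomial.eval s (P i)) * Polynomial.X ^ i := ⟨_, rfl⟩
  have hlt : (∑ i ∈ Finset.range d,
      Polynomial.C (MvPolynomial.eval s (P i)) * Polynomial.X ^ i).degree <
        ((d : ℕ) : WithBot ℕ) := by
    refine Polynomial.mem_degreeLT.1 (Submodule.sum_mem _ fun i hi =>
      Polynomial.mem_degreeLT.2 (lt_of_le_of_lt (Polynomial.degree_C_mul_X_pow_le _ _) ?_))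
    exact_mod_cast Finset.mem_range.1 hi
  have hQm : Q.Monic := by
    rw [hQ]
    exact Polynomial.monic_X_pow_add hlt
  have hQd : Q.natDegree = d := by
    rw [hQ]
    refine Polynomial.natDegree_eq_of_degree_eq_some ?_
    rw [add_comm, Polynomial.degree_add_eq_right_of_degree_lt (by
      rw [Polynomial.degree_X_pow]
      exact hlt), Polynomial.degree_X_pow]
  have hroot : ∀ φ ∈ T, φ θ ∈ Q.roots.toFinset := by
    intro φ hφ
    rw [Multiset.mem_toFinset, Polynomial.mem_roots hQm.ne_zero]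
    change Q.eval (φ θ) = 0
    have h1 := congrArg φ hP
    rw [map_zero, map_add, map_pow, map_sum] at h1
    rw [hQ, Polynomial.eval_add, Polynomial.eval_pow, Polynomial.eval_X,
      Polynomial.eval_finsetSum]
    refine Eq.trans ?_ h1
    congr 1
    refine Finset.sum_congr rfl fun i _ => ?_
    have h2 : (fun j => φ (W.uR j)) = s := funext fun j => hT's hφ j _ rfl
    rw [map_mul, map_pow, W.hom_aeval, h2, Polynomial.eval_mul, Polynomial.eval_C,
      Polynomial.eval_pow, Polynomial.eval_X, MvPolynomial.aeval_eq_eval]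
  have h1 := Finset.card_le_card_of_injOn (fun φ : W.ring →ₐ[K] K => φ θ) hroot hinj
  have h2 := (Multiset.toFinset_card_le Q.roots).trans (Polynomial.card_roots' Q)
  omega

end

end Pool.Agent.N111.GJ
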