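import Pool.Agent.N111.GJ.Top

/-!
The final form of the theorem on finite correspondences.
-/

set_option autoImplicit false
set_option linter.overlappingInstances false
set_option linter.unusedSectionVars false

open IntermediateField

namespace Pool.Agent.N111.GJ

open Pool.Agent.W602.GT (LogGeneralType)

section

variable {k K : Type} [Field k] [Field K] [IsAlgClosed K] [CharZero K] [Algebra k K] {L : Type}
    [Field L] [Algebra K L] {N : ℕ} {u : Fin N → L}

/-- quasi-finite correspondences -/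
theorem finite_of_qf {W : Corr k K u} {r : ℕ} (hr : W.FibresLE r) (hqf : W.QuasiFinite) {e : ℕ}
    (hd : 2 * W.X.m + 2 * (r * e) ≤ W.X.size) (T : Finset K) {R : Subring K}
    (hR : R ≤ Subring.closure ((algebraicClosure k K : Set K) ∪ (T : Set K))) :
    (IntPts u e R).Finite := by
  refine (finite_off (k := k) (u := u) e T hR).subset fun s hs => ⟨hs, ?_⟩
  rintro ⟨E, _, _, w, z, hw, hz, -, h⟩
  exact not_constant_of_qf hqf hw hz (h W r hr hd)

theorem isSub_self (hgen : adjoin K (Set.range u) = ⊤) {w : ℕ} (hw : Algebra.trdeg K L = w) :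
    IsSub K u u w := ⟨fun _ h => h, hgen, hw⟩

theorem FibresLE.mono {W : Corr k K u} {r r' : ℕ} (h : W.FibresLE r) (hr : r ≤ r') :
    W.FibresLE r' := fun s => (h s).trans (by exact_mod_cast hr)

end

section

variable {k K : Type} [Field k] [Field K] [IsAlgClosed K] [CharZero K] [Algebra k K]

/-- **The exact bound for the finiteness of the integral points.** -/
theorem exact_pts (X : GenericPair k K) (hV : X.V = ∅) (hm : X.m = X.n) (hn : 1 ≤ X.n)
    (hd : ∀ c ∈ X.C, 1 ≤ X.d c) (hC : ∑ c ∈ X.C, (X.d c + 1) ≤ 2 * (X.n - 1)) {r : ℕ}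
    (hr : 0 < r) :
    (∀ (L : Type) [Field L] [Algebra K L] (N : ℕ) (u : Fin N → L),
      adjoin K (Set.range u) = ⊤ → ∀ W : Corr k K u, W.X = X → W.FibresLE r → W.QuasiFinite →
      ∀ T : Finset K, (IntPts u 1
        (Subring.closure ((algebraicClosure k K : Set K) ∪ (T : Set K)))).Finite) ↔
      2 * X.n + 2 * r ≤ X.size := by
  classical
  constructor
  · intro h
    by_contra hcon
    obtain ⟨L, _, _, u, hgen, hnorm, ⟨W, hWX, hWd, hWq⟩, hinf⟩ := exact_three X hV hn hd hC hr
      (by omega)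
    have hinfK : Infinite K := IsAlgClosed.instInfinite
    refine hinf ((h L 3 u hgen W hWX (FibresLE.mono (fib_normal hnorm) hWd) hWq ∅).subset ?_)
    have h1 : Subring.closure ((algebraicClosure k K : Set K) ∪ ((∅ : Finset K) : Set K)) =
        Subring.closure (algebraicClosure k K : Set K) := by
      rw [Finset.coe_empty, Set.union_empty]
    rw [h1]
  · intro h L _ _ N u _ W hWX hWr hWq T
    refine finite_of_qf hWr hWq (e := 1) ?_ T le_rfl
    rw [hWX, hm, mul_one]
    exact h

/-- **The exact bound for logarithmic general type.** -/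
theorem exact_lgt (X : GenericPair k K) (hV : X.V = ∅) (hm : X.m = X.n) (hn : 1 ≤ X.n)
    (hd : ∀ c ∈ X.C, 1 ≤ X.d c) (hC : ∑ c ∈ X.C, (X.d c + 1) ≤ 2 * (X.n - 1)) {r : ℕ}
    (hr : 0 < r) :
    (∀ (L : Type) [Field L] [Algebra K L] (N : ℕ) (u : Fin N → L),
      adjoin K (Set.range u) = ⊤ → ∀ W : Corr k K u, W.X = X → W.FibresLE r → W.QuasiFinite →
      ∀ (E : Type) [Field E] [Algebra K E] (w : ℕ) (z : Fin N → E), 0 < w → IsSub K u z w →
        LogGeneralType K E w fun P => ∃ j, ¬ P.Reg (z j)) ↔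
      2 * X.n + 2 * r ≤ X.size + 1 := by
  classical
  constructor
  · intro h
    by_contra hcon
    obtain ⟨L, _, _, u, hgen, htr, hnorm, ⟨W, hWX, hWd, hWq⟩, hnl, -⟩ := exact_gm X hV hn hd hC hr
      (by omega)
    have hinfK : Infinite K := IsAlgClosed.instInfinite
    exact hnl (h L 2 u hgen W hWX (FibresLE.mono (fib_normal hnorm) hWd) hWq L 1 u one_pos
      (isSub_self hgen (by exact_mod_cast htr)))
  · intro h L _ _ N u _ W hWX hWr hWq E _ _ w z hw hz
    refine log_general hWr hz hw (gf_of_qf hWq hz) ?_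
    rw [hWX, hm]
    omega

end

end Pool.Agent.N111.GJ
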