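import Pool.Agent.N111.GJ.Fib

/-!
Subvarieties on which a correspondence is generically finite are of log general type.
-/

set_option autoImplicit false
set_option linter.overlappingInstances false
set_option linter.unusedSectionVars false

open FF Polynomial IntermediateField

namespace Pool.Agent.N111.GJ

open Pool.Agent.N111.FT (aclo mem_aclo aclo_closed aclo_le aclo_mono map_mem_aclo_iff)
open Pool.Agent.W602.GT (coords LogGeneralType)
open Pool.Agent.W603.PV (pord)
open Pool.Agent.W603.LV (Ge)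

section

variable {k K : Type} [Field k] [Field K] [Algebra k K] {L : Type} [Field L] [Algebra K L]
    {N : ℕ} {u : Fin N → L} (W : Corr k K u)

variable {W}

/-- points in subfields -/
theorem point_desc {X : GenericPair k K} {E F : Type} [Field E] [Field F] [Algebra K E]
    [Algebra K F] (ψ : E →ₐ[K] F) {x : Fin (X.n + 1) → E} (h : X.Point fun i => ψ (x i)) :
    X.Point x := by
  have h1 : ∀ G : MvPolynomial (Fin (X.n + 1)) K, ψ (MvPolynomial.aeval x G) =
      MvPolynomial.aeval (fun i => ψ (x i)) G := by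
    intro G
    have h2 : ψ.comp (MvPolynomial.aeval x) = MvPolynomial.aeval fun i => ψ (x i) := by
      apply MvPolynomial.algHom_ext
      intro i
      simp
    rw [← h2]
    rfl
  have h0 : ∀ G : MvPolynomial (Fin (X.n + 1)) K,
      MvPolynomial.aeval (fun i => ψ (x i)) G = 0 → MvPolynomial.aeval x G = 0 := by
    intro G hG
    apply ψ.toRingHom.injective
    change ψ _ = ψ 0
    rw [h1, hG, map_zero]
  refine ⟨fun h2 => h.ne ?_, fun f hf => h0 _ (h.mem_V f hf), fun c hc => h0 _ (h.mem_C c hc),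
    fun b hb h2 => h.notMem b hb ?_⟩
  · funext i
    rw [h2]
    exact map_zero ψ
  · rw [← h1, h2, map_zero]

theorem mon_map {X : GenericPair k K} {E F : Type} [Field E] [Field F] [Algebra K E]
    [Algebra K F] (ψ : E →ₐ[K] F) (x : Fin (X.n + 1) → E) (b : X.A) (I : Fin (X.n + 1) →₀ ℕ) :
    ψ (X.mon x b I) = X.mon (fun i => ψ (x i)) b I := by
  unfold GenericPair.mon
  rw [map_div₀, map_prod]
  congr 1
  · exact Finset.prod_congr rfl fun i _ => map_pow _ _ _
  · have h2 : ψ.comp (MvPolynomial.aeval x) = MvPolynomial.aeval fun i => ψ (x i) := by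
      apply MvPolynomial.algHom_ext
      intro i
      simp
    rw [← h2]
    rfl

/-- **The field of the values at a point of a correspondence.** -/
theorem exists_field {E : Type} [Field E] [Algebra K E] [IsAlgClosed K] [CharZero K] {r : ℕ}
    (hr : W.FibresLE r) {Ω : Type} [Field Ω] [IsAlgClosed Ω] [Algebra K Ω] [Algebra E Ω]
    [IsScalarTower K E Ω] {z : Fin N → E} (hgen : adjoin K (Set.range z) = ⊤)
    {φ : W.ring →ₐ[K] Ω} (hφ : W.Over φ (fun j => algebraMap E Ω (z j))) :
    ∃ (E' : IntermediateField E Ω) (x : Fin (W.X.n + 1) → E') (j0 : Fin (W.X.n + 1)),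
      E' = adjoin E (W.values φ) ∧ FiniteDimensional E E' ∧
      Module.finrank E E' ≤ r ∧ x j0 = 1 ∧ W.X.Point x ∧ adjoin E (Set.range x) = ⊤ ∧
      (∀ i, (x i : Ω) ∈ adjoin K (W.values φ)) ∧
      W.values φ ⊆ adjoin K (Set.range fun i => (x i : Ω)) ∧
      ∀ b I, b ∉ W.X.C → I.degree = W.X.d b → φ (W.Y b I) = ((W.X.mon x b I : E') : Ω) := by
  classical
  obtain ⟨hfd, hrk⟩ := fib_deg hr hgen hφ
  obtain ⟨x', j0, hx0, hpt, hmon, hquot⟩ := spec_point φ
  have hxE : ∀ i, x' i ∈ adjoin E (W.values φ) := by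
    intro i
    obtain ⟨v₁, h1, v₂, h2, h⟩ := hquot i
    rw [h]
    exact div_mem (subset_adjoin _ _ h1) (subset_adjoin _ _ h2)
  have hxK : ∀ i, x' i ∈ adjoin K (W.values φ) := by
    intro i
    obtain ⟨v₁, h1, v₂, h2, h⟩ := hquot i
    rw [h]
    exact div_mem (subset_adjoin _ _ h1) (subset_adjoin _ _ h2)
  have hvK : W.values φ ⊆ adjoin K (Set.range x') := by
    rintro _ ⟨y, ⟨b, I, hb, hI, hyv⟩, rfl⟩
    have h1 : y = W.Y b I := Subtype.ext (by rw [W.Y_val hb hI, hyv])
    rw [h1, hmon b I hb hI]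
    unfold GenericPair.mon
    refine div_mem (prod_mem fun i _ => pow_mem (subset_adjoin K (Set.range x') ⟨i, rfl⟩) _) ?_
    rw [form_val]
    exact sum_mem fun J _ => mul_mem (IntermediateField.algebraMap_mem _ _)
      (prod_mem fun i _ => pow_mem (subset_adjoin K (Set.range x') ⟨i, rfl⟩) _)
  have hEle : adjoin E (W.values φ) ≤ adjoin E (Set.range x') := by
    rw [adjoin_le_iff]
    intro v hv
    have h1 := hvK hv
    have h2 : adjoin K (Set.range x') ≤ (adjoin E (Set.range x')).restrictScalars K := by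
      rw [adjoin_le_iff]
      rintro _ ⟨i, rfl⟩
      exact subset_adjoin E _ ⟨i, rfl⟩
    exact h2 h1
  let ψ : adjoin E (W.values φ) →ₐ[K] Ω := (adjoin E (W.values φ)).val.restrictScalars K
  refine ⟨adjoin E (W.values φ), fun i => ⟨x' i, hxE i⟩, j0, rfl, hfd, hrk, Subtype.ext hx0,
    point_desc ψ hpt, ?_, hxK, hvK, fun b I hb hI => ?_⟩
  · apply IntermediateField.map_injective (adjoin E (W.values φ)).val
    rw [← AlgHom.fieldRange_eq_map, IntermediateField.fieldRange_val,
      IntermediateField.adjoin_map, ← Set.range_comp]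
    refine le_antisymm ?_ hEle
    rw [adjoin_le_iff]
    rintro _ ⟨i, rfl⟩
    exact hxE i
  · rw [hmon b I hb hI]
    exact (mon_map ψ (fun i => (⟨x' i, hxE i⟩ : adjoin E (W.values φ))) b I).symm

/-- values are algebraic over the field of the values -/
theorem alg_values {E : Type} [Field E] [Algebra K E] {Ω : Type} [Field Ω] [Algebra K Ω]
    [Algebra E Ω] [IsScalarTower K E Ω] [Algebra.IsAlgebraic E Ω] {z : Fin N → E}
    (hz : adjoin K (Set.range z) = ⊤) {S : Set Ω}
    (h : ∀ j, IsAlgebraic (adjoin K S) (algebraMap E Ω (z j))) (t : Ω) : t ∈ aclo K S := by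
  have hE₁ : (adjoin K (Set.range z)).map (IsScalarTower.toAlgHom K E Ω) ≤ aclo K S := by
    rw [IntermediateField.adjoin_map, IntermediateField.adjoin_le_iff]
    rintro _ ⟨_, ⟨i, rfl⟩, rfl⟩
    exact mem_aclo.2 (h i)
  have hE₂ : ∀ e : E, algebraMap E Ω e ∈ aclo K S := by
    intro e
    refine hE₁ ⟨e, ?_, rfl⟩
    rw [hz]
    exact IntermediateField.mem_top
  apply aclo_closed
  obtain ⟨q, hq, hqt⟩ := Algebra.IsAlgebraic.isAlgebraic (R := E) t
  let φ : E →+* aclo K S := (algebraMap E Ω).codRestrict _ hE₂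
  refine ⟨q.map φ, ?_, ?_⟩
  · rw [Ne, Polynomial.map_eq_zero]
    exact hq
  · rw [← hqt, Polynomial.aeval_def, Polynomial.eval₂_map, Polynomial.aeval_def]
    rfl

/-- elements that are integral over regular functions are regular -/
theorem reg_values {E : Type} [Field E] [Algebra K E]
    {Ω : Type} [Field Ω] [Algebra K Ω] [Algebra E Ω]
    [IsScalarTower K E Ω] {z : Fin N → E} {φ : W.ring →ₐ[K] Ω}
    (hφ : W.Over φ (fun j => algebraMap E Ω (z j))) {E' : IntermediateField E Ω}
    {P : Place K E} {Q : Place K E'} {e : ℕ} (hPQ : Over Q P e) (hz : ∀ j, P.Reg (z j))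
    {b : W.X.A} {I : Fin (W.X.n + 1) →₀ ℕ} (hb : b ∉ W.X.C) (hI : I.degree = W.X.d b) {v : E'}
    (hv : φ (W.Y b I) = (v : Ω)) : Ge Q 0 v := by
  obtain ⟨p, hp, hpz, hp0⟩ := spec_int (B := W.ring) W.base_mem (fun j => hφ j _ rfl)
    (θ := W.Y b I) (W.mons_int (W.Y_mem hb hI))
  have hreg : ∀ a ∈ Algebra.adjoin K (Set.range z), P.Reg a := by
    intro a ha
    induction ha using Algebra.adjoin_induction with
    | mem x hx =>
      obtain ⟨j, rfl⟩ := hx
      exact hz j
    | algebraMap c => exact P.reg_const c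
    | add x y _ _ hx hy => exact P.reg_add hx hy
    | mul x y _ _ hx hy => exact P.reg_mul hx hy
  refine Pool.Agent.Y735.LB.ge_of_monic Q (N := p.natDegree)
    (c := fun i => algebraMap E E' (p.coeff i)) (fun i _ => hPQ.reg.2 (hreg _ (hpz i))) ?_
  apply (algebraMap E' Ω).injective
  rw [map_zero, ← hp0, Polynomial.aeval_eq_sum_range, Finset.sum_range_succ,
    hp.coeff_natDegree, one_smul, add_comm, map_add, map_pow, map_sum, hv]
  congr 1
  refine Finset.sum_congr rfl fun i _ => ?_
  rw [map_mul, map_pow, ← IsScalarTower.algebraMap_apply, Algebra.smul_def]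
  rfl

/-- **Subvarieties on which a correspondence is generically finite are of log general type.** -/
theorem log_general [IsAlgClosed K] [CharZero K] {W : Corr k K u} {r : ℕ}
    (hr : W.FibresLE r) {E : Type} [Field E] [Algebra K E] {z : Fin N → E}
    {w : ℕ} (hz : IsSub K u z w) (hw : 0 < w) (hW : W.GenericallyFiniteOn z)
    (hd : 2 * W.X.m + 2 * r ≤ W.X.size + w) :
    LogGeneralType K E w fun P => ∃ j, ¬ P.Reg (z j) := by
  classical
  obtain ⟨φ, hφ, halg⟩ := hW
  obtain ⟨E', x, j0, hE', hfd, hrk, hx0, hpt, hgen, hxK, hvK, hmon⟩ := exists_field hr hz.gen hφ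
  have hess : Algebra.EssFiniteType K E := ess_of_adjoin hz.gen
  have hst : IsScalarTower K E E' := inferInstance
  have hx0' : x j0 ≠ 0 := by
    rw [hx0]
    exact one_ne_zero
  have hxd : (fun j => x j / x j0) = x := by
    funext j
    rw [hx0, div_one]
  have hall : ∀ t : AlgebraicClosure E, t ∈ aclo K (Set.range fun i => (x i : AlgebraicClosure E)) := by
    refine alg_values hz.gen fun j => ?_
    rw [← mem_aclo]
    have h1 := mem_aclo.2 (halg j)
    refine aclo_le ?_ h1
    intro v hv
    have h2 : adjoin K (Set.range fun i => (x i : AlgebraicClosure E)) ≤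
        aclo K (Set.range fun i => (x i : AlgebraicClosure E)) := by
      rw [adjoin_le_iff]
      exact Pool.Agent.N111.FT.subset_aclo _
    exact h2 (hvK hv)
  have halg' : Algebra.IsAlgebraic (coords K x) E' := by
    have hle : adjoin K (Set.range x) ≤ coords K x := by
      rw [IntermediateField.adjoin_le_iff]
      rintro _ ⟨j, rfl⟩
      refine IntermediateField.subset_adjoin _ _ ⟨j, j0, hx0', ?_⟩
      rw [hx0, div_one]
    refine Pool.Agent.W602.GT.alg_mono hle ⟨fun t => ?_⟩
    rw [← mem_aclo]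
    rw [← map_mem_aclo_iff (E'.val.restrictScalars K), ← Set.range_comp]
    exact hall _
  have hV := W.X.V_form
  refine Pool.Agent.N111.GI.img_log (L' := E') (r := r) (c0 := j0) W.X.V W.X.V_form W.X.V_dim
    W.X.C hw hrk hd W.X.F W.X.F_form W.X.I₀ W.X.coeff_ne W.X.generic.algebraicClosure hz.dim
    (x := x) hx0' halg' ?_ hpt.mem_V hpt.mem_C hpt.notMem ?_
  · rw [hxd]
    exact hgen
  · rintro P Q e hPQ ⟨b, hb, hlt⟩
    by_contra hcon
    push Not at hcon
    obtain ⟨i, hi, hi2⟩ := Pool.Agent.W603.PV.exists_pord Q (f := x) ⟨j0, hx0'⟩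
    have h1 := reg_values hφ hPQ hcon hb (I := Finsupp.single i (W.X.d b))
      (Finsupp.degree_single _ _) (v := W.X.mon x b (Finsupp.single i (W.X.d b)))
      (hmon b _ hb (Finsupp.degree_single _ _))
    unfold GenericPair.mon at h1
    rw [prod_single] at h1
    have h2 := hpt.notMem b hb
    rcases h1 with h1 | h1
    · exact (div_ne_zero (pow_ne_zero _ hi) h2) h1
    · rw [Q.ord_div (pow_ne_zero _ hi) h2, Q.ord_pow, hi2] at h1
      omega

end

end Pool.Agent.N111.GJ
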