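import Pool.Agent.N111.GJ.Noe

/-!
Existence of points of correspondences over the points of the base.
-/

set_option autoImplicit false
set_option linter.overlappingInstances false
set_option linter.unusedSectionVars false

open IntermediateField

namespace Pool.Agent.N111.GJ

/-- homomorphisms to an algebraically closed field extend to integral extensions -/
theorem exists_ext {R S Ω : Type} [CommRing R] [CommRing S] [Algebra R S] [Algebra.IsIntegral R S]
    (hinj : Function.Injective (algebraMap R S)) [Field Ω] [IsAlgClosed Ω] (χ : R →+* Ω) :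
    ∃ φ : S →+* Ω, ∀ r, φ (algebraMap R S r) = χ r := by
  have hp : (RingHom.ker χ).IsPrime := RingHom.ker_isPrime χ
  obtain ⟨Q, -, hQ, hQp⟩ := Ideal.exists_ideal_over_prime_of_isIntegral (RingHom.ker χ)
    (⊥ : Ideal S) (by
      intro r hr
      rw [Ideal.mem_comap, Ideal.mem_bot] at hr
      have h1 : r = 0 := hinj (by rw [hr, map_zero])
      rw [h1]
      exact zero_mem _)
  let ι : R ⧸ RingHom.ker χ →+* S ⧸ Q := Ideal.quotientMap Q (algebraMap R S) hQp.ge
  have hι : Function.Injective ι := Ideal.quotientMap_injective' hQp.le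
  let χ' : R ⧸ RingHom.ker χ →+* Ω := RingHom.kerLift χ
  have hχ' : Function.Injective χ' := RingHom.kerLift_injective χ
  let _ : Algebra (R ⧸ RingHom.ker χ) (S ⧸ Q) := ι.toAlgebra
  let _ : Algebra (R ⧸ RingHom.ker χ) Ω := χ'.toAlgebra
  have hf1 : FaithfulSMul (R ⧸ RingHom.ker χ) (S ⧸ Q) :=
    (faithfulSMul_iff_algebraMap_injective _ _).2 hι
  have hf2 : FaithfulSMul (R ⧸ RingHom.ker χ) Ω :=
    (faithfulSMul_iff_algebraMap_injective _ _).2 hχ'
  have hint : Algebra.IsIntegral (R ⧸ RingHom.ker χ) (S ⧸ Q) := by
    constructor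
    intro s
    obtain ⟨s, rfl⟩ := Ideal.Quotient.mk_surjective s
    exact IsIntegral.map_of_comp_eq (Ideal.Quotient.mk (RingHom.ker χ)) (Ideal.Quotient.mk Q) rfl
      (Algebra.IsIntegral.isIntegral (R := R) s)
  have halg : Algebra.IsAlgebraic (R ⧸ RingHom.ker χ) (S ⧸ Q) := inferInstance
  let f : (S ⧸ Q) →ₐ[R ⧸ RingHom.ker χ] Ω := IsAlgClosed.lift
  refine ⟨(f : (S ⧸ Q) →+* Ω).comp (Ideal.Quotient.mk Q), fun r => ?_⟩
  have h1 := f.commutes (Ideal.Quotient.mk (RingHom.ker χ) r)
  exact h1

section

variable {k K : Type} [Field k] [Field K] [Algebra k K] {L : Type} [Field L] [Algebra K L]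
    {N : ℕ} {u : Fin N → L} (W : Corr k K u)

/-- **Points of correspondences** over points of the base. -/
theorem Corr.exists_over {Ω : Type} [Field Ω] [IsAlgClosed Ω] [Algebra K Ω] {z : Fin N → Ω}
    (hz : ∀ P : MvPolynomial (Fin N) K, MvPolynomial.aeval u P = 0 → MvPolynomial.aeval z P = 0) :
    ∃ φ : W.ring →ₐ[K] Ω, W.Over φ z := by
  classical
  -- the homomorphism on the ring of the base
  have hsur : ∀ a : Algebra.adjoin K (Set.range u), ∃ P : MvPolynomial (Fin N) K,
      MvPolynomial.aeval u P = (a : L) := by
    rintro ⟨a, ha⟩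
    rw [Algebra.adjoin_range_eq_range_aeval] at ha
    exact ha
  choose P hP using hsur
  have hwell : ∀ (a : Algebra.adjoin K (Set.range u)) (Q : MvPolynomial (Fin N) K),
      MvPolynomial.aeval u Q = (a : L) → MvPolynomial.aeval z (P a) = MvPolynomial.aeval z Q := by
    intro a Q hQ
    have h1 := hz (P a - Q) (by rw [map_sub, hP, hQ, sub_self])
    rw [map_sub] at h1
    exact sub_eq_zero.1 h1
  let χ : Algebra.adjoin K (Set.range u) →+* Ω :=
    { toFun := fun a => MvPolynomial.aeval z (P a)
      map_one' := by
        rw [hwell 1 1 (by rw [map_one]; rfl), map_one]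
      map_mul' := fun a b => by
        rw [hwell (a * b) (P a * P b) (by rw [map_mul, hP, hP]; rfl), map_mul]
      map_zero' := by
        rw [hwell 0 0 (by rw [map_zero]; rfl), map_zero]
      map_add' := fun a b => by
        rw [hwell (a + b) (P a + P b) (by rw [map_add, hP, hP]; rfl), map_add] }
  have hχ : ∀ a, χ a = MvPolynomial.aeval z (P a) := fun a => rfl
  -- the ring of functions on `W` is integral
  have hle : ∀ a ∈ Algebra.adjoin K (Set.range u), algebraMap L W.L' a ∈ W.ring := by
    intro a ha
    induction ha using Algebra.adjoin_induction with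
    | mem x hx =>
      obtain ⟨j, rfl⟩ := hx
      exact W.base_mem j
    | algebraMap c =>
      rw [← IsScalarTower.algebraMap_apply K L W.L']
      exact W.ring.algebraMap_mem c
    | add x y _ _ hx hy =>
      rw [map_add]
      exact add_mem hx hy
    | mul x y _ _ hx hy =>
      rw [map_mul]
      exact mul_mem hx hy
  let ι : Algebra.adjoin K (Set.range u) →+* W.ring :=
    ((algebraMap L W.L').comp (Algebra.adjoin K (Set.range u)).val.toRingHom).codRestrict
      W.ring fun a => hle _ a.2
  let _ : Algebra (Algebra.adjoin K (Set.range u)) W.ring := ι.toAlgebra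
  have hιv : ∀ a : Algebra.adjoin K (Set.range u),
      ((algebraMap (Algebra.adjoin K (Set.range u)) W.ring a : W.ring) : W.L') =
        algebraMap L W.L' (a : L) := fun a => rfl
  have hinj : Function.Injective (algebraMap (Algebra.adjoin K (Set.range u)) W.ring) := by
    intro a b hab
    have h1 := congrArg (fun t : W.ring => (t : W.L')) hab
    simp only [hιv] at h1
    exact Subtype.ext ((algebraMap L W.L').injective h1)
  have hst : IsScalarTower (Algebra.adjoin K (Set.range u)) W.ring W.L' :=
    IsScalarTower.of_algebraMap_eq fun a => rfl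
  have hint : Algebra.IsIntegral (Algebra.adjoin K (Set.range u)) W.ring := by
    constructor
    intro b
    have h1 : IsIntegral (Algebra.adjoin K (Set.range u)) (b : W.L') := by
      have h2 : ∀ t ∈ W.ring, IsIntegral (Algebra.adjoin K (Set.range u)) t := by
        intro t ht
        unfold Corr.ring at ht
        induction ht using Algebra.adjoin_induction with
        | mem x hx =>
          rcases hx with ⟨j, rfl⟩ | hx
          · exact isIntegral_algebraMap
              (x := (⟨u j, Algebra.subset_adjoin ⟨j, rfl⟩⟩ : Algebra.adjoin K (Set.range u)))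
          · obtain ⟨b, I, hb, hI, rfl⟩ := hx
            exact W.integral b I hb hI
        | algebraMap c =>
          rw [IsScalarTower.algebraMap_apply K (Algebra.adjoin K (Set.range u)) W.L']
          exact isIntegral_algebraMap
        | add x y _ _ hx hy => exact hx.add hy
        | mul x y _ _ hx hy => exact hx.mul hy
      exact h2 _ b.2
    exact (isIntegral_algHom_iff (IsScalarTower.toAlgHom (Algebra.adjoin K (Set.range u)) W.ring
      W.L') Subtype.val_injective).1 h1
  obtain ⟨φ, hφ⟩ := exists_ext hinj χ
  have hφu : ∀ (j : Fin N) (y : W.ring), (y : W.L') = algebraMap L W.L' (u j) → φ y = z j := by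
    intro j y hy
    have h1 : y = algebraMap (Algebra.adjoin K (Set.range u)) W.ring
        ⟨u j, Algebra.subset_adjoin ⟨j, rfl⟩⟩ := Subtype.ext hy
    rw [h1, hφ, hχ, hwell _ (MvPolynomial.X j) (by rw [MvPolynomial.aeval_X]),
      MvPolynomial.aeval_X]
  refine ⟨{ φ with commutes' := fun c => ?_ }, fun j y hy => hφu j y hy⟩
  change φ (algebraMap K W.ring c) = _
  have h1 : algebraMap K W.ring c = algebraMap (Algebra.adjoin K (Set.range u)) W.ring
      (algebraMap K (Algebra.adjoin K (Set.range u)) c) := by
    apply Subtype.ext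
    rw [hιv]
    change algebraMap K W.L' c = algebraMap L W.L' (algebraMap K L c)
    exact IsScalarTower.algebraMap_apply K L W.L' c
  rw [h1, hφ, hχ, hwell _ (MvPolynomial.C c) (by rw [MvPolynomial.aeval_C]; rfl),
    MvPolynomial.aeval_C]

end

end Pool.Agent.N111.GJ
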