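import Pool.Agent.N111.GJ.Eng

/-!
Noetherian induction: integral points which are not dense in subvarieties.
-/

set_option autoImplicit false
set_option linter.overlappingInstances false
set_option linter.unusedSectionVars false

open IntermediateField

namespace Pool.Agent.N111.GJ

section

variable {K : Type} [Field K] {N : ℕ}

/-- the ideal of a set of points -/
def vI (S : Set (Fin N → K)) : Ideal (MvPolynomial (Fin N) K) where
  carrier := {P | ∀ s ∈ S, MvPolynomial.eval s P = 0}
  add_mem' := fun {a b} ha hb s hs => by rw [map_add, ha s hs, hb s hs, add_zero]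
  zero_mem' := fun s _ => map_zero _
  smul_mem' := fun c a ha s hs => by rw [smul_eq_mul, map_mul, ha s hs, mul_zero]

theorem mem_vI {S : Set (Fin N → K)} {P : MvPolynomial (Fin N) K} :
    P ∈ vI S ↔ ∀ s ∈ S, MvPolynomial.eval s P = 0 := Iff.rfl

/-- the ideal of an infinite set of points, with a maximal ideal among its infinite subsets, is
prime -/
theorem prime_vI {M S : Set (Fin N → K)} (hSM : S ⊆ M) (hS : S.Infinite)
    (hmax : ∀ S' ⊆ M, S'.Infinite → ¬ vI S < vI S') : (vI S).IsPrime := by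
  classical
  have key : ∀ (f : MvPolynomial (Fin N) K), {s ∈ S | MvPolynomial.eval s f = 0}.Infinite →
      f ∈ vI S := by
    intro f hf
    have h1 : vI S ≤ vI {s ∈ S | MvPolynomial.eval s f = 0} := fun P hP s hs => hP s hs.1
    have h2 := hmax _ (fun s hs => hSM hs.1) hf
    have h3 : vI {s ∈ S | MvPolynomial.eval s f = 0} ≤ vI S := by
      by_contra h
      exact h2 (lt_of_le_not_ge h1 h)
    exact h3 fun s hs => hs.2
  refine ⟨fun h => ?_, fun {f g} hfg => ?_⟩
  · obtain ⟨s, hs⟩ := hS.nonempty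
    have h1 : (1 : MvPolynomial (Fin N) K) ∈ vI S := by rw [h]; trivial
    have h2 := h1 s hs
    rw [map_one] at h2
    exact one_ne_zero h2
  · by_contra hcon
    push Not at hcon
    have h1 : {s ∈ S | MvPolynomial.eval s f = 0}.Finite := by
      by_contra h
      exact hcon.1 (key f h)
    have h2 : {s ∈ S | MvPolynomial.eval s g = 0}.Finite := by
      by_contra h
      exact hcon.2 (key g h)
    refine hS ((h1.union h2).subset fun s hs => ?_)
    have h3 := hfg s hs
    rw [map_mul] at h3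
    rcases mul_eq_zero.1 h3 with h | h
    · exact Or.inl ⟨hs, h⟩
    · exact Or.inr ⟨hs, h⟩

variable {L : Type} [Field L] [Algebra K L] {u : Fin N → L}

/-- **Noetherian induction.** -/
theorem finite_of_nondense [IsAlgClosed K] {M : Set (Fin N → K)}
    (hM : ∀ s ∈ M, ∀ P : MvPolynomial (Fin N) K, MvPolynomial.aeval u P = 0 →
      MvPolynomial.eval s P = 0)
    (h : ∀ (E : Type) [Field E] [Algebra K E] (w : ℕ) (z : Fin N → E), 0 < w → IsSub K u z w →
      (∃ s ∈ M, ∀ P, MvPolynomial.aeval z P = 0 → MvPolynomial.eval s P = 0) →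
      ∃ G : MvPolynomial (Fin N) K, MvPolynomial.aeval z G ≠ 0 ∧
        ∀ s ∈ M, (∀ P, MvPolynomial.aeval z P = 0 → MvPolynomial.eval s P = 0) →
          MvPolynomial.eval s G = 0) : M.Finite := by
  classical
  by_contra hinf
  obtain ⟨I₀, ⟨S, hSM, hS, rfl⟩, hmax⟩ := set_has_maximal_iff_noetherian.2
    (inferInstance : IsNoetherian (MvPolynomial (Fin N) K) (MvPolynomial (Fin N) K))
    {I | ∃ S ⊆ M, S.Infinite ∧ I = vI S} ⟨vI M, M, le_rfl, hinf, rfl⟩
  have hprime : (vI S).IsPrime := prime_vI hSM hS fun S' h1 h2 => hmax _ ⟨S', h1, h2, rfl⟩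
  let A := MvPolynomial (Fin N) K ⧸ vI S
  let E := FractionRing A
  let z : Fin N → E := fun j => algebraMap A E (Ideal.Quotient.mk (vI S) (MvPolynomial.X j))
  have hz : ∀ P : MvPolynomial (Fin N) K, MvPolynomial.aeval z P =
      algebraMap A E (Ideal.Quotient.mk (vI S) P) := by
    intro P
    have h1 : MvPolynomial.aeval z =
        (IsScalarTower.toAlgHom K A E).comp (Ideal.Quotient.mkₐ K (vI S)) := by
      apply MvPolynomial.algHom_ext
      intro j
      rw [MvPolynomial.aeval_X]
      rfl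
    rw [h1]
    rfl
  have hz0 : ∀ P : MvPolynomial (Fin N) K, MvPolynomial.aeval z P = 0 ↔ P ∈ vI S := by
    intro P
    rw [hz, map_eq_zero_iff _ (IsFractionRing.injective A E), Ideal.Quotient.eq_zero_iff_mem]
  have hgen : adjoin K (Set.range z) = ⊤ := by
    rw [eq_top_iff]
    rintro t -
    have hA : ∀ a : A, algebraMap A E a ∈ adjoin K (Set.range z) := by
      intro a
      obtain ⟨P, rfl⟩ := Ideal.Quotient.mk_surjective a
      rw [← hz, MvPolynomial.aeval_def, MvPolynomial.eval₂_eq']
      exact sum_mem fun I _ => mul_mem (IntermediateField.algebraMap_mem _ _)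
        (prod_mem fun j _ => pow_mem (subset_adjoin K (Set.range z) ⟨j, rfl⟩) _)
    obtain ⟨a, b, -, rfl⟩ := IsFractionRing.div_surjective (A := A) t
    exact div_mem (hA a) (hA b)
  have hess : Algebra.EssFiniteType K E := ess_of_adjoin hgen
  obtain ⟨w, hw⟩ := Cardinal.lt_aleph0.1 (trdeg_lt_aleph0 K E)
  have hw0 : 0 < w := by
    rcases Nat.eq_zero_or_pos w with h0 | h0
    · exfalso
      rw [h0, Nat.cast_zero, trdeg_eq_zero_iff] at hw
      have hbij : Function.Bijective (algebraMap K E) :=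
        IsAlgClosed.algebraMap_bijective_of_isIntegral
      choose t ht using fun j => hbij.2 (z j)
      refine hS ((Set.finite_singleton t).subset fun s hs => ?_)
      rw [Set.mem_singleton_iff]
      funext j
      have h1 : MvPolynomial.aeval z (MvPolynomial.X j - MvPolynomial.C (t j)) = 0 := by
        rw [map_sub, MvPolynomial.aeval_X, MvPolynomial.aeval_C, ht, sub_self]
      have h2 := (hz0 _).1 h1 s hs
      rw [map_sub, MvPolynomial.eval_X, MvPolynomial.eval_C] at h2
      exact sub_eq_zero.1 h2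
    · exact h0
  have hsub : IsSub K u z w := ⟨fun P hP => (hz0 P).2 fun s hs => hM s (hSM hs) P hP, hgen, hw⟩
  obtain ⟨s₀, hs₀⟩ := hS.nonempty
  obtain ⟨G, hG, hG'⟩ := h E w z hw0 hsub ⟨s₀, hSM hs₀, fun P hP => (hz0 P).1 hP s₀ hs₀⟩
  exact hG ((hz0 G).2 fun s hs => hG' s (hSM hs) fun P hP => (hz0 P).1 hP s hs)

end

section

variable {k K : Type} [Field k] [Field K] [IsAlgClosed K] [CharZero K] [Algebra k K] {L : Type}
    [Field L] [Algebra K L] {N : ℕ} {u : Fin N → L}

/-- **Finiteness of the integral points that are not on subvarieties on which all correspondences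
are constant.** -/
theorem finite_off (e : ℕ) (T : Finset K) {R : Subring K}
    (hR : R ≤ Subring.closure ((algebraicClosure k K : Set K) ∪ (T : Set K))) :
    {s ∈ IntPts u e R | ¬ ∃ (E : Type) (_ : Field E) (_ : Algebra K E) (w : ℕ) (z : Fin N → E),
      0 < w ∧ IsSub K u z w ∧
      (∀ P, MvPolynomial.aeval z P = 0 → MvPolynomial.eval s P = 0) ∧
      ∀ (W : Corr k K u) (r : ℕ), W.FibresLE r → 2 * W.X.m + 2 * (r * e) ≤ W.X.size →
        W.ConstantOn z}.Finite := by
  classical
  refine finite_of_nondense (u := u) (fun s hs => hs.1.1) fun E _ _ w z hw hz hex => ?_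
  obtain ⟨s₀, hs₀, hs₀z⟩ := hex
  have h1 : ∃ (W : Corr k K u) (r : ℕ), W.FibresLE r ∧ 2 * W.X.m + 2 * (r * e) ≤ W.X.size ∧
      ¬ W.ConstantOn z := by
    by_contra hcon
    push Not at hcon
    exact hs₀.2 ⟨E, inferInstance, inferInstance, w, z, hw, hz, hs₀z, hcon⟩
  obtain ⟨W, r, hr, hd, hW⟩ := h1
  unfold Corr.ConstantOn at hW
  push Not at hW
  obtain ⟨φ, hφ, v, hv, hne⟩ := hW
  obtain ⟨G, hG, hG'⟩ := nondense hr hz.gen hφ hv hne hd T hR
  exact ⟨G, hG, fun s hs hsz => hG' s ⟨hsz, hs.1.2.1, hs.1.2.2⟩⟩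

end

end Pool.Agent.N111.GJ
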