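import Pool.Agent.N111.GJ.Lift

/-!
Quasi-finite correspondences are generically finite on all subvarieties.
-/

set_option autoImplicit false
set_option linter.overlappingInstances false
set_option linter.unusedSectionVars false
set_option maxHeartbeats 1000000

open IntermediateField

namespace Pool.Agent.N111.GJ

open Pool.Agent.TH466.QG (Sp)
open Pool.Agent.N111.GI (sp_pts alg_pts)
open Pool.Agent.N111.FT (aclo mem_aclo map_mem_aclo_iff)

section

variable {k K : Type} [Field k] [Field K] [Algebra k K] {L : Type} [Field L] [Algebra K L]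
    {N : ℕ} {u : Fin N → L} (W : Corr k K u)

variable {W}

/-- **Quasi-finite correspondences**: the base coordinates are algebraic over the values. -/
theorem alg_of_qf [IsAlgClosed K] [CharZero K] (hqf : W.QuasiFinite) {Ω : Type} [Field Ω]
    [Algebra K Ω] (φ : W.ring →ₐ[K] Ω) (j : Fin N) :
    IsAlgebraic (adjoin K (W.values φ)) (φ ⟨_, W.base_mem j⟩) := by
  classical
  obtain ⟨q, y, hy⟩ := W.enum'
  have hym : ∀ i, (y i : W.L') ∈ W.mons := by
    intro i
    have h1 : y i ∈ Set.range y := ⟨i, rfl⟩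
    rw [hy] at h1
    exact h1
  have hym' : ∀ y' : W.ring, (y' : W.L') ∈ W.mons → ∃ i, y i = y' := by
    intro y' h'
    have h1 : y' ∈ {y : W.ring | (y : W.L') ∈ W.mons} := h'
    rw [← hy] at h1
    exact h1
  by_contra htr
  -- the field of the point
  obtain ⟨M₀, hM₀⟩ : ∃ M₀ : IntermediateField K Ω, M₀ = adjoin K
    (Set.range (fun j => φ ⟨_, W.base_mem j⟩) ∪ Set.range fun i => φ (y i)) := ⟨_, rfl⟩
  have hmem : ∀ b, φ b ∈ M₀ := by
    intro b
    induction b using W.induct with
    | hu j =>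
      rw [hM₀]
      exact subset_adjoin _ _ (Or.inl ⟨j, rfl⟩)
    | hy y' hy' =>
      obtain ⟨i, rfl⟩ := hym' y' hy'
      rw [hM₀]
      exact subset_adjoin _ _ (Or.inr ⟨i, rfl⟩)
    | hc c =>
      rw [AlgHom.commutes]
      exact M₀.algebraMap_mem c
    | hadd a b ha hb =>
      rw [map_add]
      exact add_mem ha hb
    | hmul a b ha hb =>
      rw [map_mul]
      exact mul_mem ha hb
  let φ₀ : W.ring →ₐ[K] M₀ := φ.codRestrict M₀.toSubalgebra hmem
  have hφ₀ : ∀ b, ((φ₀ b : M₀) : Ω) = φ b := fun b => rfl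
  let a : Fin N → M₀ := fun j => φ₀ ⟨_, W.base_mem j⟩
  let y' : Fin q → M₀ := fun i => φ₀ (y i)
  have hess : Algebra.EssFiniteType K M₀ := by
    rw [IntermediateField.essFiniteType_iff, hM₀]
    exact IntermediateField.fg_adjoin_of_finite ((Set.finite_range _).union (Set.finite_range _))
  let F₁ : IntermediateField K M₀ := adjoin K (Set.range y')
  have htr' : Transcendental F₁ (a j) := by
    intro halg
    apply htr
    have h1 : a j ∈ aclo K (Set.range y') := mem_aclo.2 halg
    rw [← map_mem_aclo_iff M₀.val, ← Set.range_comp] at h1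
    rw [← mem_aclo]
    refine Pool.Agent.N111.FT.aclo_mono ?_ h1
    rintro _ ⟨i, rfl⟩
    exact ⟨y i, hym i, rfl⟩
  -- a transcendence basis
  obtain ⟨s₂, hs₂, hB₂⟩ := exists_isTranscendenceBasis_superset (R := F₁) (s := {a j}) (by
    have h1 : AlgebraicIndependent F₁ (fun i : ({a j} : Set M₀) => (i : M₀)) := by
      rw [algebraicIndependent_unique_type_iff]
      exact htr'
    exact h1)
  obtain ⟨s₁, hB₁⟩ := exists_isTranscendenceBasis K F₁
  have hB := hB₁.sumElim_comp hB₂
  obtain ⟨x, hx⟩ : ∃ x : s₂ ⊕ s₁ → M₀, x = Sum.elim (fun i : s₂ => (i : M₀))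
    (algebraMap F₁ M₀ ∘ ((↑) : s₁ → F₁)) := ⟨_, rfl⟩
  rw [← hx] at hB
  have hfin : Finite (s₂ ⊕ s₁) := finite_of_isTranscendenceBasis hB
  have hfin₁ : Finite s₁ := Finite.of_injective (Sum.inr : s₁ → s₂ ⊕ s₁) Sum.inr_injective
  let L₀ : IntermediateField K M₀ := adjoin K (Set.range x)
  have halgL : Algebra.IsAlgebraic L₀ M₀ := hB.isAlgebraic_field
  have hessL : Algebra.EssFiniteType L₀ M₀ := Algebra.EssFiniteType.of_comp K L₀ M₀
  have hfdL : FiniteDimensional L₀ M₀ := Algebra.finite_of_essFiniteType_of_isAlgebraic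
  let x' : s₂ ⊕ s₁ → L₀ := fun i => ⟨x i, subset_adjoin _ _ ⟨i, rfl⟩⟩
  have hx'top : adjoin K (Set.range x') = ⊤ := by
    apply IntermediateField.map_injective L₀.val
    rw [← AlgHom.fieldRange_eq_map, IntermediateField.fieldRange_val,
      IntermediateField.adjoin_map, ← Set.range_comp]
    rfl
  -- the values are algebraic over the first part of the basis
  obtain ⟨H₂, hH₂, Q, hQ0, hQ⟩ := alg_pts (K := K) (M := M₀)
    (fun i : s₁ => x (Sum.inr i)) y' (fun m => by
      have h1 : (⟨y' m, subset_adjoin _ _ ⟨m, rfl⟩⟩ : F₁) ∈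
          aclo K (Set.range ((↑) : s₁ → F₁)) := by
        rw [mem_aclo]
        have h2 : Algebra.IsAlgebraic (adjoin K (Set.range ((↑) : s₁ → F₁))) F₁ :=
          hB₁.isAlgebraic_field
        exact h2.isAlgebraic _
      rw [← map_mem_aclo_iff F₁.val, ← Set.range_comp] at h1
      have h2 : (F₁.val ∘ ((↑) : s₁ → F₁)) = fun i : s₁ => x (Sum.inr i) := by
        rw [hx]
        rfl
      rw [h2] at h1
      exact h1)
  obtain ⟨H, hH, hsp⟩ := sp_pts (K := K) (L := L₀) (M := M₀) hx'top
    (Θ := (Set.range a ∪ Set.range y') ∪ {(MvPolynomial.aeval (fun i : s₁ => x (Sum.inr i)) H₂)⁻¹})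
    (((Set.finite_range _).union (Set.finite_range _)).union (Set.finite_singleton _))
  have hH0 : H ≠ 0 := by
    intro h
    rw [h, map_zero] at hH
    exact hH rfl
  have hrel : ∀ G : MvPolynomial (s₂ ⊕ s₁) K, MvPolynomial.aeval x' G = 0 → G = 0 := by
    intro G hG
    have h1 : MvPolynomial.aeval x G = 0 := by
      have h2 : MvPolynomial.aeval x G = algebraMap L₀ M₀ (MvPolynomial.aeval x' G) :=
        MvPolynomial.aeval_algebraMap_apply M₀ x' G
      rw [h2, hG, map_zero]
    exact (algebraicIndependent_iff.1 hB.1) G h1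
  obtain ⟨t₀, ht₀⟩ : ∃ t₀ : s₂ ⊕ s₁ → K, MvPolynomial.eval t₀ H ≠ 0 := by
    by_contra hcon
    push Not at hcon
    exact hH0 (MvPolynomial.funext fun t => by rw [hcon t, map_zero])
  let i₀ : s₂ ⊕ s₁ := Sum.inl ⟨a j, hs₂ rfl⟩
  -- the line of points
  let h : Polynomial K := MvPolynomial.aeval (fun i => if i = i₀ then Polynomial.X else
    Polynomial.C (t₀ i)) H
  have hval : ∀ τ, h.eval τ = MvPolynomial.eval (Function.update t₀ i₀ τ) H := by
    intro τ
    have h1 : (Polynomial.aeval τ : Polynomial K →ₐ[K] K).comp (MvPolynomial.aeval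
        (fun i => if i = i₀ then Polynomial.X else Polynomial.C (t₀ i))) =
        MvPolynomial.aeval (Function.update t₀ i₀ τ) := by
      apply MvPolynomial.algHom_ext
      intro i
      rw [AlgHom.comp_apply, MvPolynomial.aeval_X, MvPolynomial.aeval_X]
      by_cases hi : i = i₀
      · rw [if_pos hi, hi, Function.update_self, Polynomial.aeval_X]
      · rw [if_neg hi, Function.update_of_ne hi, Polynomial.aeval_C]
        rfl
    rw [← MvPolynomial.aeval_eq_eval, ← h1, AlgHom.comp_apply, Polynomial.coe_aeval_eq_eval]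
  have hne : h ≠ 0 := by
    intro h0
    apply ht₀
    have h1 := hval (t₀ i₀)
    rw [Function.update_eq_self, h0, Polynomial.eval_zero] at h1
    exact h1.symm
  have hinf : {τ : K | h.eval τ ≠ 0}.Infinite := by
    have h1 : {τ : K | h.eval τ = 0}.Finite := by
      refine (h.roots.toFinset.finite_toSet).subset fun τ hτ => ?_
      rw [Finset.mem_coe, Multiset.mem_toFinset, Polynomial.mem_roots hne]
      exact hτ
    exact h1.infinite_compl
  -- finiteness of the points with the given values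
  have hfib : ∀ w : Fin q → K, {φ' : W.ring →ₐ[K] K | ∀ i, φ' (y i) = w i}.Finite := by
    intro w
    rcases Set.eq_empty_or_nonempty {φ' : W.ring →ₐ[K] K | ∀ i, φ' (y i) = w i} with h0 | ⟨φ₁, h1⟩
    · rw [h0]
      exact Set.finite_empty
    · refine (hqf φ₁).subset fun φ' hφ' y'' hy'' => ?_
      obtain ⟨i, rfl⟩ := hym' y'' hy''
      rw [hφ' i]
      exact (h1 i).symm
  let v' : s₁ → K := fun i => t₀ (Sum.inr i)
  have hΦ : {φ' : W.ring →ₐ[K] K | ∀ i, (Q i v').eval (φ' (y i)) = 0}.Finite := by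
    have h1 : (Set.univ.pi fun i : Fin q => (↑(Q i v').roots.toFinset : Set K)).Finite :=
      Set.Finite.pi fun i => Finset.finite_toSet _
    refine (h1.biUnion fun w _ => hfib w).subset fun φ' hφ' => ?_
    refine Set.mem_biUnion (x := fun i => φ' (y i)) (fun i _ => ?_) (fun i => rfl)
    rw [Finset.mem_coe, Multiset.mem_toFinset, Polynomial.mem_roots (hQ0 i v')]
    exact hφ' i
  refine hinf ((hΦ.image fun φ' => φ' ⟨_, W.base_mem j⟩).subset fun τ hτ => ?_)
  change h.eval τ ≠ 0 at hτ
  rw [hval] at hτ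
  obtain ⟨S, hSx, hSΘ⟩ := hsp (Function.update t₀ i₀ τ) (fun G hG => by
    rw [hrel G hG, map_zero]) hτ
  have hSx' : ∀ i, S.T (x i) (Function.update t₀ i₀ τ i) := hSx
  obtain ⟨φ', hφ'⟩ := hom_of_sp S φ₀ fun b => by
    induction b using W.induct with
    | hu j => exact hSΘ _ (Or.inl (Or.inl ⟨j, rfl⟩))
    | hy y' hy' =>
      obtain ⟨i, rfl⟩ := hym' y' hy'
      exact hSΘ _ (Or.inl (Or.inr ⟨i, rfl⟩))
    | hc c =>
      rw [AlgHom.commutes]
      exact ⟨_, S.const c⟩
    | hadd a b ha hb =>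
      obtain ⟨s, hs⟩ := ha
      obtain ⟨t, ht⟩ := hb
      rw [map_add]
      exact ⟨_, S.add hs ht⟩
    | hmul a b ha hb =>
      obtain ⟨s, hs⟩ := ha
      obtain ⟨t, ht⟩ := hb
      rw [map_mul]
      exact ⟨_, S.mul hs ht⟩
  refine ⟨φ', fun i => ?_, ?_⟩
  · refine hQ S (hSΘ _ (Or.inr rfl)) v' (fun m => ?_) i _ (hφ' (y i))
    have h1 := hSx' (Sum.inr m)
    rwa [Function.update_of_ne (by simp [i₀])] at h1
  · have h1 := hφ' ⟨_, W.base_mem j⟩
    have h2 := hSx' i₀
    rw [Function.update_self] at h2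
    have h3 : x i₀ = φ₀ ⟨_, W.base_mem j⟩ := by
      rw [hx]
      rfl
    rw [h3] at h2
    exact S.ext h1 h2

/-- quasi-finite correspondences are generically finite on all subvarieties -/
theorem gf_of_qf [IsAlgClosed K] [CharZero K] (hqf : W.QuasiFinite) {E : Type} [Field E]
    [Algebra K E] {z : Fin N → E} {w : ℕ} (hz : IsSub K u z w) : W.GenericallyFiniteOn z := by
  obtain ⟨φ, hφ⟩ := W.exists_over (Ω := AlgebraicClosure E)
    (z := fun j => algebraMap E _ (z j)) fun P hP => by
      have h1 : MvPolynomial.aeval (fun j => algebraMap E (AlgebraicClosure E) (z j)) P =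
          algebraMap E (AlgebraicClosure E) (MvPolynomial.aeval z P) :=
        MvPolynomial.aeval_algebraMap_apply _ z P
      rw [h1, hz.rel P hP, map_zero]
  refine ⟨φ, hφ, fun j => ?_⟩
  have h1 := alg_of_qf hqf φ j
  rwa [hφ j _ rfl] at h1

/-- quasi-finite correspondences are not constant on subvarieties of positive dimension -/
theorem not_constant_of_qf [IsAlgClosed K] [CharZero K] (hqf : W.QuasiFinite) {E : Type} [Field E]
    [Algebra K E] {z : Fin N → E} {w : ℕ} (hw : 0 < w) (hz : IsSub K u z w) :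
    ¬ W.ConstantOn z := by
  intro hc
  obtain ⟨φ, hφ, halg⟩ := gf_of_qf hqf hz
  have h1 := hc φ hφ
  have h2 : ∀ t : AlgebraicClosure E, t ∈ aclo K (W.values φ) := alg_values hz.gen halg
  have h3 : adjoin K (W.values φ) = ⊥ := by
    rw [eq_bot_iff, adjoin_le_iff]
    exact fun v hv => h1 v hv
  have h4 : Algebra.IsAlgebraic K E := by
    constructor
    intro t
    have h5 := mem_aclo.1 (h2 (algebraMap E _ t))
    rw [h3] at h5
    have h6 : IsAlgebraic K (algebraMap E (AlgebraicClosure E) t) := by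
      obtain ⟨p, hp, hpt⟩ := h5
      refine ⟨p.map (IntermediateField.botEquiv K (AlgebraicClosure E)).toRingEquiv.toRingHom, ?_, ?_⟩
      · rw [Ne, Polynomial.map_eq_zero]
        exact hp
      · rw [← hpt, Polynomial.aeval_def, Polynomial.eval₂_map, Polynomial.aeval_def]
        congr 1
        ext b
        obtain ⟨c, rfl⟩ := (IntermediateField.botEquiv K (AlgebraicClosure E)).symm.surjective b
        simp
    exact (isAlgebraic_algebraMap_iff (algebraMap E (AlgebraicClosure E)).injective).1 h6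
  have h5 := hz.dim
  rw [trdeg_eq_zero_iff.2 h4] at h5
  have h6 : w = 0 := by exact_mod_cast h5.symm
  omega

end

end Pool.Agent.N111.GJ
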