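import Pool.Agent.N111.GJ.Cv

/-!
Correspondences from open subsets of the affine line are quasi-finite, if they are not constant.
-/

set_option autoImplicit false
set_option linter.overlappingInstances false
set_option linter.unusedSectionVars false

open IntermediateField Polynomial

namespace Pool.Agent.N111.GJ

section

variable {k K : Type} [Field k] [Field K] [Algebra k K] {L : Type} [Field L] [Algebra K L]
    {N : ℕ} {u : Fin N → L} (W : Corr k K u)

/-- nonzero integral elements divide nonzero elements of the base -/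
theorem Corr.exists_mult {y : W.ring} (hy0 : y ≠ 0) (n : ℕ) :
    ∀ (c : ℕ → MvPolynomial (Fin N) K),
      y ^ n + ∑ i ∈ Finset.range n, MvPolynomial.aeval W.uR (c i) * y ^ i = 0 →
      ∃ (P : MvPolynomial (Fin N) K) (s : W.ring), MvPolynomial.aeval u P ≠ 0 ∧
        MvPolynomial.aeval W.uR P = y * s := by
  induction n with
  | zero =>
    intro c h
    rw [pow_zero, Finset.range_zero, Finset.sum_empty, add_zero] at h
    exact absurd h one_ne_zero
  | succ n ih =>
    intro c h
    rw [Finset.sum_range_succ', pow_zero, mul_one] at h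
    have h1 : ∑ i ∈ Finset.range n, MvPolynomial.aeval W.uR (c (i + 1)) * y ^ (i + 1) =
        (∑ i ∈ Finset.range n, MvPolynomial.aeval W.uR (c (i + 1)) * y ^ i) * y := by
      rw [Finset.sum_mul]
      refine Finset.sum_congr rfl fun i _ => ?_
      rw [pow_succ]
      ring
    rw [h1] at h
    by_cases h0 : MvPolynomial.aeval u (c 0) = 0
    · have h2 : MvPolynomial.aeval W.uR (c 0) = 0 := by
        apply Subtype.ext
        rw [W.ring_aeval, h0, map_zero]
        rfl
      rw [h2, add_zero] at h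
      refine ih (fun i => c (i + 1)) ?_
      have h3 : y * (y ^ n + ∑ i ∈ Finset.range n,
          MvPolynomial.aeval W.uR (c (i + 1)) * y ^ i) = 0 := by
        rw [← h]
        ring
      exact (mul_eq_zero.1 h3).resolve_left hy0
    · refine ⟨c 0, -(y ^ n + ∑ i ∈ Finset.range n,
        MvPolynomial.aeval W.uR (c (i + 1)) * y ^ i), h0, ?_⟩
      linear_combination h

end

section

variable {k K : Type} [Field k] [Field K] [Algebra k K] {L : Type} [Field L] [Algebra K L]
    {q : ℕ} {f : L} {a : Fin q → K[X]} (W : Corr k K (cv f a))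

/-- the values of the coordinates -/
theorem Corr.cv_hom {F : Type} [Field F] [Algebra K F] (hf : Transcendental K f)
    (ha : ∀ j, a j ≠ 0) (φ : W.ring →ₐ[K] F) :
    (∀ j, aeval (φ (W.uR 0)) (a j) ≠ 0) ∧ (fun j => φ (W.uR j)) = cv (φ (W.uR 0)) a := by
  have h1 : ∀ p : K[X], ((aeval (W.uR 0) p : W.ring) : W.L') = algebraMap L W.L' (aeval f p) := by
    intro p
    have h2 : ((aeval (W.uR 0) p : W.ring) : W.L') = aeval (algebraMap L W.L' f) p := by
      have h3 := Polynomial.aeval_algHom_apply W.ring.val (W.uR 0) p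
      exact h3.symm
    rw [h2]
    exact Polynomial.aeval_algebraMap_apply W.L' f p
  have h2 : ∀ j : Fin q, W.uR j.succ * aeval (W.uR 0) (a j) = 1 := by
    intro j
    apply Subtype.ext
    rw [MulMemClass.coe_mul, h1]
    change algebraMap L W.L' ((aeval f (a j))⁻¹) * _ = 1
    rw [← map_mul, inv_mul_cancel₀ (aeval_ne hf (ha j)), map_one]
  have h3 : ∀ j : Fin q, φ (W.uR j.succ) * aeval (φ (W.uR 0)) (a j) = 1 := by
    intro j
    have h4 := congrArg φ (h2 j)
    rw [map_mul, map_one, ← Polynomial.aeval_algHom_apply] at h4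
    exact h4
  have h4 : ∀ j, aeval (φ (W.uR 0)) (a j) ≠ 0 := fun j => right_ne_zero_of_mul_eq_one (h3 j)
  refine ⟨h4, ?_⟩
  funext j
  rcases Fin.eq_zero_or_eq_succ j with rfl | ⟨j, rfl⟩
  · rfl
  · change φ (W.uR j.succ) = (aeval (φ (W.uR 0)) (a j))⁻¹
    exact eq_inv_of_mul_eq_one_left (h3 j)

variable {W}

/-- **Nonconstant correspondences from curves are quasi-finite.** -/
theorem qf_of_ne (hf : Transcendental K f) (ha : ∀ j, a j ≠ 0)
    (hW : ∃ y : W.ring, (y : W.L') ∈ W.mons ∧ (y : W.L') ∉ Set.range (algebraMap K W.L')) :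
    W.QuasiFinite := by
  classical
  obtain ⟨y, hym, hy⟩ := hW
  intro c
  obtain ⟨y₁, hy₁⟩ : ∃ y₁ : W.ring, y₁ = y - algebraMap K W.ring (c y) := ⟨_, rfl⟩
  have hy₁0 : y₁ ≠ 0 := by
    intro h0
    rw [hy₁, sub_eq_zero] at h0
    exact hy ⟨c y, (congrArg (fun t : W.ring => (t : W.L')) h0).symm⟩
  -- the equation
  have hint : IsIntegral (Algebra.adjoin K (Set.range (cv f a))) (y₁ : W.L') := by
    rw [hy₁]
    refine IsIntegral.sub (W.mons_int hym) ?_
    change IsIntegral _ (algebraMap K W.L' (c y))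
    rw [IsScalarTower.algebraMap_apply K (Algebra.adjoin K (Set.range (cv f a))) W.L']
    exact isIntegral_algebraMap
  obtain ⟨n, e, he⟩ := Pool.Agent.Y735.LB.exists_monic hint
  have hP : ∀ i, ∃ P : MvPolynomial (Fin (q + 1)) K,
      MvPolynomial.aeval (cv f a) P = (e i : L) := by
    intro i
    obtain ⟨b, hb⟩ := e i
    change ∃ P : MvPolynomial (Fin (q + 1)) K, MvPolynomial.aeval (cv f a) P = b
    rw [Algebra.adjoin_range_eq_range_aeval] at hb
    exact hb
  choose P hP using hP
  obtain ⟨P₀, s, hP₀, hs⟩ := W.exists_mult hy₁0 n P (by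
    apply Subtype.ext
    refine Eq.trans ?_ he
    rw [AddMemClass.coe_add, SubmonoidClass.coe_pow, AddSubmonoidClass.coe_finsetSum]
    congr 1
    refine Finset.sum_congr rfl fun i _ => ?_
    rw [MulMemClass.coe_mul, SubmonoidClass.coe_pow, W.ring_aeval, hP]
    rfl)
  obtain ⟨m, Q, hQ⟩ := cv_rel a P₀
  have hQ0 : Q ≠ 0 := by
    intro h0
    have h1 := hQ L f fun j => aeval_ne hf (ha j)
    rw [h0, map_zero] at h1
    refine (mul_ne_zero hP₀ (pow_ne_zero _ ?_)) h1
    exact aeval_ne hf (Finset.prod_ne_zero_iff.2 fun j _ => ha j)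
  refine Set.Finite.of_finite_image (f := fun φ : W.ring →ₐ[K] K => φ (W.uR 0)) ?_ ?_
  · refine (Q.roots.toFinset.finite_toSet).subset ?_
    rintro _ ⟨φ, hφ, rfl⟩
    obtain ⟨h1, h2⟩ := W.cv_hom hf ha φ
    have h3 := hQ K (φ (W.uR 0)) h1
    have h4 : φ y₁ = 0 := by
      rw [hy₁, map_sub, hφ y hym, AlgHom.commutes]
      exact sub_self _
    have h5 := congrArg φ hs
    rw [map_mul, h4, zero_mul, W.hom_aeval, h2] at h5
    rw [h5, zero_mul] at h3
    rw [Finset.mem_coe, Multiset.mem_toFinset, Polynomial.mem_roots hQ0]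
    exact h3.symm
  · intro φ hφ ψ hψ h0
    change φ (W.uR 0) = ψ (W.uR 0) at h0
    obtain ⟨-, h1⟩ := W.cv_hom hf ha φ
    obtain ⟨-, h2⟩ := W.cv_hom hf ha ψ
    rw [← h0, ← h1] at h2
    apply AlgHom.ext
    intro b
    induction b using W.induct with
    | hu j => exact (congrFun h2 j).symm
    | hy y' hy' => rw [hφ y' hy', hψ y' hy']
    | hc c => rw [AlgHom.commutes, AlgHom.commutes]
    | hadd a b ha hb => rw [map_add, map_add, ha, hb]
    | hmul a b ha hb => rw [map_mul, map_mul, ha, hb]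

end

end Pool.Agent.N111.GJ
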