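import Pool.Agent.N111.GJ.Def
import Pool.Agent.N111.GI.Maps

/-!
Points of correspondences over points of normal varieties.
-/

set_option autoImplicit false
set_option linter.overlappingInstances false
set_option linter.unusedSectionVars false

open FF Polynomial IntermediateField

namespace Pool.Agent.N111.GJ

section deg

variable {K L L' E Ω : Type} [Field K] [Field L] [Field L'] [Algebra K L] [Algebra K L']
  [Algebra L L'] [IsScalarTower K L L'] [FiniteDimensional L L'] [Field E] [Field Ω] [Algebra K E]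
  [Algebra K Ω] [Algebra E Ω] [IsScalarTower K E Ω] {N : ℕ}

/-- the values of the functions on the base -/
theorem spec_base {u : Fin N → L} {B : Subalgebra K L'} {φ : B →ₐ[K] Ω} {z : Fin N → E}
    (hB : ∀ j, algebraMap L L' (u j) ∈ B)
    (hφ : ∀ j, φ ⟨_, hB j⟩ = algebraMap E Ω (z j)) {a : L} (ha : a ∈ Algebra.adjoin K (Set.range u)) :
    ∃ (b : B) (e : E), (b : L') = algebraMap L L' a ∧ e ∈ Algebra.adjoin K (Set.range z) ∧
      φ b = algebraMap E Ω e := by
  induction ha using Algebra.adjoin_induction with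
  | mem x hx =>
    obtain ⟨j, rfl⟩ := hx
    exact ⟨⟨_, hB j⟩, z j, rfl, Algebra.subset_adjoin ⟨j, rfl⟩, hφ j⟩
  | algebraMap c =>
    refine ⟨algebraMap K B c, algebraMap K E c, ?_, Subalgebra.algebraMap_mem _ _, ?_⟩
    · rw [← IsScalarTower.algebraMap_apply K L L']
      rfl
    · rw [AlgHom.commutes, ← IsScalarTower.algebraMap_apply K E Ω]
  | add x y _ _ hx hy =>
    obtain ⟨b, e, h1, h3, h2⟩ := hx
    obtain ⟨b', e', h1', h3', h2'⟩ := hy
    exact ⟨b + b', e + e', by rw [map_add, ← h1, ← h1']; rfl, add_mem h3 h3',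
      by rw [map_add, map_add, h2, h2']⟩
  | mul x y _ _ hx hy =>
    obtain ⟨b, e, h1, h3, h2⟩ := hx
    obtain ⟨b', e', h1', h3', h2'⟩ := hy
    exact ⟨b * b', e * e', by rw [map_mul, ← h1, ← h1']; rfl, mul_mem h3 h3',
      by rw [map_mul, map_mul, h2, h2']⟩

/-- the equations of the values -/
theorem spec_int {u : Fin N → L} {B : Subalgebra K L'} {φ : B →ₐ[K] Ω} {z : Fin N → E}
    (hB : ∀ j, algebraMap L L' (u j) ∈ B)
    (hφ : ∀ j, φ ⟨_, hB j⟩ = algebraMap E Ω (z j)) {θ : B}
    (hθ : IsIntegral (Algebra.adjoin K (Set.range u)) (θ : L')) :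
    ∃ p : E[X], p.Monic ∧ (∀ i, p.coeff i ∈ Algebra.adjoin K (Set.range z)) ∧
      aeval (φ θ) p = 0 := by
  classical
  obtain ⟨d, c, hc⟩ := Pool.Agent.Y735.LB.exists_monic hθ
  choose b e hb hez he using fun i => spec_base hB hφ (c i).2
  refine ⟨X ^ d + ∑ i ∈ Finset.range d, C (e i) * X ^ i, ?_, fun i => ?_, ?_⟩
  · refine Polynomial.monic_X_pow_add (Polynomial.mem_degreeLT.1 (Submodule.sum_mem _ fun i hi =>
      Polynomial.mem_degreeLT.2 (lt_of_le_of_lt (Polynomial.degree_C_mul_X_pow_le _ _) ?_)))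
    exact_mod_cast Finset.mem_range.1 hi
  · rw [coeff_add, coeff_X_pow, finsetSum_coeff]
    refine add_mem ?_ (sum_mem fun l _ => ?_)
    · split_ifs
      · exact one_mem _
      · exact zero_mem _
    · rw [coeff_C_mul, coeff_X_pow]
      split_ifs
      · rw [mul_one]
        exact hez l
      · rw [mul_zero]
        exact zero_mem _
  · have h1 : θ ^ d + ∑ i ∈ Finset.range d, b i * θ ^ i = 0 := by
      apply Subtype.ext
      refine Eq.trans ?_ hc
      rw [AddMemClass.coe_add, SubmonoidClass.coe_pow, AddSubmonoidClass.coe_finsetSum]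
      congr 1
      refine Finset.sum_congr rfl fun i _ => ?_
      rw [MulMemClass.coe_mul, SubmonoidClass.coe_pow, hb i]
      rfl
    have h2 := congrArg φ h1
    rw [map_zero, map_add, map_pow, map_sum] at h2
    rw [map_add, map_pow, aeval_X, map_sum]
    refine Eq.trans ?_ h2
    congr 1
    refine Finset.sum_congr rfl fun i _ => ?_
    rw [map_mul, map_mul, map_pow, map_pow, aeval_C, aeval_X, he i]

end deg

section point

variable {k K : Type} [Field k] [Field K] [Algebra k K] {L : Type} [Field L] [Algebra K L]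
    {N : ℕ} {u : Fin N → L} (W : Corr k K u)

open Classical in
/-- the coordinate functions of `U`, as elements of the ring of functions on `W` -/
noncomputable def Corr.Y (b : W.X.A) (I : Fin (W.X.n + 1) →₀ ℕ) : W.ring :=
  if h : b ∉ W.X.C ∧ I.degree = W.X.d b then
    ⟨W.X.mon W.x b I, Algebra.subset_adjoin (Or.inr ⟨b, I, h.1, h.2, rfl⟩)⟩ else 0

theorem Corr.Y_val {b : W.X.A} {I : Fin (W.X.n + 1) →₀ ℕ} (hb : b ∉ W.X.C)
    (hI : I.degree = W.X.d b) : (W.Y b I : W.L') = W.X.mon W.x b I := by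
  unfold Corr.Y
  rw [dif_pos ⟨hb, hI⟩]

theorem Corr.Y_mem {b : W.X.A} {I : Fin (W.X.n + 1) →₀ ℕ} (hb : b ∉ W.X.C)
    (hI : I.degree = W.X.d b) : (W.Y b I : W.L') ∈ W.mons :=
  ⟨b, I, hb, hI, W.Y_val hb hI⟩

variable {W}

theorem pow_prod {ι F : Type} [Fintype ι] [Field F] (x : ι → F) (c : F) (I : ι →₀ ℕ) :
    ∏ i, (c * x i) ^ I i = c ^ I.degree * ∏ i, x i ^ I i := by
  classical
  rw [Finset.prod_congr rfl fun i _ => mul_pow c (x i) (I i), Finset.prod_mul_distrib,
    Finset.prod_pow_eq_pow_sum]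
  congr 2
  rw [Finsupp.degree_eq_sum]

theorem prod_single {ι F : Type} [Fintype ι] [DecidableEq ι] [Field F] (x : ι → F) (j : ι) (d : ℕ) :
    ∏ i, x i ^ (Finsupp.single j d : ι →₀ ℕ) i = x j ^ d := by
  rw [Finset.prod_eq_single j]
  · rw [Finsupp.single_eq_same]
  · intro i _ hij
    rw [Finsupp.single_eq_of_ne hij, pow_zero]
  · intro h
    exact absurd (Finset.mem_univ j) h

theorem form_val {F : Type} [Field F] [Algebra K F] {n : ℕ} {G : MvPolynomial (Fin (n + 1)) K}
    (x : Fin (n + 1) → F) : MvPolynomial.aeval x G =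
      ∑ I ∈ G.support, algebraMap K F (G.coeff I) * ∏ i, x i ^ I i := by
  rw [MvPolynomial.aeval_def, MvPolynomial.eval₂_eq']

/-- **The values of a point of a correspondence**: they are the values of the coordinate functions of
`U` at a point of `U`. -/
theorem spec_point {Ω : Type} [Field Ω] [Algebra K Ω] (φ : W.ring →ₐ[K] Ω) :
    ∃ (x' : Fin (W.X.n + 1) → Ω) (j0 : Fin (W.X.n + 1)), x' j0 = 1 ∧ W.X.Point x' ∧
      (∀ b I, b ∉ W.X.C → I.degree = W.X.d b → φ (W.Y b I) = W.X.mon x' b I) ∧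
      ∀ i, ∃ v₁ ∈ W.values φ, ∃ v₂ ∈ W.values φ, x' i = v₁ / v₂ := by
  classical
  obtain ⟨b0, hb0, hd0⟩ := W.X.affine
  obtain ⟨d, hd⟩ : ∃ d, d = W.X.d b0 := ⟨_, rfl⟩
  rw [← hd] at hd0
  have hdI : ∀ j : Fin (W.X.n + 1), (Finsupp.single j d).degree = W.X.d b0 := fun j => by
    rw [Finsupp.degree_single, hd]
  have hFb : ∀ b, b ∉ W.X.C → MvPolynomial.aeval W.x (W.X.F b) ≠ 0 := W.pt.notMem
  -- a nonzero value
  obtain ⟨j0, hj0⟩ : ∃ j0, φ (W.Y b0 (Finsupp.single j0 d)) ≠ 0 := by
    by_contra hcon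
    push Not at hcon
    have h1 : ∀ I : Fin (W.X.n + 1) →₀ ℕ, I.degree = W.X.d b0 → φ (W.Y b0 I) = 0 := by
      intro I hI
      have h2 : (W.Y b0 I) ^ d = ∏ j, (W.Y b0 (Finsupp.single j d)) ^ I j := by
        apply Subtype.ext
        rw [SubmonoidClass.coe_pow, SubmonoidClass.coe_finsetProd]
        simp only [SubmonoidClass.coe_pow]
        rw [W.Y_val hb0 hI, Finset.prod_congr rfl fun j _ => by rw [W.Y_val hb0 (hdI j)]]
        unfold GenericPair.mon
        simp only [prod_single]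
        have h4 : ∏ j, (W.x j ^ d / MvPolynomial.aeval W.x (W.X.F b0)) ^ I j =
            ((MvPolynomial.aeval W.x (W.X.F b0))⁻¹) ^ d * ∏ j, (W.x j ^ d) ^ I j := by
          have h5 := pow_prod (fun j => W.x j ^ d) ((MvPolynomial.aeval W.x (W.X.F b0))⁻¹) I
          rw [hI, ← hd] at h5
          rw [← h5]
          exact Finset.prod_congr rfl fun j _ => by rw [div_eq_mul_inv, mul_comm]
        rw [h4, div_pow, div_eq_mul_inv, mul_comm, inv_pow, ← Finset.prod_pow]
        congr 1
        exact Finset.prod_congr rfl fun j _ => by rw [← pow_mul, ← pow_mul, mul_comm]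
      have h3 := congrArg φ h2
      rw [map_pow, map_prod] at h3
      obtain ⟨j, hj⟩ : ∃ j, I j ≠ 0 := by
        by_contra h
        push Not at h
        have h4 : I = 0 := Finsupp.ext h
        rw [h4, map_zero, ← hd] at hI
        omega
      rw [Finset.prod_eq_zero (Finset.mem_univ j) (by rw [map_pow, hcon j, zero_pow hj])] at h3
      exact pow_eq_zero_iff (by omega) |>.1 h3
    have h2 : (1 : W.ring) = ∑ I ∈ (W.X.F b0).support,
        algebraMap K W.ring ((W.X.F b0).coeff I) * W.Y b0 I := by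
      apply Subtype.ext
      rw [AddSubmonoidClass.coe_finsetSum]
      change (1 : W.L') = ∑ I ∈ (W.X.F b0).support,
        algebraMap K W.L' ((W.X.F b0).coeff I) * (W.Y b0 I : W.L')
      have h3 : ∀ I ∈ (W.X.F b0).support, algebraMap K W.L' ((W.X.F b0).coeff I) *
          (W.Y b0 I : W.L') = (algebraMap K W.L' ((W.X.F b0).coeff I) * ∏ i, W.x i ^ I i) *
            (MvPolynomial.aeval W.x (W.X.F b0))⁻¹ := by
        intro I hI
        rw [W.Y_val hb0 (Pool.Agent.TH145.GH.deg_of_mem (W.X.F_form b0) hI)]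
        unfold GenericPair.mon
        rw [div_eq_mul_inv, mul_assoc]
      rw [Finset.sum_congr rfl h3, ← Finset.sum_mul, ← form_val, mul_inv_cancel₀ (hFb b0 hb0)]
    have h3 := congrArg φ h2
    rw [map_one, map_sum, Finset.sum_eq_zero] at h3
    · exact one_ne_zero h3
    · intro I hI
      rw [map_mul, h1 I (Pool.Agent.TH145.GH.deg_of_mem (W.X.F_form b0) hI), mul_zero]
  -- the coordinates
  obtain ⟨J, hJ⟩ : ∃ J : Fin (W.X.n + 1) → (Fin (W.X.n + 1) →₀ ℕ),
    J = fun i => Finsupp.single j0 (d - 1) + Finsupp.single i 1 := ⟨_, rfl⟩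
  have hJd : ∀ i, (J i).degree = W.X.d b0 := by
    intro i
    rw [hJ]
    change (Finsupp.single j0 (d - 1) + Finsupp.single i 1).degree = _
    rw [map_add, Finsupp.degree_single, Finsupp.degree_single]
    omega
  have hJ0 : J j0 = Finsupp.single j0 d := by
    rw [hJ]
    change Finsupp.single j0 (d - 1) + Finsupp.single j0 1 = _
    rw [← Finsupp.single_add]
    congr 1
    omega
  obtain ⟨c, hc⟩ : ∃ c, c = W.x j0 ^ (d - 1) / MvPolynomial.aeval W.x (W.X.F b0) := ⟨_, rfl⟩
  obtain ⟨a, ha⟩ : ∃ a : Fin (W.X.n + 1) → W.ring, a = fun i => W.Y b0 (J i) := ⟨_, rfl⟩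
  have hav : ∀ i, (a i : W.L') = c * W.x i := by
    intro i
    rw [ha]
    change (W.Y b0 (J i) : W.L') = _
    rw [W.Y_val hb0 (hJd i), hc, hJ]
    unfold GenericPair.mon
    have h1 : ∏ l, W.x l ^ (Finsupp.single j0 (d - 1) + Finsupp.single i 1 :
        Fin (W.X.n + 1) →₀ ℕ) l = W.x j0 ^ (d - 1) * W.x i := by
      rw [Finset.prod_congr rfl fun l _ => by rw [Finsupp.add_apply, pow_add],
        Finset.prod_mul_distrib, prod_single, prod_single, pow_one]
    rw [h1, mul_div_right_comm]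
  have ha0 : φ (a j0) ≠ 0 := by
    rw [ha]
    change φ (W.Y b0 (J j0)) ≠ 0
    rwa [hJ0]
  -- the values of forms
  have hval : ∀ G : MvPolynomial (Fin (W.X.n + 1)) K,
      ((MvPolynomial.aeval a G : W.ring) : W.L') = MvPolynomial.aeval (fun i => c * W.x i) G := by
    intro G
    have h1 : (W.ring.val).comp (MvPolynomial.aeval a) =
        MvPolynomial.aeval (fun i => c * W.x i) := by
      apply MvPolynomial.algHom_ext
      intro i
      rw [AlgHom.comp_apply, MvPolynomial.aeval_X, MvPolynomial.aeval_X]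
      exact hav i
    rw [← h1]
    rfl
  have hsm : ∀ (e : ℕ) (G : MvPolynomial (Fin (W.X.n + 1)) K), G.IsHomogeneous e →
      MvPolynomial.aeval (fun i => c * W.x i) G = c ^ e * MvPolynomial.aeval W.x G := by
    intro e G hG
    exact Pool.Agent.TH145.MG.aeval_smul hG (a := c) (x := W.x)
  have hφa : ∀ G : MvPolynomial (Fin (W.X.n + 1)) K, MvPolynomial.aeval (fun i => φ (a i)) G =
      φ (MvPolynomial.aeval a G) := by
    intro G
    have h1 : φ.comp (MvPolynomial.aeval a) = MvPolynomial.aeval (fun i => φ (a i)) := by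
      apply MvPolynomial.algHom_ext
      intro i
      rw [AlgHom.comp_apply, MvPolynomial.aeval_X, MvPolynomial.aeval_X]
    rw [← h1]
    rfl
  have hzero : ∀ (e : ℕ) (G : MvPolynomial (Fin (W.X.n + 1)) K), G.IsHomogeneous e →
      MvPolynomial.aeval W.x G = 0 →
      MvPolynomial.aeval (fun i => φ (a i) / φ (a j0)) G = 0 := by
    intro e G hG h
    rw [Pool.Agent.N111.GI.aeval_div hG, hφa]
    have h1 : MvPolynomial.aeval a G = 0 := by
      apply Subtype.ext
      rw [hval, hsm e G hG, h, mul_zero]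
      rfl
    rw [h1, map_zero, mul_zero]
  -- the boundary
  have hbd : ∀ b I, b ∉ W.X.C → I.degree = W.X.d b →
      φ (W.Y b I) * MvPolynomial.aeval (fun i => φ (a i)) (W.X.F b) = ∏ i, φ (a i) ^ I i := by
    intro b I hb hI
    have h1 : W.Y b I * MvPolynomial.aeval a (W.X.F b) = ∏ i, a i ^ I i := by
      apply Subtype.ext
      rw [MulMemClass.coe_mul, hval, hsm _ _ (W.X.F_form b), W.Y_val hb hI,
        SubmonoidClass.coe_finsetProd]
      simp only [SubmonoidClass.coe_pow]
      rw [Finset.prod_congr rfl fun i _ => by rw [hav i], pow_prod, hI]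
      unfold GenericPair.mon
      have := hFb b hb
      field_simp
    rw [hφa, ← map_mul, h1, map_prod]
    exact Finset.prod_congr rfl fun i _ => map_pow _ _ _
  have hne : ∀ b, b ∉ W.X.C → MvPolynomial.aeval (fun i => φ (a i)) (W.X.F b) ≠ 0 := by
    intro b hb h0
    have h1 := hbd b (Finsupp.single j0 (W.X.d b)) hb (Finsupp.degree_single _ _)
    rw [h0, mul_zero, prod_single] at h1
    exact pow_ne_zero _ ha0 h1.symm
  refine ⟨fun i => φ (a i) / φ (a j0), j0, div_self ha0, ⟨?_, ?_, ?_, ?_⟩, ?_, ?_⟩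
  · intro h
    have h1 := congrFun h j0
    change φ (a j0) / φ (a j0) = 0 at h1
    rw [div_self ha0] at h1
    exact one_ne_zero h1
  · intro f hf
    obtain ⟨e, he⟩ := W.X.V_form f hf
    exact hzero e _ (he.map _) (W.pt.mem_V f hf)
  · exact fun c hc => hzero _ _ (W.X.F_form c) (W.pt.mem_C c hc)
  · intro b hb
    rw [Pool.Agent.N111.GI.aeval_div (W.X.F_form b)]
    exact mul_ne_zero (pow_ne_zero _ (inv_ne_zero ha0)) (hne b hb)
  · intro b I hb hI
    unfold GenericPair.mon
    rw [Pool.Agent.N111.GI.aeval_div (W.X.F_form b)]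
    have h1 : ∏ i, (φ (a i) / φ (a j0)) ^ I i = ((φ (a j0))⁻¹) ^ W.X.d b *
        ∏ i, φ (a i) ^ I i := by
      rw [← hI, ← pow_prod]
      exact Finset.prod_congr rfl fun i _ => by rw [div_eq_mul_inv, mul_comm]
    rw [h1, mul_div_mul_left _ _ (pow_ne_zero _ (inv_ne_zero ha0)), ← hbd b I hb hI,
      mul_div_cancel_right₀ _ (hne b hb)]
  · intro i
    refine ⟨φ (a i), ⟨a i, ?_, rfl⟩, φ (a j0), ⟨a j0, ?_, rfl⟩, rfl⟩
    · rw [ha]
      exact W.Y_mem hb0 (hJd i)
    · rw [ha]
      exact W.Y_mem hb0 (hJd j0)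

/-! ### the ring of functions on `W` -/

variable (W)

theorem Corr.base_mem (j : Fin N) : algebraMap L W.L' (u j) ∈ W.ring :=
  Algebra.subset_adjoin (Or.inl ⟨j, rfl⟩)

theorem Corr.mons_int {y : W.ring} (hy : (y : W.L') ∈ W.mons) :
    IsIntegral (Algebra.adjoin K (Set.range u)) (y : W.L') := by
  obtain ⟨b, I, hb, hI, h⟩ := hy
  rw [h]
  exact W.integral b I hb hI

theorem Corr.mons_fin : {y : W.ring | (y : W.L') ∈ W.mons}.Finite := by
  classical
  have h1 : W.mons.Finite := by
    have h2 : ∀ b : W.X.A, Finite {I : Fin (W.X.n + 1) →₀ ℕ // I.degree = W.X.d b} := fun b =>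
      Pool.Agent.TH145.GH.finite_deg W.X.n (W.X.d b)
    refine (Set.finite_range fun p : (Σ b : W.X.A,
      {I : Fin (W.X.n + 1) →₀ ℕ // I.degree = W.X.d b}) => W.X.mon W.x p.1 p.2.1).subset ?_
    rintro y ⟨b, I, hb, hI, rfl⟩
    exact ⟨⟨b, I, hI⟩, rfl⟩
  exact h1.preimage Subtype.val_injective.injOn

theorem Corr.enum' : ∃ (q : ℕ) (y : Fin q → W.ring),
    Set.range y = {y : W.ring | (y : W.L') ∈ W.mons} := by
  obtain ⟨q, y, -, hy⟩ := W.mons_fin.fin_param
  exact ⟨q, y, hy⟩

/-- properties of functions on `W` which hold for the generators -/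
theorem Corr.induct {p : W.ring → Prop} (hu : ∀ j, p ⟨_, W.base_mem j⟩)
    (hy : ∀ y : W.ring, (y : W.L') ∈ W.mons → p y) (hc : ∀ c, p (algebraMap K W.ring c))
    (hadd : ∀ a b, p a → p b → p (a + b)) (hmul : ∀ a b, p a → p b → p (a * b)) (b : W.ring) :
    p b := by
  obtain ⟨b, hb⟩ := b
  have h1 : ∀ (t : W.L') (ht : t ∈ W.ring), p ⟨t, ht⟩ := by
    intro t ht
    have ht' := ht
    unfold Corr.ring at ht'
    induction ht' using Algebra.adjoin_induction with
    | mem x hx =>
      rcases hx with ⟨j, rfl⟩ | hx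
      · exact hu j
      · exact hy _ hx
    | algebraMap c => exact hc c
    | add x y hx' hy' hx hy =>
      exact hadd ⟨x, hx'⟩ ⟨y, hy'⟩ (hx hx') (hy hy')
    | mul x y hx' hy' hx hy =>
      exact hmul ⟨x, hx'⟩ ⟨y, hy'⟩ (hx hx') (hy hy')
  exact h1 b hb

/-- the coordinates of the base, as functions on `W` -/
def Corr.uR (j : Fin N) : W.ring := ⟨_, W.base_mem j⟩

theorem Corr.ring_aeval (P : MvPolynomial (Fin N) K) :
    ((MvPolynomial.aeval W.uR P : W.ring) : W.L') = algebraMap L W.L' (MvPolynomial.aeval u P) := by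
  have h1 : (W.ring.val).comp (MvPolynomial.aeval W.uR) =
      (IsScalarTower.toAlgHom K L W.L').comp (MvPolynomial.aeval u) := by
    apply MvPolynomial.algHom_ext
    intro j
    rw [AlgHom.comp_apply, AlgHom.comp_apply, MvPolynomial.aeval_X, MvPolynomial.aeval_X]
    rfl
  have h2 := DFunLike.congr_fun h1 P
  exact h2

theorem Corr.hom_aeval {F : Type} [Field F] [Algebra K F] (φ : W.ring →ₐ[K] F)
    (P : MvPolynomial (Fin N) K) :
    φ (MvPolynomial.aeval W.uR P) = MvPolynomial.aeval (fun j => φ (W.uR j)) P := by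
  have h1 : φ.comp (MvPolynomial.aeval W.uR) = MvPolynomial.aeval fun j => φ (W.uR j) := by
    apply MvPolynomial.algHom_ext
    intro j
    rw [AlgHom.comp_apply, MvPolynomial.aeval_X, MvPolynomial.aeval_X]
  exact DFunLike.congr_fun h1 P

/-- homomorphisms which agree on the coordinate functions -/
theorem Corr.hom_ext {F : Type} [Field F] [Algebra K F] {φ ψ : W.ring →ₐ[K] F}
    (hu : ∀ j, φ ⟨_, W.base_mem j⟩ = ψ ⟨_, W.base_mem j⟩)
    (hy : ∀ y : W.ring, (y : W.L') ∈ W.mons → φ y = ψ y) : φ = ψ := by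
  apply AlgHom.ext
  intro b
  induction b using W.induct with
  | hu j => exact hu j
  | hy y' hy' => exact hy y' hy'
  | hc c => rw [AlgHom.commutes, AlgHom.commutes]
  | hadd a b ha hb => rw [map_add, map_add, ha, hb]
  | hmul a b ha hb => rw [map_mul, map_mul, ha, hb]

end point

/-- homomorphisms given by specializations -/
theorem hom_of_sp {K B M : Type} [Field K] [CommRing B] [Algebra K B] [Field M] [Algebra K M]
    (S : Pool.Agent.TH466.QG.Sp K M K) (φ : B →ₐ[K] M) (h : ∀ b, ∃ t, S.T (φ b) t) :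
    ∃ φ' : B →ₐ[K] K, ∀ b, S.T (φ b) (φ' b) := by
  choose f hf using h
  refine ⟨{ toFun := f, map_one' := ?_, map_mul' := fun a b => ?_, map_zero' := ?_,
            map_add' := fun a b => ?_, commutes' := fun c => ?_ }, hf⟩
  · have h1 := hf 1
    rw [map_one] at h1
    exact S.ext h1 S.one
  · have h1 := hf (a * b)
    rw [map_mul] at h1
    exact S.ext h1 (S.mul (hf a) (hf b))
  · have h1 := hf 0
    rw [map_zero] at h1
    exact S.ext h1 S.zero
  · have h1 := hf (a + b)
    rw [map_add] at h1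
    exact S.ext h1 (S.add (hf a) (hf b))
  · have h1 := hf (algebraMap K B c)
    rw [AlgHom.commutes] at h1
    exact S.ext h1 (S.const c)

end Pool.Agent.N111.GJ
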