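import Pool.Agent.N111.GJ.Fin

/-!
The definitions for the statement of the theorem on finite correspondences between affine varieties
and generic pairs.
-/

set_option autoImplicit false
set_option linter.overlappingInstances false

namespace Pool.Agent.N111.GJ.FC

open Pool.Agent.W602.GT (LogGeneralType)

section

variable {k K : Type} [Field k] [Field K] [Algebra k K] (X : GenericPair k K) {L : Type} [Field L]
  [Algebra K L] {N : ℕ} (u : Fin N → L) {L' : Type} [Field L'] [Algebra K L'] [Algebra L L']
  (x : Fin (X.n + 1) → L')

/-- A finite correspondence `M ← W → U`, where `M` is the affine variety over `K` with function field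
`L` and coordinates `u`, and `U` is the variety defined by the generic pair `X`: the function field of
`W` is the finite extension `L'` of `L`, the map `W → U` is given by the point `x` of `U` with
coordinates in `L'`, and `W → M` is finite: the values at `x` of the functions `x ^ I / F b` on `U`,
`b ∉ C`, `|I| = d b`, which are the affine coordinates on `U`, are integral over the ring of
functions on `M`. -/
structure IsCorr : Prop where
  pt : X.Point x
  integral : ∀ (b : X.A) (I : Fin (X.n + 1) →₀ ℕ), b ∉ X.C → I.degree = X.d b →
    IsIntegral (Algebra.adjoin K (Set.range u)) (X.mon x b I)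

/-- the coordinate functions of `U` on `W` -/
def functions : Set L' :=
  {y | ∃ (b : X.A) (I : Fin (X.n + 1) →₀ ℕ), b ∉ X.C ∧ I.degree = X.d b ∧ y = X.mon x b I}

/-- The ring of functions on `W`, the closure of the graph in the product of `M` and `U`. -/
def ring : Subalgebra K L' :=
  Algebra.adjoin K (Set.range (fun j => algebraMap L L' (u j)) ∪ functions X x)

/-- The point `φ` of `W`, with values in a field `E`, lies over the point of `M` with the coordinates
`z`. -/
def Over {E : Type} [Field E] [Algebra K E] (φ : ring X u x →ₐ[K] E) (z : Fin N → E) : Prop :=
  ∀ (j : Fin N) (y : ring X u x), (y : L') = algebraMap L L' (u j) → φ y = z j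

/-- The values of the coordinate functions of `U` at the point `φ` of `W`. -/
def values {E : Type} [Field E] [Algebra K E] (φ : ring X u x →ₐ[K] E) : Set E :=
  {v | ∃ y : ring X u x, (y : L') ∈ functions X x ∧ v = φ y}

/-- The correspondence is constant on the closed subvariety `Z` of `M` with generic point `z` and
function field `E`: all points of `W` over the generic point of `Z` have values in `K`. -/
def ConstantOn {E : Type} [Field E] [Algebra K E] (z : Fin N → E) : Prop :=
  ∀ φ : ring X u x →ₐ[K] AlgebraicClosure E, Over X u x φ (fun j => algebraMap E _ (z j)) →
    ∀ v ∈ values X u x φ, v ∈ Set.range (algebraMap K (AlgebraicClosure E))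

/-- The correspondence is generically finite on the closed subvariety `Z` of `M` with generic point `z`
and function field `E`: there is a point of `W` over the generic point of `Z` such that the
functions on `Z` are algebraic over the field generated by its values. -/
def GenericallyFiniteOn {E : Type} [Field E] [Algebra K E] (z : Fin N → E) : Prop :=
  ∃ φ : ring X u x →ₐ[K] AlgebraicClosure E, Over X u x φ (fun j => algebraMap E _ (z j)) ∧
    ∀ j, IsAlgebraic (IntermediateField.adjoin K (values X u x φ))
      (algebraMap E (AlgebraicClosure E) (z j))

/-- The fibres of `W → M` over the points of `M` with coordinates in `K` have at most `r` points. -/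
def FibresLE (r : ℕ) : Prop :=
  ∀ s : Fin N → K, {φ : ring X u x →ₐ[K] K | Over X u x φ s}.encard ≤ r

/-- `W → U` is quasi-finite: only finitely many points of `W` over `K` have given values. -/
def QuasiFinite : Prop :=
  ∀ c : ring X u x → K,
    {φ : ring X u x →ₐ[K] K | ∀ y : ring X u x, (y : L') ∈ functions X x → φ y = c y}.Finite

end

/-- The closed subvariety with function field `E`, generic point `z` and dimension `w`, of an affine
variety, is of log general type. -/
def LogGeneral (K : Type) [Field K] {E : Type} [Field E] [Algebra K E] {N : ℕ} (z : Fin N → E)
    (w : ℕ) : Prop :=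
  LogGeneralType K E w fun P => ∃ j, ¬ P.Reg (z j)

/-- All the closed subvarieties of positive dimension of the affine variety with coordinates `u` are
of log general type. This is the hypothesis of the Lang–Vojta conjecture. -/
def AllLogGeneral (K : Type) [Field K] {L : Type} [Field L] [Algebra K L] {N : ℕ}
    (u : Fin N → L) : Prop :=
  ∀ (E : Type) [Field E] [Algebra K E] (w : ℕ) (z : Fin N → E), 0 < w → IsSub K u z w →
    LogGeneral K z w

/-- The points in `S` are not dense in the variety with generic point `z`: there is a function on the
variety, not zero, which is zero at all of them. -/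
def NotDense (K : Type) [Field K] {E : Type} [Field E] [Algebra K E] {N : ℕ} (z : Fin N → E)
    (S : Set (Fin N → K)) : Prop :=
  ∃ G : MvPolynomial (Fin N) K, MvPolynomial.aeval z G ≠ 0 ∧ ∀ s ∈ S, MvPolynomial.eval s G = 0

/-- The ring `R` is contained in a finitely generated algebra over the algebraic closure of `k`
in `K`. -/
def InFinGen (k : Type) {K : Type} [Field k] [Field K] [Algebra k K] (R : Subring K) : Prop :=
  ∃ T : Finset K, R ≤ Subring.closure ((algebraicClosure k K : Set K) ∪ (T : Set K))

/-- The affine variety with coordinates `u` has only finitely many points of degree at most `e` that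
are integral over `R`, for each ring `R` contained in a finitely generated algebra over the
algebraic closure of `k` in `K`. -/
def FinitePoints (k K : Type) {L : Type} [Field k] [Field K] [Algebra k K] [Field L] [Algebra K L]
    {N : ℕ} (u : Fin N → L) (e : ℕ) : Prop :=
  ∀ R : Subring K, InFinGen k R → (IntPts u e R).Finite

/-- The point `s` of the affine variety `M` with coordinates `u` lies on a closed subvariety of
positive dimension on which all the finite correspondences whose fibres over `M` have at most `r`
points, where `2 m + 2 r e ≤ size`, are constant. -/
def OnConstant (k K : Type) {L : Type} [Field k] [Field K] [Algebra k K] [Field L] [Algebra K L]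
    {N : ℕ} (u : Fin N → L) (e : ℕ) (s : Fin N → K) : Prop :=
  ∃ (E : Type) (_ : Field E) (_ : Algebra K E) (w : ℕ) (z : Fin N → E), 0 < w ∧ IsSub K u z w ∧
    (∀ P, MvPolynomial.aeval z P = 0 → MvPolynomial.eval s P = 0) ∧
    ∀ (X : GenericPair k K) (L' : Type) [Field L'] [Algebra K L'] [Algebra L L']
      [IsScalarTower K L L'] [FiniteDimensional L L'] (x : Fin (X.n + 1) → L') (r : ℕ),
      IsCorr X u x → FibresLE X u x r → 2 * X.m + 2 * (r * e) ≤ X.size → ConstantOn X u x z

/-- The affine variety `M` with coordinates `u` has a finite correspondence with `U` whose fibres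
over `M` have at most `r` points, and which is quasi-finite over `U`. -/
def Dominated {k K : Type} [Field k] [Field K] [Algebra k K] (X : GenericPair k K) (r : ℕ)
    {L : Type} [Field L] [Algebra K L] {N : ℕ} (u : Fin N → L) : Prop :=
  ∃ (L' : Type) (_ : Field L') (_ : Algebra K L') (_ : Algebra L L') (_ : IsScalarTower K L L')
    (_ : FiniteDimensional L L') (x : Fin (X.n + 1) → L'),
    IsCorr X u x ∧ FibresLE X u x r ∧ QuasiFinite X u x

/-- The generic pair is in the projective space, and the hypersurfaces `F c = 0`, `c ∈ C`, of
positive degrees, contain a common line, by the condition on the degrees. -/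
def WithLines {k K : Type} [Field k] [Field K] [Algebra k K] (X : GenericPair k K) : Prop :=
  X.V = ∅ ∧ X.m = X.n ∧ 1 ≤ X.n ∧ (∀ c ∈ X.C, 1 ≤ X.d c) ∧
    ∑ c ∈ X.C, (X.d c + 1) ≤ 2 * (X.n - 1)

end Pool.Agent.N111.GJ.FC
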