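import Pool.Agent.N111.GJ.Ex

/-!
The bounds are exact.
-/

set_option autoImplicit false
set_option linter.overlappingInstances false
set_option linter.unusedSectionVars false
set_option maxHeartbeats 1000000

open IntermediateField Polynomial FF

namespace Pool.Agent.N111.GJ

open Pool.Agent.Y735.LB (prod_monic prod_eval)
open Pool.Agent.W602.GT (LogGeneralType not_log_gt consts)

section

variable {K L : Type} [Field K] [Field L] [Algebra K L]

/-- varieties birational to the multiplicative group, and containing it, are not of log general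
type -/
theorem not_lgt [CharZero K] {w : ℕ} {Bd : Place K L → Prop} {σ : L} (hσ : Transcendental K σ)
    (h : K⟮σ⟯ = ⊤) (hBd : ∀ P : Place K L, P.ord σ = 0 → ¬ Bd P) : ¬ LogGeneralType K L w Bd := by
  have hb : IsTranscendenceBasis K (fun _ : Unit => σ) := by
    have h1 : AlgebraicIndependent K (fun _ : Unit => σ) :=
      (algebraicIndependent_unique_type_iff).2 hσ
    rw [h1.isTranscendenceBasis_iff_isAlgebraic]
    have h2 : Set.range (fun _ : Unit => σ) = {σ} := by simp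
    rw [h2]
    refine Pool.Agent.W602.GT.alg_adjoin ⟨fun z => ?_⟩
    have h3 : z ∈ K⟮σ⟯ := by rw [h]; exact IntermediateField.mem_top
    exact isAlgebraic_algebraMap (⟨z, h3⟩ : K⟮σ⟯)
  obtain ⟨δ, hδ'⟩ := Pool.Agent.W602.GT.exists_der (fun _ : Unit => σ) hb (fun _ => σ)
  have hδ : δ σ = σ := hδ' ()
  have hσ0 : σ ≠ 0 := by
    rintro rfl
    exact hσ isAlgebraic_zero
  have htop : (consts δ)⟮σ⟯ = ⊤ := by
    rw [eq_top_iff]
    intro z _
    have h1 : z ∈ K⟮σ⟯ := by rw [h]; exact IntermediateField.mem_top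
    have h2 : K⟮σ⟯ ≤ ((consts δ)⟮σ⟯).restrictScalars K := by
      rw [adjoin_simple_le_iff]
      exact mem_adjoin_simple_self _ σ
    exact h2 h1
  exact not_log_gt δ hσ0 hδ htop fun P _ h0 => hBd P h0

theorem trdeg_one {σ : L} (hσ : Transcendental K σ)
    (h : K⟮σ⟯ = ⊤) : Algebra.trdeg K L = 1 := by
  have hb : IsTranscendenceBasis K (fun _ : Unit => σ) := by
    have h1 : AlgebraicIndependent K (fun _ : Unit => σ) :=
      (algebraicIndependent_unique_type_iff).2 hσ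
    rw [h1.isTranscendenceBasis_iff_isAlgebraic]
    have h2 : Set.range (fun _ : Unit => σ) = {σ} := by simp
    rw [h2]
    refine Pool.Agent.W602.GT.alg_adjoin ⟨fun z => ?_⟩
    have h3 : z ∈ K⟮σ⟯ := by rw [h]; exact IntermediateField.mem_top
    exact isAlgebraic_algebraMap (⟨z, h3⟩ : K⟮σ⟯)
  have h1 := hb.cardinalMk_eq_trdeg
  simpa using h1.symm

theorem cv_gen {q : ℕ} {σ : L} (h : K⟮σ⟯ = ⊤) (a : Fin q → K[X]) :
    adjoin K (Set.range (cv σ a)) = ⊤ := by
  rw [eq_top_iff, ← h, adjoin_simple_le_iff]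
  exact subset_adjoin _ _ ⟨0, rfl⟩

end

section

variable {k K : Type} [Field k] [Field K] [IsAlgClosed K] [CharZero K] [Algebra k K]

/-- the points of degree one with coordinates in the ring -/
theorem mem_IntPts {L : Type} [Field L] [Algebra K L] {q : ℕ} {σ : L} (hσ : Transcendental K σ)
    {a : Fin q → K[X]} (ha : ∀ j, a j ≠ 0) {R : Subring K} {τ : K} (hτ : ∀ j, (a j).eval τ ≠ 0)
    (hR : ∀ j, cv τ a j ∈ R) : cv τ a ∈ IntPts (cv σ a) 1 R := by
  refine ⟨fun P hP => ?_, fun j => ?_, ⊥, ?_, ?_, fun j => ?_⟩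
  · have h1 := cv_pt hσ ha (E := K) (τ := τ) (fun j => by
      rw [coe_aeval_eq_eval]
      exact hτ j) hP
    rwa [MvPolynomial.aeval_eq_eval] at h1
  · exact isIntegral_algebraMap (R := R) (A := K) (x := ⟨_, hR j⟩)
  · infer_instance
  · rw [IntermediateField.finrank_bot]
  · rw [IntermediateField.mem_bot]
    exact ⟨⟨_, Subfield.subset_closure (hR j)⟩, rfl⟩

/-- **The multiplicative group.** -/
theorem exact_gm (X : GenericPair k K) (hV : X.V = ∅) (hn : 1 ≤ X.n) (hd : ∀ c ∈ X.C, 1 ≤ X.d c)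
    (hC : ∑ c ∈ X.C, (X.d c + 1) ≤ 2 * (X.n - 1)) {r : ℕ} (hr : 0 < r)
    (hs : X.size + 2 ≤ 2 * X.n + 2 * r) :
    ∃ (L : Type) (_ : Field L) (_ : Algebra K L) (u : Fin 2 → L),
      adjoin K (Set.range u) = ⊤ ∧ Algebra.trdeg K L = 1 ∧
      (∀ z : L, IsIntegral (Algebra.adjoin K (Set.range u)) z →
        z ∈ Algebra.adjoin K (Set.range u)) ∧
      (∃ W : Corr k K u, W.X = X ∧ W.deg ≤ r ∧ W.QuasiFinite) ∧
      ¬ LogGeneralType K L 1 (fun P => ∃ j, ¬ P.Reg (u j)) ∧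
      ∃ T : Finset K, (IntPts u 1 (Subring.closure (T : Set K))).Infinite := by
  classical
  obtain ⟨Wl, hW1, hW2, hW3⟩ := Pool.Agent.Y735.LE.exists_line hn hd hC X.F_form X.I₀ X.coeff_ne
    X.generic
  have hs' : 2 + (X.size - 2 * X.n) ≤ 2 * r := by omega
  obtain ⟨x, y, t, hli, hx, hy, hxb, htN, ht⟩ := Pool.Agent.Y735.LB.exists_line (N := 2 * r)
    X.F_form hW1 (hW3.trans (by
      rw [Nat.cast_le]
      exact hs'))
  obtain ⟨B0, hB0t, hB0⟩ := Finset.exists_subset_card_eq (s := t) (n := r) (by omega)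
  obtain ⟨B1, hB1e⟩ : ∃ B1, B1 = t \ B0 := ⟨_, rfl⟩
  have hB1 : B1.card = r := by
    rw [hB1e, Finset.card_sdiff_of_subset hB0t]
    omega
  have h01 : ∀ β ∈ B0, β ∉ B1 := fun β h0 h1 => by
    rw [hB1e] at h1
    exact (Finset.mem_sdiff.1 h1).2 h0
  have h10 : ∀ β ∈ B1, β ∉ B0 := fun β h1 h0 => h01 β h0 h1
  have htm : ∀ β ∈ t, β ∈ B0 ∨ β ∈ B1 := by
    intro β hβ
    by_cases h0 : β ∈ B0
    · exact Or.inl h0
    · right
      rw [hB1e]
      exact Finset.mem_sdiff.2 ⟨hβ, h0⟩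
  obtain ⟨f, hf⟩ : ∃ f, f = ∏ β ∈ B0, (Polynomial.X - Polynomial.C β) := ⟨_, rfl⟩
  obtain ⟨g, hg⟩ : ∃ g, g = ∏ β ∈ B1, (Polynomial.X - Polynomial.C β) := ⟨_, rfl⟩
  obtain ⟨hfm, hfd⟩ := prod_monic B0
  obtain ⟨hgm, hgd⟩ := prod_monic B1
  have hfe := prod_eval B0
  have hge := prod_eval B1
  rw [← hf] at hfm hfd hfe
  rw [← hg] at hgm hgd hge
  obtain ⟨β₀, hβ₀⟩ : B1.Nonempty := by
    rw [← Finset.card_pos, hB1]
    exact hr
  have ha : ∀ j : Fin 1, (fun _ => Polynomial.X : Fin 1 → K[X]) j ≠ 0 := fun _ =>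
    Polynomial.X_ne_zero
  obtain ⟨L, σ, hσ, htop, W, hWX, hWd, hWq⟩ := line_corr (F := RatFunc K)
    RatFunc.transcendental_X RatFunc.adjoin_X X hV hli
    (fun c hc s => hW2 c hc _ (Wl.add_mem (Wl.smul_mem _ hx) hy)) hxb ht
    (r := r) (f := f) (g := g) (by rw [hfd, hB0]) (by rw [hgd, hB1])
    ⟨β₀, (hge β₀).2 hβ₀, fun h => h10 β₀ hβ₀ ((hfe β₀).1 h)⟩ hgm.ne_zero
    (a := fun _ : Fin 1 => Polynomial.X) ha (fun β hβ => by
      rcases htm β hβ with h | h
      · refine ⟨-(g.eval β), neg_ne_zero.2 fun h0 => h01 β h ((hge β).1 h0), Or.inr ⟨0, ?_⟩⟩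
        rw [(hfe β).2 h, map_zero, zero_sub, map_neg, neg_mul]
      · refine ⟨f.eval β, fun h0 => h10 β h ((hfe β).1 h0), Or.inl ?_⟩
        rw [(hge β).2 h, map_zero, zero_mul, sub_zero])
  have h2 : (2 : K) ≠ 0 := two_ne_zero
  refine ⟨L, inferInstance, inferInstance, cv σ fun _ : Fin 1 => Polynomial.X, cv_gen htop _,
    trdeg_one hσ htop,
    fun z hz => cv_normal hσ htop ha hz, ⟨W, hWX, hWd, hWq⟩, ?_, {2⁻¹}, ?_⟩
  · refine not_lgt hσ htop fun P hP => ?_
    rintro ⟨j, hj⟩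
    apply hj
    rcases Fin.eq_zero_or_eq_succ j with rfl | ⟨j, rfl⟩
    · exact Or.inr hP.ge
    · refine Or.inr ?_
      change 0 ≤ P.ord ((aeval σ (Polynomial.X : K[X]))⁻¹)
      rw [aeval_X, P.ord_inv, hP]
      exact le_rfl
  · have h3 : (Set.range fun i : ℕ => cv ((2 : K) ^ i)
        (fun _ : Fin 1 => (Polynomial.X : K[X]))).Infinite := by
      refine Set.infinite_range_of_injective fun i j hij => ?_
      have h4 : (2 : K) ^ i = 2 ^ j := congrFun hij 0
      have h5 : ((2 ^ i : ℕ) : K) = ((2 ^ j : ℕ) : K) := by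
        push_cast
        exact h4
      exact Nat.pow_right_injective le_rfl (Nat.cast_injective h5)
    refine h3.mono ?_
    rintro _ ⟨i, rfl⟩
    have h2i : (2 : K)⁻¹ ∈ Subring.closure (({2⁻¹} : Finset K) : Set K) :=
      Subring.subset_closure (by simp)
    have h2R : (2 : K) ∈ Subring.closure (({2⁻¹} : Finset K) : Set K) := by
      have h5 := add_mem (one_mem (Subring.closure (({2⁻¹} : Finset K) : Set K)))
        (one_mem (Subring.closure (({2⁻¹} : Finset K) : Set K)))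
      rwa [one_add_one_eq_two] at h5
    refine mem_IntPts hσ ha (fun j => ?_) fun j => ?_
    · rw [Polynomial.eval_X]
      exact pow_ne_zero _ h2
    · rcases Fin.eq_zero_or_eq_succ j with rfl | ⟨j, rfl⟩
      · change (2 : K) ^ i ∈ _
        exact pow_mem h2R _
      · change ((aeval ((2 : K) ^ i) (Polynomial.X : K[X]))⁻¹) ∈ _
        rw [aeval_X, ← inv_pow]
        exact pow_mem h2i _

/-- **The projective line without three points.** -/
theorem exact_three (X : GenericPair k K) (hV : X.V = ∅) (hn : 1 ≤ X.n)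
    (hd : ∀ c ∈ X.C, 1 ≤ X.d c)
    (hC : ∑ c ∈ X.C, (X.d c + 1) ≤ 2 * (X.n - 1)) {r : ℕ} (hr : 0 < r)
    (hs : X.size + 1 ≤ 2 * X.n + 2 * r) :
    ∃ (L : Type) (_ : Field L) (_ : Algebra K L) (u : Fin 3 → L),
      adjoin K (Set.range u) = ⊤ ∧
      (∀ z : L, IsIntegral (Algebra.adjoin K (Set.range u)) z →
        z ∈ Algebra.adjoin K (Set.range u)) ∧
      (∃ W : Corr k K u, W.X = X ∧ W.deg ≤ r ∧ W.QuasiFinite) ∧
      (IntPts u 1 (Subring.closure (algebraicClosure k K : Set K))).Infinite := by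
  classical
  obtain ⟨Wl, hW1, hW2, hW3⟩ := Pool.Agent.Y735.LE.exists_line hn hd hC X.F_form X.I₀ X.coeff_ne
    X.generic
  have hs' : 2 + (X.size - 2 * X.n) ≤ 2 * r + 1 := by omega
  obtain ⟨x, y, t, hli, hx, hy, hxb, htN, ht⟩ := Pool.Agent.Y735.LB.exists_line (N := 2 * r + 1)
    X.F_form hW1 (hW3.trans (by
      rw [Nat.cast_le]
      exact hs'))
  obtain ⟨B0, hB0t, hB0⟩ := Finset.exists_subset_card_eq (s := t) (n := r) (by omega)
  obtain ⟨B1, hB1t, hB1⟩ := Finset.exists_subset_card_eq (s := t \ B0) (n := r) (by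
    rw [Finset.card_sdiff_of_subset hB0t]; omega)
  obtain ⟨E, hE⟩ : ∃ E, E = (t \ B0) \ B1 := ⟨_, rfl⟩
  have hEc : E.card = 1 := by
    rw [hE, Finset.card_sdiff_of_subset hB1t, Finset.card_sdiff_of_subset hB0t]
    omega
  obtain ⟨β1, hβ1⟩ := Finset.card_eq_one.1 hEc
  have hβE : β1 ∈ E := by rw [hβ1]; exact Finset.mem_singleton_self _
  have hEβ : ∀ β ∈ E, β = β1 := fun β hβ => by
    rw [hβ1] at hβ
    exact Finset.mem_singleton.1 hβ
  have h01 : ∀ β ∈ B0, β ∉ B1 := fun β h0 h1 => (Finset.mem_sdiff.1 (hB1t h1)).2 h0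
  have h10 : ∀ β ∈ B1, β ∉ B0 := fun β h1 h0 => h01 β h0 h1
  have hE1 : β1 ∉ B1 := fun h => by
    have h1 := hβE
    rw [hE] at h1
    exact (Finset.mem_sdiff.1 h1).2 h
  have hE0 : β1 ∉ B0 := fun h => by
    have h1 := hβE
    rw [hE] at h1
    exact (Finset.mem_sdiff.1 (Finset.mem_sdiff.1 h1).1).2 h
  have htm : ∀ β ∈ t, β ∈ B0 ∨ β ∈ B1 ∨ β = β1 := by
    intro β hβ
    by_cases h0 : β ∈ B0
    · exact Or.inl h0
    by_cases h1 : β ∈ B1
    · exact Or.inr (Or.inl h1)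
    · right; right
      refine hEβ β ?_
      rw [hE]
      exact Finset.mem_sdiff.2 ⟨Finset.mem_sdiff.2 ⟨hβ, h0⟩, h1⟩
  obtain ⟨f, hf⟩ : ∃ f, f = ∏ β ∈ B0, (Polynomial.X - Polynomial.C β) := ⟨_, rfl⟩
  obtain ⟨g, hg⟩ : ∃ g, g = ∏ β ∈ B1, (Polynomial.X - Polynomial.C β) := ⟨_, rfl⟩
  obtain ⟨hfm, hfd⟩ := prod_monic B0
  obtain ⟨hgm, hgd⟩ := prod_monic B1
  have hfe := prod_eval B0
  have hge := prod_eval B1
  rw [← hf] at hfm hfd hfe
  rw [← hg] at hgm hgd hge
  have hf1 : f.eval β1 ≠ 0 := fun h => hE0 ((hfe β1).1 h)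
  have hg1 : g.eval β1 ≠ 0 := fun h => hE1 ((hge β1).1 h)
  obtain ⟨c, hc⟩ : ∃ c, c = g.eval β1 / f.eval β1 := ⟨_, rfl⟩
  have hc0 : c ≠ 0 := by
    rw [hc]
    exact div_ne_zero hg1 hf1
  obtain ⟨β₀, hβ₀⟩ : B1.Nonempty := by
    rw [← Finset.card_pos, hB1]
    exact hr
  have ha : ∀ j : Fin 2, (![Polynomial.X, 1 - Polynomial.X] : Fin 2 → K[X]) j ≠ 0 := by
    intro j h0
    fin_cases j
    · exact Polynomial.X_ne_zero h0
    · have h1 := congrArg (Polynomial.eval 0) h0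
      simp at h1
  obtain ⟨L, σ, hσ, htop, W, hWX, hWd, hWq⟩ := line_corr (F := RatFunc K)
    RatFunc.transcendental_X RatFunc.adjoin_X X hV hli
    (fun c hc s => hW2 c hc _ (Wl.add_mem (Wl.smul_mem _ hx) hy)) hxb ht
    (r := r) (f := C c * f) (g := g) ((natDegree_C_mul_le _ _).trans (by rw [hfd, hB0]))
    (by rw [hgd, hB1])
    ⟨β₀, (hge β₀).2 hβ₀, by
      rw [eval_mul, eval_C]
      exact mul_ne_zero hc0 fun h => h10 β₀ hβ₀ ((hfe β₀).1 h)⟩ hgm.ne_zero
    (a := ![Polynomial.X, 1 - Polynomial.X]) ha (fun β hβ => by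
      rcases htm β hβ with h | h | h
      · refine ⟨-(g.eval β), neg_ne_zero.2 fun h0 => h01 β h ((hge β).1 h0), Or.inr ⟨0, ?_⟩⟩
        rw [eval_mul, (hfe β).2 h, mul_zero, map_zero, zero_sub, map_neg, neg_mul]
        rfl
      · refine ⟨c * f.eval β, mul_ne_zero hc0 fun h0 => h10 β h ((hfe β).1 h0), Or.inl ?_⟩
        rw [(hge β).2 h, map_zero, zero_mul, sub_zero, eval_mul, eval_C]
      · refine ⟨g.eval β, by rw [h]; exact hg1, Or.inr ⟨1, ?_⟩⟩
        have h1 : (C c * f).eval β = g.eval β := by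
          rw [eval_mul, eval_C, h, hc, div_mul_cancel₀ _ hf1]
        rw [h1]
        change _ = C (g.eval β) * (1 - Polynomial.X)
        ring)
  refine ⟨L, inferInstance, inferInstance, cv σ ![Polynomial.X, 1 - Polynomial.X], cv_gen htop _,
    fun z hz => cv_normal hσ htop ha hz, ⟨W, hWX, hWd, hWq⟩, ?_⟩
  have hac : IsAlgClosed (algebraicClosure k K) := (algebraicClosure.isAlgClosure k K).isAlgClosed
  have hinf : Infinite (algebraicClosure k K) := IsAlgClosed.instInfinite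
  have h3 : ((fun τ : algebraicClosure k K =>
      cv (τ : K) (![Polynomial.X, 1 - Polynomial.X] : Fin 2 → K[X])) ''
      ({0, 1}ᶜ : Set (algebraicClosure k K))).Infinite := by
    refine Set.Infinite.image (fun i _ j _ hij => ?_) (Set.toFinite _).infinite_compl
    exact Subtype.ext (congrFun hij 0)
  refine h3.mono ?_
  rintro _ ⟨τ, hτ, rfl⟩
  have hτ0 : (τ : K) ≠ 0 := fun h => hτ (Or.inl (Subtype.ext h))
  have hτ1 : (1 : K) - τ ≠ 0 := fun h => hτ (Or.inr (Subtype.ext (sub_eq_zero.1 h).symm))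
  refine mem_IntPts hσ ha (fun j => ?_) fun j => ?_
  · fin_cases j
    · change (Polynomial.X : K[X]).eval (τ : K) ≠ 0
      rw [Polynomial.eval_X]
      exact hτ0
    · change (1 - Polynomial.X : K[X]).eval (τ : K) ≠ 0
      rw [Polynomial.eval_sub, Polynomial.eval_one, Polynomial.eval_X]
      exact hτ1
  · refine Subring.subset_closure ?_
    fin_cases j
    · exact τ.2
    · change (aeval (τ : K) (Polynomial.X : K[X]))⁻¹ ∈ _
      rw [aeval_X]
      exact (τ⁻¹).2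
    · change (aeval (τ : K) (1 - Polynomial.X : K[X]))⁻¹ ∈ _
      rw [map_sub, map_one, aeval_X]
      exact ((1 - τ)⁻¹).2

end

end Pool.Agent.N111.GJ
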